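import Pool.Agent.LNC.SR

/-!
# LNC, module Blk: the block lemma

If a computation contains many letters with property `P1` and few letters with property `P2`, then
it contains a loop with at least one `P1`-letter and without `P2`-letters.

Proof. Take a unit chain (`chainU`): configurations `c 0, …, c n`, words `X i`, `Y i` of length
`≤ 1`. Let `F1 i`, `F2 i` be the number of `P1`- resp. `P2`-letters in `cat X 0 i` and `cat Y 0 i`
together. `F1` is monotone, `F1 0 = 0`, `F1 (i+1) ≤ F1 i + 2`, `F1 n = ξ.countP P1 + η.countP P1`;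
`F2` is monotone. By induction: for every `k` with `2 k ≤ F1 n` there is `i_k ≤ n` with
`F1 i_k ∈ {2k, 2k+1}`. Let `D = card Q`, `K = D (F2 n + 1)`; then `2 K < F1 n`, so `i_0, …, i_K`
exist and `F1 i_0 < F1 i_1 < ⋯`, hence (monotonicity of `F1`) `i_0 < i_1 < ⋯`. The pairs
`(c i_k, F2 i_k)` lie in a set with `K` elements, so there are `k < k'` with `c i_k = c i_k'`,
`F2 i_k = F2 i_k'`. Cut at `i_k` and `i_k'` (`StepRel.cat`, `cat_append`); `countP` is additive.
-/

namespace LNC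

open RCone

variable {Q Γ : Type}

private theorem Blk_cnt (X Y : ℕ → List Γ) (P : Γ → Bool) {i j : ℕ} (hij : i ≤ j) :
    (cat X 0 j).countP P + (cat Y 0 j).countP P =
      ((cat X 0 i).countP P + (cat Y 0 i).countP P) +
        ((cat X i j).countP P + (cat Y i j).countP P) := by
  rw [← cat_append X (Nat.zero_le i) hij, ← cat_append Y (Nat.zero_le i) hij, List.countP_append,
    List.countP_append]
  omega

theorem StepRel.block [Fintype Q] (SR : StepRel Q Γ) (P1 P2 : Γ → Bool) {q q' : Q} {ξ η : List Γ}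
    (h : SR.rel q ξ η q')
    (hbig : 2 * Fintype.card Q * (ξ.countP P2 + η.countP P2 + 1) < ξ.countP P1 + η.countP P1) :
    ∃ (c : Q) (ξ₁ ξ₂ ξ₃ η₁ η₂ η₃ : List Γ), ξ = ξ₁ ++ ξ₂ ++ ξ₃ ∧ η = η₁ ++ η₂ ++ η₃ ∧
      SR.rel q ξ₁ η₁ c ∧ SR.rel c ξ₂ η₂ c ∧ SR.rel c ξ₃ η₃ q' ∧
      0 < ξ₂.countP P1 + η₂.countP P1 ∧ ξ₂.countP P2 + η₂.countP P2 = 0 := by
  obtain ⟨n, c, X, Y, h0, hn, hξ, hη, hst⟩ := SR.chainU h
  set F1 : ℕ → ℕ := fun i => (LNC.cat X 0 i).countP P1 + (LNC.cat Y 0 i).countP P1 with hF1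
  set F2 : ℕ → ℕ := fun i => (LNC.cat X 0 i).countP P2 + (LNC.cat Y 0 i).countP P2 with hF2
  have m1 : ∀ i j, i ≤ j → F1 j = F1 i +
      ((LNC.cat X i j).countP P1 + (LNC.cat Y i j).countP P1) := fun i j hij => Blk_cnt X Y P1 hij
  have m2 : ∀ i j, i ≤ j → F2 j = F2 i +
      ((LNC.cat X i j).countP P2 + (LNC.cat Y i j).countP P2) := fun i j hij => Blk_cnt X Y P2 hij
  have mono1 : ∀ i j, i ≤ j → F1 i ≤ F1 j := fun i j hij => by rw [m1 i j hij]; omega
  have mono2 : ∀ i j, i ≤ j → F2 i ≤ F2 j := fun i j hij => by rw [m2 i j hij]; omega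
  have f0 : F1 0 = 0 := by
    simp only [hF1]
    rw [cat_self, cat_self]
    rfl
  have step : ∀ i, i < n → F1 (i + 1) ≤ F1 i + 2 := by
    intro i hi
    have h1 := m1 i (i + 1) (by omega)
    have h2 : (LNC.cat X i (i + 1)).countP P1 ≤ 1 := by
      rw [cat_succ X le_rfl, cat_self, List.nil_append]
      exact List.countP_le_length.trans (hst i hi).2.1
    have h3 : (LNC.cat Y i (i + 1)).countP P1 ≤ 1 := by
      rw [cat_succ Y le_rfl, cat_self, List.nil_append]
      exact List.countP_le_length.trans (hst i hi).2.2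
    omega
  have hFn1 : F1 n = ξ.countP P1 + η.countP P1 := by rw [hξ, hη]
  have hFn2 : F2 n = ξ.countP P2 + η.countP P2 := by rw [hξ, hη]
  rw [← hFn1, ← hFn2] at hbig
  have hex : ∀ k, 2 * k ≤ F1 n → ∃ i, i ≤ n ∧ 2 * k ≤ F1 i ∧ F1 i ≤ 2 * k + 1 := by
    intro k hk
    have hE : ∃ i, 2 * k ≤ F1 i := ⟨n, hk⟩
    classical
    refine ⟨Nat.find hE, Nat.find_min' hE hk, Nat.find_spec hE, ?_⟩
    rcases Nat.eq_zero_or_pos (Nat.find hE) with h1 | h1
    · rw [h1, f0]
      omega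
    · have h2 := Nat.find_min hE (m := Nat.find hE - 1) (by omega)
      have h3 := Nat.find_min' hE hk
      have h4 := step (Nat.find hE - 1) (by omega)
      rw [Nat.sub_add_cancel h1] at h4
      omega
  set K := Fintype.card Q * (F2 n + 1) with hK
  have hK2 : 2 * K < F1 n := by
    calc 2 * K = 2 * Fintype.card Q * (F2 n + 1) := by rw [hK]; ring
      _ < F1 n := hbig
  have hex' : ∀ k : Fin (K + 1), ∃ i, i ≤ n ∧ 2 * (k : ℕ) ≤ F1 i ∧ F1 i ≤ 2 * (k : ℕ) + 1 :=
    fun k => hex k (by have := k.2; omega)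
  choose idx i1 i2 i3 using hex'
  have hcard : Fintype.card (Q × Fin (F2 n + 1)) < Fintype.card (Fin (K + 1)) := by
    rw [Fintype.card_prod, Fintype.card_fin, Fintype.card_fin, ← hK]
    omega
  obtain ⟨k, k', hkk, heq⟩ := Fintype.exists_ne_map_eq_of_card_lt
    (fun k : Fin (K + 1) => ((c (idx k), ⟨F2 (idx k), by
      have := mono2 _ _ (i1 k)
      omega⟩) : Q × Fin (F2 n + 1))) hcard
  rw [Prod.mk.injEq, Fin.mk.injEq] at heq
  obtain ⟨a, b, hab, hbn, hc, hf1, hf2⟩ : ∃ a b, a ≤ b ∧ b ≤ n ∧ c a = c b ∧ F1 a < F1 b ∧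
      F2 a = F2 b := by
    rcases lt_or_gt_of_ne hkk with hlt | hlt
    · have hlt' : (k : ℕ) < k' := hlt
      have h1 : F1 (idx k) < F1 (idx k') := by
        have := i3 k
        have := i2 k'
        omega
      refine ⟨idx k, idx k', ?_, i1 k', heq.1, h1, heq.2⟩
      by_contra h2
      have := mono1 (idx k') (idx k) (by omega)
      omega
    · have hlt' : (k' : ℕ) < k := hlt
      have h1 : F1 (idx k') < F1 (idx k) := by
        have := i3 k'
        have := i2 k
        omega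
      refine ⟨idx k', idx k, ?_, i1 k, heq.1.symm, h1, heq.2.symm⟩
      by_contra h2
      have := mono1 (idx k) (idx k') (by omega)
      omega
  have hst' : ∀ i < n, SR.rel (c i) (X i) (Y i) (c (i + 1)) := fun i hi => (hst i hi).1
  have g1 := StepRel.cat SR hst' (Nat.zero_le a) (hab.trans hbn)
  have g2 := StepRel.cat SR hst' hab hbn
  have g3 := StepRel.cat SR hst' hbn le_rfl
  rw [h0] at g1
  rw [← hc] at g2 g3
  rw [hn] at g3
  refine ⟨c a, LNC.cat X 0 a, LNC.cat X a b, LNC.cat X b n, LNC.cat Y 0 a, LNC.cat Y a b,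
    LNC.cat Y b n, ?_, ?_, g1, g2, g3, ?_, ?_⟩
  · rw [cat_append X (Nat.zero_le a) hab, cat_append X (Nat.zero_le b) hbn, hξ]
  · rw [cat_append Y (Nat.zero_le a) hab, cat_append Y (Nat.zero_le b) hbn, hη]
  · have := m1 a b hab
    omega
  · have := m2 a b hab
    omega

end LNC
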