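import Pool.Agent.LNC.Cnt
import Pool.Agent.LNC.Blk

/-!
# LNC, module BLoop: a loop which outputs letters `b` only

Proof. `StepRel.block` for `C.CR` with `P1 a = decide (out a = some (inr false))` and `P2 a` = '`a`
outputs a letter `g` or `c`' `= ((out a).bind Sum.getLeft?).isSome || decide (out a = some (inr true))`.
`ζ.countP P2 = (gl ζ).length + pc ζ` (induction on `ζ`), `ζ.countP P1 = yb ζ` (by definition).
-/

namespace LNC

open RCone

variable {e : ℕ} {main : ℕ → ℕ → Prop} {Q S Γ : Type} (C : Ctx e main Q S Γ)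

private theorem BLoop_count {e : ℕ} {Γ : Type} (out : Γ → Option (Al e)) (ζ : List Γ) :
    ζ.countP (fun a => ((out a).bind Sum.getLeft?).isSome || decide (out a = some (Sum.inr true))) =
      (gl out ζ).length + pc out ζ := by
  induction ζ with
  | nil => rfl
  | cons a ζ ih =>
    unfold gl pc at ih ⊢
    rw [List.countP_cons, ih, List.countP_cons, List.filterMap_cons]
    cases h : out a with
    | none => simp
    | some x =>
      rcases x with i | b
      · simp [Sum.getLeft?]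
        omega
      · cases b
        · simp [Sum.getLeft?]
        · simp [Sum.getLeft?]
          omega

theorem bloop [Fintype Q] [Fintype S] {c cf : Conf Q S} {ξ η : List Γ}
    (h : C.CR.rel c ξ η cf)
    (hbig : 2 * Fintype.card (Conf Q S) * ((gl C.out ξ).length + (gl C.out η).length +
      pc C.out ξ + pc C.out η + 1) < yb C.out ξ + yb C.out η) :
    ∃ (cβ : Conf Q S) (ξ₁ ξ₂ ξ₃ η₁ η₂ η₃ : List Γ), ξ = ξ₁ ++ ξ₂ ++ ξ₃ ∧ η = η₁ ++ η₂ ++ η₃ ∧
      C.CR.rel c ξ₁ η₁ cβ ∧ C.CR.rel cβ ξ₂ η₂ cβ ∧ C.CR.rel cβ ξ₃ η₃ cf ∧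
      gl C.out ξ₂ = [] ∧ gl C.out η₂ = [] ∧ pc C.out ξ₂ = 0 ∧ pc C.out η₂ = 0 ∧
      1 ≤ yb C.out ξ₂ + yb C.out η₂ := by
  have hb : 2 * Fintype.card (Conf Q S) *
      (ξ.countP (fun a => ((C.out a).bind Sum.getLeft?).isSome || decide (C.out a = some (Sum.inr true))) +
        η.countP (fun a => ((C.out a).bind Sum.getLeft?).isSome || decide (C.out a = some (Sum.inr true))) + 1) <
      ξ.countP (fun a => decide (C.out a = some (Sum.inr false))) +
        η.countP (fun a => decide (C.out a = some (Sum.inr false))) := by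
    rw [BLoop_count, BLoop_count]
    have h1 : (gl C.out ξ).length + pc C.out ξ + ((gl C.out η).length + pc C.out η) + 1 =
      (gl C.out ξ).length + (gl C.out η).length + pc C.out ξ + pc C.out η + 1 := by ring
    rw [h1]
    exact hbig
  obtain ⟨cβ, ξ₁, ξ₂, ξ₃, η₁, η₂, η₃, e1, e2, r1, r2, r3, hpos, hzero⟩ := C.CR.block _ _ h hb
  rw [BLoop_count, BLoop_count] at hzero
  refine ⟨cβ, ξ₁, ξ₂, ξ₃, η₁, η₂, η₃, e1, e2, r1, r2, r3, ?_, ?_, by omega, by omega, hpos⟩
  · exact List.length_eq_zero_iff.mp (by omega)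
  · exact List.length_eq_zero_iff.mp (by omega)

end LNC
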