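import Pool.Agent.LNC.Defs2

/-!
# LNC, module Cnt: the output counts
-/

namespace LNC

open RCone

section

variable {e : ℕ} {Γ : Type} (out : Γ → Option (Al e))

@[simp] theorem gl_nil : gl out [] = [] := rfl
@[simp] theorem yb_nil : yb out [] = 0 := rfl
@[simp] theorem pc_nil : pc out [] = 0 := rfl

@[simp] theorem gl_append (u v : List Γ) : gl out (u ++ v) = gl out u ++ gl out v := by
  simp [gl, List.filterMap_append]

@[simp] theorem yb_append (u v : List Γ) : yb out (u ++ v) = yb out u + yb out v := by
  simp [yb, List.countP_append]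

@[simp] theorem pc_append (u v : List Γ) : pc out (u ++ v) = pc out u + pc out v := by
  simp [pc, List.countP_append]

@[simp] theorem gl_reverse (u : List Γ) : gl out u.reverse = (gl out u).reverse := by
  simp [gl, List.filterMap_reverse]

@[simp] theorem yb_reverse (u : List Γ) : yb out u.reverse = yb out u := by
  simp [yb, List.countP_reverse]

@[simp] theorem pc_reverse (u : List Γ) : pc out u.reverse = pc out u := by
  simp [pc, List.countP_reverse]

@[simp] theorem gl_rep (u : List Γ) (n : ℕ) : gl out (rep u n) = rep (gl out u) n :=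
  filterMap_rep _ _ _

@[simp] theorem yb_rep (u : List Γ) (n : ℕ) : yb out (rep u n) = n * yb out u := by
  induction n with
  | zero => simp
  | succ n ih => rw [rep_succ, yb_append, ih]; ring

@[simp] theorem pc_rep (u : List Γ) (n : ℕ) : pc out (rep u n) = n * pc out u := by
  induction n with
  | zero => simp
  | succ n ih => rw [rep_succ, pc_append, ih]; ring

theorem length_rep {α : Type} (u : List α) (n : ℕ) : (rep u n).length = n * u.length := by
  induction n with
  | zero => simp
  | succ n ih => rw [rep_succ, List.length_append, ih]; ring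

theorem rep_reverse {α : Type} (u : List α) (n : ℕ) : (rep u n).reverse = rep u.reverse n := by
  induction n with
  | zero => simp
  | succ n ih => rw [rep_succ, List.reverse_append, ih, rep_succ']

theorem gl_eq_filterMap (ζ : List Γ) : gl out ζ = (ζ.filterMap out).filterMap Sum.getLeft? := by
  rw [gl, List.filterMap_filterMap]

theorem yb_eq_count (ζ : List Γ) :
    yb out ζ = (ζ.filterMap out).countP (fun x => decide (x = Sum.inr false)) := by
  induction ζ with
  | nil => rfl
  | cons a ζ ih =>
    rw [yb] at ih ⊢
    rw [List.countP_cons, ih, List.filterMap_cons]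
    cases h : out a with
    | none => simp
    | some x => simp [List.countP_cons]

theorem pc_eq_count (ζ : List Γ) :
    pc out ζ = (ζ.filterMap out).countP (fun x => decide (x = Sum.inr true)) := by
  induction ζ with
  | nil => rfl
  | cons a ζ ih =>
    rw [pc] at ih ⊢
    rw [List.countP_cons, ih, List.filterMap_cons]
    cases h : out a with
    | none => simp
    | some x => simp [List.countP_cons]

theorem word_getLeft (u : List (Fin e)) (y p : ℕ) :
    (word u y p).filterMap Sum.getLeft? = u := by
  have h1 : ∀ u : List (Fin e), (u.map (Sum.inl : Fin e → Al e)).filterMap Sum.getLeft? = u := by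
    intro u
    induction u with
    | nil => rfl
    | cons a u ih => simp [ih]
  have h2 : ∀ (x : Bool) (n : ℕ),
      (List.replicate n (Sum.inr x : Al e)).filterMap Sum.getLeft? = [] := by
    intro x n
    induction n with
    | zero => rfl
    | succ n ih => simp [List.replicate_succ]
  rw [word, List.filterMap_append, List.filterMap_append, h1, h2, h2]
  simp

theorem countP_inr_map (u : List (Fin e)) (x : Bool) :
    (u.map (Sum.inl : Fin e → Al e)).countP (fun a => decide (a = Sum.inr x)) = 0 := by
  rw [List.countP_eq_zero]
  simp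

theorem countP_inr_replicate (x x' : Bool) (n : ℕ) :
    (List.replicate n (Sum.inr x : Al e)).countP (fun a => decide (a = Sum.inr x')) =
      if x = x' then n else 0 := by
  rw [List.countP_replicate]
  simp

theorem word_count_b (u : List (Fin e)) (y p : ℕ) :
    (word u y p).countP (fun x => decide (x = Sum.inr false)) = y := by
  rw [word, List.countP_append, List.countP_append, countP_inr_map, countP_inr_replicate,
    countP_inr_replicate]
  simp

theorem word_count_c (u : List (Fin e)) (y p : ℕ) :
    (word u y p).countP (fun x => decide (x = Sum.inr true)) = p := by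
  rw [word, List.countP_append, List.countP_append, countP_inr_map, countP_inr_replicate,
    countP_inr_replicate]
  simp

theorem cnt_of_word {ζ : List Γ} {u : List (Fin e)} {y p : ℕ}
    (h : ζ.filterMap out = word u y p) : gl out ζ = u ∧ yb out ζ = y ∧ pc out ζ = p := by
  refine ⟨?_, ?_, ?_⟩
  · rw [gl_eq_filterMap, h, word_getLeft]
  · rw [yb_eq_count, h, word_count_b]
  · rw [pc_eq_count, h, word_count_c]

theorem Kill.le_length {u : List (Fin e)} {y : ℕ} (h : Kill u y) : y ≤ u.length := by
  obtain ⟨i, x, f, x', rfl, -, h⟩ := h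
  have := List.count_le_length (a := i) (l := f)
  simp only [List.length_append]
  omega

theorem Kill.mono {u : List (Fin e)} {y y' : ℕ} (h : Kill u y) (hy : y' ≤ y) : Kill u y' := by
  obtain ⟨i, x, f, x', rfl, h1, h2⟩ := h
  exact ⟨i, x, f, x', rfl, h1, hy.trans h2⟩

/-- a factor with a power: `u f^k u'` is killed for `k ≥ y` when `f ≠ []` -/
theorem Kill.of_rep {u f u' : List (Fin e)} (hf : f ≠ []) {y k : ℕ} (hk : y ≤ k) :
    Kill (u ++ rep f k ++ u') y := by
  obtain ⟨i, hi, hmax⟩ : ∃ i ∈ f, ∀ a ∈ f, a ≤ i := by
    have hne : f.toFinset.Nonempty := by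
      obtain ⟨a, l, rfl⟩ := List.exists_cons_of_ne_nil hf
      exact ⟨a, by simp⟩
    refine ⟨f.toFinset.max' hne, ?_, fun a ha => Finset.le_max' _ _ (by simpa using ha)⟩
    have := f.toFinset.max'_mem hne
    simpa using this
  refine ⟨i, u, rep f k, u', rfl, fun a ha => hmax a (mem_of_mem_rep ha), ?_⟩
  have h1 : ∀ n, n ≤ (rep f n).count i := by
    intro n
    induction n with
    | zero => simp
    | succ n ih =>
      rw [rep_succ, List.count_append]
      have : 0 < f.count i := List.count_pos_iff.2 hi
      omega
  exact hk.trans (h1 k)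

end

/-! ### The nested words -/

section

variable {e : ℕ} [NeZero e]

theorem val_ofNat_e {i : ℕ} (hi : i < e) : ((Fin.ofNat e i : Fin e) : ℕ) = i := by
  simp [Fin.ofNat, Nat.mod_eq_of_lt hi]

theorem Uw_le (n : ℕ) {i : ℕ} (hi : i < e) : ∀ a ∈ Uw e n i, (a : ℕ) ≤ i := by
  induction i with
  | zero =>
    intro a ha
    simp only [Uw, List.mem_singleton] at ha
    rw [ha, val_ofNat_e hi]
  | succ i ih =>
    intro a ha
    simp only [Uw, List.mem_append, List.mem_singleton] at ha
    rcases ha with ha | ha
    · exact (ih (by omega) a (mem_of_mem_rep ha)).trans (by omega)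
    · rw [ha, val_ofNat_e hi]

theorem Uw_mem (n : ℕ) {i : ℕ} (hi : i < e) : ∃ a ∈ Uw e n i, (a : ℕ) = i := by
  cases i with
  | zero => exact ⟨Fin.ofNat e 0, by simp [Uw], val_ofNat_e hi⟩
  | succ i => exact ⟨Fin.ofNat e (i + 1), by simp [Uw], val_ofNat_e hi⟩

theorem Uw_ne (n i : ℕ) : Uw e n i ≠ [] := by
  cases i <;> simp [Uw]

end

end LNC
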