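import Pool.Agent.LNC.Cnt

/-!
# LNC, module ConfL: configurations and acceptance
-/

namespace LNC

open RCone

variable {e : ℕ} {main : ℕ → ℕ → Prop} {Q S Γ : Type} (C : Ctx e main Q S Γ)

theorem Ctx.acc_iff {ξ η : List Γ} {cf : Conf Q S} (h : C.CR.rel C.c0 ξ η cf) :
    cf.2.1 ∈ cf.2.2 ↔ ξ ++ η.reverse ∈ C.M.accepts := by
  obtain ⟨-, h2, h3⟩ := h
  rw [← h2, ← h3, DFA.mem_accepts, DFA.eval, evalFrom_append']
  rfl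

theorem Ctx.mem_of {ξ η : List Γ} {cf : Conf Q S} (h : C.CR.rel C.c0 ξ η cf) (hf : cf ∈ C.Acc) :
    C.mem (ξ ++ η.reverse) ∧ ξ ++ η.reverse ∈ C.M.accepts :=
  ⟨⟨ξ, η, cf.1, rfl, h.1, hf.1⟩, (C.acc_iff h).1 hf.2⟩

theorem Ctx.sound_mem {ζ : List Γ} (h : C.mem ζ) (h' : ζ ∈ C.M.accepts) :
    ζ.filterMap C.out ∈ Fl e main := by
  obtain ⟨ξ, η, q, rfl, h1, h2⟩ := h
  exact C.sound ξ η q h1 h2 h'

theorem Ctx.sound' {ξ η : List Γ} {cf : Conf Q S} (h : C.CR.rel C.c0 ξ η cf) (hf : cf ∈ C.Acc) :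
    (ξ ++ η.reverse).filterMap C.out ∈ Fl e main :=
  C.sound_mem (C.mem_of h hf).1 (C.mem_of h hf).2

/-- every word which is accepted outputs a word of `F`: in terms of the counts -/
theorem Ctx.cnt_mem {ζ : List Γ} (h : C.mem ζ) (h' : ζ ∈ C.M.accepts) :
    Kill (gl C.out ζ) (yb C.out ζ) ∨ main (gl C.out ζ).length (pc C.out ζ) := by
  obtain ⟨u, y, p, h1, h2⟩ := C.sound_mem h h'
  obtain ⟨rfl, rfl, rfl⟩ := cnt_of_word C.out h1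
  exact h2

theorem Ctx.cnt {ξ η : List Γ} {cf : Conf Q S} (h : C.CR.rel C.c0 ξ η cf) (hf : cf ∈ C.Acc) :
    Kill (gl C.out ξ ++ (gl C.out η).reverse) (yb C.out ξ + yb C.out η) ∨
      main ((gl C.out ξ).length + (gl C.out η).length) (pc C.out ξ + pc C.out η) := by
  have := C.cnt_mem (C.mem_of h hf).1 (C.mem_of h hf).2
  simpa using this

theorem Ctx.complete' {w : List (Al e)} (hw : w ∈ Fl e main) :
    ∃ (ξ η : List Γ) (cf : Conf Q S), C.CR.rel C.c0 ξ η cf ∧ cf ∈ C.Acc ∧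
      (ξ ++ η.reverse).filterMap C.out = w := by
  obtain ⟨ξ, η, q, h1, h2, h3, h4⟩ := C.complete w hw
  have h5 : C.CR.rel C.c0 ξ η (q, C.M.evalFrom C.M.start ξ,
      {x | C.M.evalFrom x η.reverse ∈ C.M.accept}) := ⟨h1, rfl, rfl⟩
  exact ⟨ξ, η, _, h5, ⟨h2, (C.acc_iff h5).2 h3⟩, h4⟩

theorem Ctx.of_mem {ζ : List Γ} (h : C.mem ζ) (h' : ζ ∈ C.M.accepts) :
    ∃ (ξ η : List Γ) (cf : Conf Q S), ζ = ξ ++ η.reverse ∧ C.CR.rel C.c0 ξ η cf ∧ cf ∈ C.Acc := by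
  obtain ⟨ξ, η, q, rfl, h1, h2⟩ := h
  have h5 : C.CR.rel C.c0 ξ η (q, C.M.evalFrom C.M.start ξ,
      {x | C.M.evalFrom x η.reverse ∈ C.M.accept}) := ⟨h1, rfl, rfl⟩
  exact ⟨ξ, η, _, rfl, h5, ⟨h2, (C.acc_iff h5).2 h'⟩⟩

end LNC
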