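import Pool.Agent.LNC.Cnt

/-!
# LNC, module Contr: products of two exponents cannot be killed

Let `Bk = A1 ++ rep A0 a ++ A2 ++ Cw`, where the letters of `A0, A1, A2` are `≤ h` and `Cw` contains a
letter `> h`. For large `a` the word `α ++ rep Bk a ++ α'` is not killed by `a * a`.

Proof. `K0 = |α| + |α'| + 2 (|A0| + |A1| + |A2| + |Cw|) + 1`; let `a ≥ K0` and suppose
`α ++ rep Bk a ++ α' = x ++ f ++ x'`, all letters of `f` are `≤ i`, `a * a ≤ f.count i`.
* `i > h`: `f.count i ≤ (α ++ rep Bk a ++ α').count i = α.count i + a * Cw.count i + α'.count i`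
  (`A0, A1, A2` do not contain `i`) `≤ |α| + |α'| + a |Cw| < a * a`. (Use `a ≥ K0`, e.g.
  `|α| + |α'| + a |Cw| ≤ a (|α| + |α'| + |Cw|) < a a`.)
* `i ≤ h`: then all letters of `f` are `≤ h`. Claim (lemma, induction on `b`, for every `β` and every
  factorisation): if `rep Bk b ++ β = x ++ f ++ x'`, all letters of `f` are `≤ h` and `Bk` contains a
  letter `> h`, then `|f| ≤ 2 |Bk| + |β|`; and if `rep Bk b ++ β = f ++ x'` then `|f| ≤ |Bk| + |β|`
  (for `b = 0` clear; for `b ≥ 1` the word `Bk` is not a prefix of `f`, so `f` is a prefix of `Bk`).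
  For the first one with `b + 1`: if `|Bk| ≤ |x|`, cancel `Bk` and use induction; if
  `|x ++ f| ≤ |Bk|` clear; otherwise `f = f1 ++ f2` with `x ++ f1 = Bk` and `f2` a prefix of
  `rep Bk b ++ β`.
  In the same way with `α` in front: `|f| ≤ |α| + |α'| + 2 |Bk|`. Hence
  `a a ≤ f.count i ≤ |f| ≤ |α| + |α'| + 2 (|A1| + a |A0| + |A2| + |Cw|) ≤
  a (|α| + |α'| + 2 (|A1| + |A0| + |A2| + |Cw|)) < a a`.
-/

namespace LNC

open RCone

private theorem Contr_P {e : ℕ} {Bk : List (Fin e)} {h : ℕ} (hB : ∃ x ∈ Bk, h < (x : ℕ)) (b : ℕ)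
    {β f x' : List (Fin e)} (heq : rep Bk b ++ β = f ++ x') (hf : ∀ y ∈ f, (y : ℕ) ≤ h) :
    f.length ≤ Bk.length + β.length := by
  cases b with
  | zero =>
    rw [rep_zero, List.nil_append] at heq
    have := congrArg List.length heq
    rw [List.length_append] at this
    omega
  | succ b =>
    rw [rep_succ, List.append_assoc, List.append_eq_append_iff] at heq
    rcases heq with ⟨a', h1, -⟩ | ⟨c', h1, -⟩
    · exfalso
      obtain ⟨x, hx, hx2⟩ := hB
      have h2 := hf x (by rw [h1]; exact List.mem_append_left _ hx)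
      omega
    · rw [h1, List.length_append]
      omega

private theorem Contr_R {e : ℕ} {Bk : List (Fin e)} {h : ℕ} (hB : ∃ x ∈ Bk, h < (x : ℕ)) (b : ℕ)
    {α β x f x' : List (Fin e)} (heq : α ++ (rep Bk b ++ β) = x ++ (f ++ x'))
    (hf : ∀ y ∈ f, (y : ℕ) ≤ h)
    (hQ : ∀ a', rep Bk b ++ β = a' ++ (f ++ x') → f.length ≤ 2 * Bk.length + β.length) :
    f.length ≤ α.length + 2 * Bk.length + β.length := by
  rw [List.append_eq_append_iff] at heq
  rcases heq with ⟨a', -, h2⟩ | ⟨c', h1, h2⟩
  · have := hQ a' h2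
    omega
  · have hc : c'.length ≤ α.length := by
      rw [h1, List.length_append]
      omega
    rw [List.append_eq_append_iff] at h2
    rcases h2 with ⟨a'', h3, -⟩ | ⟨f2, h3, h4⟩
    · have : f.length ≤ c'.length := by
        rw [h3, List.length_append]
        omega
      omega
    · have h5 := Contr_P hB b h4 fun y hy => hf y (by rw [h3]; exact List.mem_append_right _ hy)
      rw [h3, List.length_append]
      omega

private theorem Contr_Q {e : ℕ} {Bk : List (Fin e)} {h : ℕ} (hB : ∃ x ∈ Bk, h < (x : ℕ)) (b : ℕ) :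
    ∀ {β x f x' : List (Fin e)}, rep Bk b ++ β = x ++ (f ++ x') → (∀ y ∈ f, (y : ℕ) ≤ h) →
    f.length ≤ 2 * Bk.length + β.length := by
  induction b with
  | zero =>
    intro β x f x' heq hf
    rw [rep_zero, List.nil_append] at heq
    have := congrArg List.length heq
    rw [List.length_append, List.length_append] at this
    omega
  | succ b ih =>
    intro β x f x' heq hf
    rw [rep_succ, List.append_assoc, List.append_eq_append_iff] at heq
    rcases heq with ⟨a', -, h2⟩ | ⟨c', h1, h2⟩
    · exact ih h2 hf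
    · have hc : c'.length ≤ Bk.length := by
        rw [h1, List.length_append]
        omega
      rw [List.append_eq_append_iff] at h2
      rcases h2 with ⟨a'', h3, -⟩ | ⟨f2, h3, h4⟩
      · have : f.length ≤ c'.length := by
          rw [h3, List.length_append]
          omega
        omega
      · have h5 := Contr_P hB b h4 fun y hy => hf y (by rw [h3]; exact List.mem_append_right _ hy)
        rw [h3, List.length_append]
        omega

private theorem Contr_count {e : ℕ} (u : List (Fin e)) (n : ℕ) (i : Fin e) :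
    (rep u n).count i = n * u.count i := by
  induction n with
  | zero => simp
  | succ n ih =>
    rw [rep_succ, List.count_append, ih]
    ring

theorem contr {e : ℕ} (α α' A0 A1 A2 Cw : List (Fin e)) (h : ℕ)
    (h0 : ∀ x ∈ A0, (x : ℕ) ≤ h) (h1 : ∀ x ∈ A1, (x : ℕ) ≤ h) (h2 : ∀ x ∈ A2, (x : ℕ) ≤ h)
    (hC : ∃ x ∈ Cw, h < (x : ℕ)) :
    ∃ K0, ∀ a, K0 ≤ a → ¬ Kill (α ++ rep (A1 ++ rep A0 a ++ A2 ++ Cw) a ++ α') (a * a) := by
  refine ⟨α.length + α'.length + 2 * (A0.length + A1.length + A2.length + Cw.length) + 1,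
    fun a ha => ?_⟩
  rintro ⟨i, x, f, x', heq, hfi, hcnt⟩
  set Bk := A1 ++ rep A0 a ++ A2 ++ Cw with hBk
  have hB : ∃ x ∈ Bk, h < (x : ℕ) := by
    obtain ⟨y, hy, hy2⟩ := hC
    exact ⟨y, by rw [hBk]; exact List.mem_append_right _ hy, hy2⟩
  have hlen : Bk.length = A1.length + a * A0.length + A2.length + Cw.length := by
    rw [hBk, List.length_append, List.length_append, List.length_append, length_rep]
  rcases Nat.lt_or_ge h (i : ℕ) with hi | hi
  · have hz : ∀ w : List (Fin e), (∀ x ∈ w, (x : ℕ) ≤ h) → w.count i = 0 := by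
      intro w hw
      rw [List.count_eq_zero]
      intro hm
      have := hw i hm
      omega
    have e1 : Bk.count i = Cw.count i := by
      rw [hBk, List.count_append, List.count_append, List.count_append, Contr_count, hz A1 h1,
        hz A0 h0, hz A2 h2]
      simp
    have e2 := congrArg (List.count i) heq
    rw [List.count_append, List.count_append, List.count_append, List.count_append, Contr_count,
      e1] at e2
    have e3 : α.count i ≤ α.length := List.count_le_length
    have e4 : α'.count i ≤ α'.length := List.count_le_length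
    have e5 : a * Cw.count i ≤ a * Cw.length := Nat.mul_le_mul_left a List.count_le_length
    have e6 : a * a ≤ α.length + a * Cw.length + α'.length := by omega
    nlinarith
  · have hf : ∀ y ∈ f, (y : ℕ) ≤ h := fun y hy => (Fin.le_def.1 (hfi y hy)).trans hi
    rw [List.append_assoc, List.append_assoc] at heq
    have e1 := Contr_R hB a heq hf fun a' h' => Contr_Q hB a h' hf
    have e2 : f.count i ≤ f.length := List.count_le_length
    rw [hlen] at e1
    have e3 : a * a ≤ α.length + 2 * (A1.length + a * A0.length + A2.length + Cw.length) +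
        α'.length := by omega
    nlinarith

end LNC
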