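import Pool.Agent.LNC.LDcore

/-!
# LNC, module LD: the loop data of a level (assembly)
-/

namespace LNC

open RCone

variable {e : ℕ} {Q S Γ : Type}

/-- the pattern word in the form of `OffEq`, `OffLe` -/
theorem pat_form (βl βr nl nr ℓ h V G mm mr : List Γ) (T r s : ℕ) :
    pat βl βr nl nr ℓ h G mm mr (rep V r) T T s =
      ℓ ++ rep V r ++ (mm ++ rep βl T ++ nl ++ (mr ++ rep βr T ++ nr).reverse) ++
        rep G.reverse s ++ h.reverse := by
  simp only [pat, List.reverse_append, rep_reverse, List.append_assoc]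

theorem loopData_eq [Fintype Q] [Fintype S] (C : Ctx e meq Q S Γ) {mr' j : ℕ}
    {cb cβ cf c : Conf Q S} {βl βr nl nr ℓ h V G mm mr : List Γ}
    (B : BetaData C cβ cf βl βr nl nr) (L : Lev C mr' j cb cβ βl nl nr c ℓ h V G mm mr)
    (hoff : OffEq C.mem) : Nonempty (LoopData C c.2.1 V (piW C βl βr)) := by
  obtain ⟨⟨-, hσ, -⟩, -, ⟨a, ha, -⟩, -, hpV, hgG, -, hpG⟩ := Nest.nw C L.nest
  have hg : 1 ≤ (gl C.out V).length := List.length_pos_of_mem ha
  obtain ⟨a0, hcnt⟩ := pat_cnt C B L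
  set T := Fintype.card (Conf Q S) * (ℓ.length + V.length + ((gl C.out mm).length +
      (gl C.out nl).length + (gl C.out nr).length) + 2) with hT
  obtain ⟨r, s, hrs, hmem⟩ := hoff ℓ V (mm ++ rep βl T ++ nl ++ (mr ++ rep βr T ++ nr).reverse)
    G.reverse h.reverse (fun r => by
      rw [← pat_form]
      exact pat_mem C B L T r)
  rw [← pat_form] at hmem
  obtain ⟨m, n', x0, x1, x2, y0, y2, Y, w, q, qf, p0, t, k, r1, r2, t0, f1, f2, f3, f4, f5, f6, f7,
    f8, f9, f10, f11, f12, f13, f14, f15, f16, f17⟩ := ldcore C meq_ok B L (le_of_eq hT.symm) hmem (by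
      rw [(hcnt r T T s).1, (hcnt r T T s).2]
      intro h'
      have h2 : r * (gl C.out V).length = s * (gl C.out V).length := by
        unfold meq at h'
        omega
      exact hrs (Nat.eq_of_mul_eq_mul_right (by omega) h2))
  refine ⟨⟨ℓ, m, fun _ => (h ++ rep G s ++ n').reverse, q, qf, p0, t, k, r1, r2, t0, x0, x1, x2, y0,
    y2, Y, w, f2, f3, fun _ => by rw [List.reverse_reverse]; exact f4, f5, f6, f7, f8, f9, f10, f11,
    f12, f13, hσ, hpV, fun v i _ hv => f14 v i s hv, f15, f16, fun _ => ?_, ?_⟩⟩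
  · rw [gl_reverse, gl_append, gl_append, gl_rep, L.glh, hgG, f17]
    simp
  · refine ⟨pc C.out ℓ + pc C.out m + pc C.out (h ++ rep G s ++ n').reverse + 1, fun N hN => ⟨0, ?_⟩⟩
    unfold meq
    omega

theorem loopData_le [Fintype Q] [Fintype S] (C : Ctx e mle Q S Γ) {mr' j : ℕ}
    {cb cβ cf c : Conf Q S} {βl βr nl nr ℓ h V G mm mr : List Γ}
    (B : BetaData C cβ cf βl βr nl nr) (L : Lev C mr' j cb cβ βl nl nr c ℓ h V G mm mr)
    (hoff : OffLe C.mem) : Nonempty (LoopData C c.2.1 V (piW C βl βr)) := by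
  obtain ⟨⟨-, hσ, -⟩, -, ⟨a, ha, -⟩, -, hpV, hgG, -, hpG⟩ := Nest.nw C L.nest
  have hg : 1 ≤ (gl C.out V).length := List.length_pos_of_mem ha
  obtain ⟨a0, hcnt⟩ := pat_cnt C B L
  set T := Fintype.card (Conf Q S) * (ℓ.length + V.length + ((gl C.out mm).length +
      (gl C.out nl).length + (gl C.out nr).length) + 2) with hT
  obtain ⟨r, hr⟩ := hoff ℓ V (mm ++ rep βl T ++ nl ++ (mr ++ rep βr T ++ nr).reverse)
    G.reverse h.reverse (fun r => by
      rw [← pat_form]
      exact pat_mem C B L T r)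
  obtain ⟨s, hs, hmem⟩ := hr (r + 1 + Fintype.card Q * (ℓ.length + r * V.length + 1))
  rw [← pat_form] at hmem
  obtain ⟨m, n', x0, x1, x2, y0, y2, Y, w, q, qf, p0, t, k, r1, r2, t0, f1, f2, f3, f4, f5, f6, f7,
    f8, f9, f10, f11, f12, f13, f14, f15, f16, f17⟩ := ldcore C mle_ok B L (le_of_eq hT.symm) hmem (by
      rw [(hcnt r T T s).1, (hcnt r T T s).2]
      intro h'
      have h2 : s * (gl C.out V).length ≤ r * (gl C.out V).length := by
        unfold mle at h'
        omega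
      have h3 := Nat.le_of_mul_le_mul_right h2 (by omega)
      omega)
  obtain ⟨kk, hkk, hloop⟩ := C.SR.gloop (x := x0) (h := h) (G := G) (n' := n') (s := s)
    (by
      have : Fintype.card Q * (x0.length + 1) ≤ Fintype.card Q * (ℓ.length + r * V.length + 1) :=
        Nat.mul_le_mul le_rfl (by omega)
      omega) f4
  refine ⟨⟨ℓ, m, fun l => (h ++ rep G (s + kk * l) ++ n').reverse, q, qf, p0, t, k, r1, r2, t0, x0,
    x1, x2, y0, y2, Y, w, f2, f3, fun l => by rw [List.reverse_reverse]; exact hloop l, f5, f6, f7,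
    f8, f9, f10, f11, f12, f13, hσ, hpV, fun v i l hv => f14 v i (s + kk * l) hv, f15, f16,
    fun l => ?_, ?_⟩⟩
  · rw [gl_reverse, gl_append, gl_append, gl_rep, L.glh, hgG, f17]
    simp
  · refine ⟨0, fun N _ => ⟨N + 1, ?_⟩⟩
    unfold mle
    rw [pc_reverse, pc_append, pc_append, pc_rep, hpG]
    have h1 : s + kk * (N + 1) ≤ (s + kk * (N + 1)) * (gl C.out V).length :=
      Nat.le_mul_of_pos_right _ (by omega)
    have h2 : N + 1 ≤ kk * (N + 1) := Nat.le_mul_of_pos_left _ (by omega)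
    omega

end LNC
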