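import Pool.Agent.LNC.SR

/-!
# LNC, module Loop: pigeonhole for loops at prescribed cuts

* `loopL`: take the chain `c 0, …, c m` of `chainL`; `m + 1 > card Q`, so `c i = c j` for some
  `i < j ≤ m` (`Fintype.exists_ne_map_eq_of_card_lt` on `Fin (m+1)`). Use `StepRel.cat` and
  `cat_append`; `η₁ = cat Y 0 i`, `η₂ = cat Y i j`, `η₃ = cat Y j m ++ Yr`.
* `loopR`: the same with `chainR`.
* `loopL_rep`: `loopL` with `X = fun _ => V` and `cat_const`.
* `gloop`: write `rep G s = cat (fun _ => G) 0 s`. First `splitR` (the word `h`), then `chainR` with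
  the remainder `n'`: states `c 0, …, c s`, left words `X i`. Let `pos i = (x_h ++ cat X 0 i).length ≤
  x.length`. The map `i ↦ (c i, pos i)` from `{0, …, s}` to a set with `card Q * (x.length + 1) ≤ s`
  elements is not injective: there are `i < j ≤ s` with `c i = c j` and `pos i = pos j`, so
  `cat X i j = []`, hence `rel (c i) [] (rep G (j - i)) (c i)`. Take `k = j - i` and insert this
  loop `l` times (`StepRel.rep`).
-/

namespace LNC

open RCone

variable {Q Γ : Type}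

private theorem Loop_pigeon {T : Type} [Fintype T] (m : ℕ) (f : ℕ → T) (hm : Fintype.card T ≤ m) :
    ∃ i j, i < j ∧ j ≤ m ∧ f i = f j := by
  have h1 : Fintype.card T < Fintype.card (Fin (m + 1)) := by
    rw [Fintype.card_fin]; omega
  obtain ⟨x, y, hxy, hf⟩ := Fintype.exists_ne_map_eq_of_card_lt (fun k : Fin (m + 1) => f k) h1
  rcases Nat.lt_or_ge x.1 y.1 with h2 | h2
  · exact ⟨x.1, y.1, h2, Nat.lt_succ_iff.mp y.2, hf⟩
  · have h3 : y.1 < x.1 := by
      rcases Nat.lt_or_ge y.1 x.1 with h4 | h4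
      · exact h4
      · exact absurd (Fin.ext (le_antisymm h4 h2)) hxy
    exact ⟨y.1, x.1, h3, Nat.lt_succ_iff.mp x.2, hf.symm⟩

theorem StepRel.loopL [Fintype Q] (SR : StepRel Q Γ) {X : ℕ → List Γ} {m : ℕ} {R : List Γ}
    {q q' : Q} {η : List Γ} (hm : Fintype.card Q ≤ m) (h : SR.rel q (LNC.cat X 0 m ++ R) η q') :
    ∃ (i j : ℕ) (c : Q) (η₁ η₂ η₃ : List Γ), i < j ∧ j ≤ m ∧ η = η₁ ++ η₂ ++ η₃ ∧
      SR.rel q (LNC.cat X 0 i) η₁ c ∧ SR.rel c (LNC.cat X i j) η₂ c ∧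
      SR.rel c (LNC.cat X j m ++ R) η₃ q' := by
  obtain ⟨c, Y, Yr, h0, hη, hst, hlast⟩ := SR.chainL h
  obtain ⟨i, j, hij, hjm, hc⟩ := Loop_pigeon m c hm
  refine ⟨i, j, c i, LNC.cat Y 0 i, LNC.cat Y i j, LNC.cat Y j m ++ Yr, hij, hjm, ?_, ?_, ?_, ?_⟩
  · rw [hη, ← cat_append Y (Nat.zero_le j) hjm, ← cat_append Y (Nat.zero_le i) hij.le,
      List.append_assoc]
  · have h1 := SR.cat hst (Nat.zero_le i) (hij.le.trans hjm)
    rw [h0] at h1
    exact h1
  · have h1 := SR.cat hst hij.le hjm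
    rw [← hc] at h1
    exact h1
  · have h1 := SR.cat hst hjm le_rfl
    rw [← hc] at h1
    exact SR.append h1 hlast

theorem StepRel.loopR [Fintype Q] (SR : StepRel Q Γ) {Y : ℕ → List Γ} {m : ℕ} {R : List Γ}
    {q q' : Q} {ξ : List Γ} (hm : Fintype.card Q ≤ m) (h : SR.rel q ξ (LNC.cat Y 0 m ++ R) q') :
    ∃ (i j : ℕ) (c : Q) (ξ₁ ξ₂ ξ₃ : List Γ), i < j ∧ j ≤ m ∧ ξ = ξ₁ ++ ξ₂ ++ ξ₃ ∧
      SR.rel q ξ₁ (LNC.cat Y 0 i) c ∧ SR.rel c ξ₂ (LNC.cat Y i j) c ∧
      SR.rel c ξ₃ (LNC.cat Y j m ++ R) q' := by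
  obtain ⟨c, X, Xr, h0, hξ, hst, hlast⟩ := SR.chainR h
  obtain ⟨i, j, hij, hjm, hc⟩ := Loop_pigeon m c hm
  refine ⟨i, j, c i, LNC.cat X 0 i, LNC.cat X i j, LNC.cat X j m ++ Xr, hij, hjm, ?_, ?_, ?_, ?_⟩
  · rw [hξ, ← cat_append X (Nat.zero_le j) hjm, ← cat_append X (Nat.zero_le i) hij.le,
      List.append_assoc]
  · have h1 := SR.cat hst (Nat.zero_le i) (hij.le.trans hjm)
    rw [h0] at h1
    exact h1
  · have h1 := SR.cat hst hij.le hjm
    rw [← hc] at h1
    exact h1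
  · have h1 := SR.cat hst hjm le_rfl
    rw [← hc] at h1
    exact SR.append h1 hlast

theorem StepRel.loopL_rep [Fintype Q] (SR : StepRel Q Γ) {V : List Γ} {m : ℕ} {R : List Γ}
    {q q' : Q} {η : List Γ} (hm : Fintype.card Q ≤ m) (h : SR.rel q (RCone.rep V m ++ R) η q') :
    ∃ (i j : ℕ) (c : Q) (η₁ η₂ η₃ : List Γ), i < j ∧ j ≤ m ∧ η = η₁ ++ η₂ ++ η₃ ∧
      SR.rel q (RCone.rep V i) η₁ c ∧ SR.rel c (RCone.rep V (j - i)) η₂ c ∧
      SR.rel c (RCone.rep V (m - j) ++ R) η₃ q' := by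
  have h1 : SR.rel q (LNC.cat (fun _ => V) 0 m ++ R) η q' := by
    rw [cat_const, Nat.sub_zero]; exact h
  obtain ⟨i, j, c, η₁, η₂, η₃, hij, hjm, hη, a1, a2, a3⟩ := SR.loopL hm h1
  rw [cat_const, Nat.sub_zero] at a1
  rw [cat_const] at a2 a3
  exact ⟨i, j, c, η₁, η₂, η₃, hij, hjm, hη, a1, a2, a3⟩

theorem StepRel.gloop [Fintype Q] (SR : StepRel Q Γ) {x h G n' : List Γ} {s : ℕ} {q p : Q}
    (hs : Fintype.card Q * (x.length + 1) ≤ s)
    (hr : SR.rel q x (h ++ RCone.rep G s ++ n') p) :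
    ∃ k, 1 ≤ k ∧ ∀ l, SR.rel q x (h ++ RCone.rep G (s + k * l) ++ n') p := by
  rw [List.append_assoc] at hr
  obtain ⟨xh, x2, q1, hx, r1, r2⟩ := SR.splitR hr
  have r2' : SR.rel q1 x2 (LNC.cat (fun _ => G) 0 s ++ n') p := by
    rw [cat_const, Nat.sub_zero]; exact r2
  obtain ⟨c, X, Xr, h0, hx2, hst, hlast⟩ := SR.chainR r2'
  have hpos : ∀ i, i ≤ s → (LNC.cat X 0 i).length < x.length + 1 := by
    intro i hi
    rw [hx, hx2, ← cat_append X (Nat.zero_le i) hi]
    simp only [List.length_append]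
    omega
  obtain ⟨i, j, hij, hjs, hf⟩ := Loop_pigeon (T := Q × Fin (x.length + 1)) s
    (fun i => (c i, Fin.ofNat (x.length + 1) (LNC.cat X 0 i).length))
    (by rw [Fintype.card_prod, Fintype.card_fin]; exact hs)
  have hc : c i = c j := congrArg Prod.fst hf
  have hp : (LNC.cat X 0 i).length = (LNC.cat X 0 j).length := by
    have h1 := congrArg (fun z => (Prod.snd z).val) hf
    simp only [Fin.ofNat] at h1
    rw [Nat.mod_eq_of_lt (hpos i (hij.le.trans hjs)), Nat.mod_eq_of_lt (hpos j hjs)] at h1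
    exact h1
  have hnil : LNC.cat X i j = [] := by
    have h1 := congrArg List.length (cat_append X (Nat.zero_le i) hij.le)
    rw [List.length_append, hp] at h1
    exact List.length_eq_zero_iff.mp (by omega)
  have hloop : SR.rel (c i) [] (RCone.rep G (j - i)) (c i) := by
    have h1 := SR.cat hst hij.le hjs
    rw [hnil, cat_const, ← hc] at h1
    exact h1
  refine ⟨j - i, by omega, fun l => ?_⟩
  have hl : SR.rel (c i) [] (RCone.rep G ((j - i) * l)) (c i) := by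
    have h1 := SR.rep hloop l
    rw [rep_nil, rep_rep] at h1
    exact h1
  have ha : SR.rel (c 0) (LNC.cat X 0 i) (RCone.rep G i) (c i) := by
    have h1 := SR.cat hst (Nat.zero_le i) (hij.le.trans hjs)
    rw [cat_const, Nat.sub_zero] at h1
    exact h1
  have hb : SR.rel (c i) (LNC.cat X i s) (RCone.rep G (s - i)) (c s) := by
    have h1 := SR.cat hst (hij.le.trans hjs) le_rfl
    rw [cat_const] at h1
    exact h1
  rw [h0] at ha
  have htot := SR.append r1 (SR.append ha (SR.append hl (SR.append hb hlast)))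
  have e1 : xh ++ (LNC.cat X 0 i ++ ([] ++ (LNC.cat X i s ++ Xr))) = x := by
    rw [hx, hx2, ← cat_append X (Nat.zero_le i) (hij.le.trans hjs)]
    simp only [List.nil_append, List.append_assoc]
  have e2 : h ++ (RCone.rep G i ++ (RCone.rep G ((j - i) * l) ++ (RCone.rep G (s - i) ++ n'))) =
      h ++ RCone.rep G (s + (j - i) * l) ++ n' := by
    have h1 : s + (j - i) * l = i + ((j - i) * l + (s - i)) := by omega
    rw [h1, rep_add, rep_add]
    simp only [List.append_assoc]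
  rw [e1, e2] at htot
  exact htot

end LNC
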