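import Pool.Agent.LNC.Cnt
import Pool.Agent.LNC.Loop

/-!
# LNC, module Desc: descent of a left loop to the innermost level

A left-only loop `(V^k | ε)` at the state `d`, where `V` is a nested word of level `i` (each level
contains `m ≥ card Q` copies of the next one), leads to a state `b` and left words `Dn : d → b`,
`Up : b → d` (with empty right words) such that `M` goes from `σ` to the innermost state `σ0` with `Dn`,
and back with `Up`.

Proof by induction on `i`. `i = 0`: `σ = σ0`, `b = d`, `Dn = Up = []` (`SR.nil`).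
`i + 1`: `V = X ++ rep V' m ++ Z`, `rep V k = X ++ (rep V' m ++ (Z ++ rep V (k-1)))`. `splitL`: since the
right word is `[]`, all its parts are `[]`: `rel d X [] d'`, `rel d' (rep V' m ++ R) [] d` with
`R = Z ++ rep V (k-1)`. `StepRel.loopL_rep`: `i' < j' ≤ m`, a state `d₁`, `rel d' (rep V' i') [] d₁`,
`rel d₁ (rep V' (j' - i')) [] d₁`, `rel d₁ (rep V' (m - j') ++ R) [] d`. The induction hypothesis for
`V'`, `d₁`, `k = j' - i'` gives `b`, `Dn'`, `Up'`. Take `Dn = X ++ rep V' i' ++ Dn'`,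
`Up = Up' ++ (rep V' (m - j') ++ Z ++ rep V (k-1))`. `M`: `σ → σ'` by `X`, `σ' → σ'` by `V'`
(the first part of `LNest`), `σ' → σ` by `Z`, `σ → σ` by `V`. The letters of `gl X`, `gl Z`, `gl V'` are
`≤ i + 1` since those of `gl V` are (for `gl V'`: `≤ i`); `yb`, `pc` of `X, Z` vanish.
(If `m = 0` then `card Q = 0`, impossible because `d : Q`; so `V'` may be assumed to satisfy the
properties from `LNest`.)
-/

namespace LNC

open RCone

variable {e : ℕ} {Q S Γ : Type}

private theorem Desc_eval {Γ S : Type} (M : DFA Γ S) {s : S} {u : List Γ}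
    (h : M.evalFrom s u = s) (n : ℕ) : M.evalFrom s (rep u n) = s := by
  induction n with
  | zero => rfl
  | succ n ih => rw [rep_succ, evalFrom_append', h, ih]

private theorem Desc_basic {out : Γ → Option (Al e)} {M : DFA Γ S} {m : ℕ} {σ0 : S} {i : ℕ} {σ : S}
    {V : List Γ} (h : LNest out M m σ0 i σ V) : M.evalFrom σ V = σ ∧
      (∀ a ∈ gl out V, (a : ℕ) ≤ i) ∧ yb out V = 0 ∧ pc out V = 0 := by
  cases i with
  | zero => exact ⟨h.2.1, h.2.2.1, h.2.2.2.2.1, h.2.2.2.2.2⟩
  | succ i => exact ⟨h.1.1, h.1.2.1, h.1.2.2.2.1, h.1.2.2.2.2⟩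

theorem descent [Fintype Q] (SR : StepRel Q Γ) (out : Γ → Option (Al e)) (M : DFA Γ S) {m : ℕ}
    (hm : Fintype.card Q ≤ m) {σ0 : S} : ∀ (i : ℕ) (σ : S) (V : List Γ),
    LNest out M m σ0 i σ V → ∀ (d : Q) (k : ℕ), 1 ≤ k → SR.rel d (rep V k) [] d →
    ∃ (b : Q) (Dn Up : List Γ), SR.rel d Dn [] b ∧ SR.rel b Up [] d ∧ M.evalFrom σ Dn = σ0 ∧
      M.evalFrom σ0 Up = σ ∧ (∀ a ∈ gl out Dn, (a : ℕ) ≤ i) ∧ (∀ a ∈ gl out Up, (a : ℕ) ≤ i) ∧
      yb out Dn = 0 ∧ yb out Up = 0 ∧ pc out Dn = 0 ∧ pc out Up = 0 := by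
  intro i
  induction i with
  | zero =>
    intro σ V hN d k _ _
    refine ⟨d, [], [], SR.nil d, SR.nil d, hN.1, hN.1.symm, ?_, ?_, rfl, rfl, rfl, rfl⟩
    · intro a ha
      simp at ha
    · intro a ha
      simp at ha
  | succ i ih =>
    intro σ V hN d k hk hr
    obtain ⟨⟨hσ, hle, -, hyV, hpV⟩, σ', X, V', Z, hV, hX, hZ, hN'⟩ := hN
    obtain ⟨k', rfl⟩ : ∃ k', k = k' + 1 := ⟨k - 1, by omega⟩
    obtain ⟨b1, b2, b3, b4⟩ := Desc_basic hN'
    have e1 : rep V (k' + 1) = X ++ (rep V' m ++ (Z ++ rep V k')) := by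
      rw [rep_succ]
      conv_lhs =>
        arg 1
        rw [hV]
      simp only [List.append_assoc]
    rw [e1] at hr
    obtain ⟨η₁, η₂, d', h0, r1, r2⟩ := SR.splitL hr
    obtain ⟨h01, h02⟩ := List.append_eq_nil_iff.1 h0.symm
    subst h01 h02
    obtain ⟨i', j', c, η₁, η₂, η₃, hij, hj, h0, r3, r4, r5⟩ := SR.loopL_rep hm r2
    obtain ⟨h01, h03⟩ := List.append_eq_nil_iff.1 h0.symm
    obtain ⟨h01, h02⟩ := List.append_eq_nil_iff.1 h01
    subst h01 h02 h03
    obtain ⟨b, Dn', Up', s1, s2, s3, s4, s5, s6, s7, s8, s9, s10⟩ :=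
      ih σ' V' hN' c (j' - i') (by omega) r4
    have hgV : gl out V = gl out X ++ rep (gl out V') m ++ gl out Z := by
      rw [hV, gl_append, gl_append, gl_rep]
    have hgX : ∀ a ∈ gl out X, (a : ℕ) ≤ i + 1 := fun a ha => hle a (by
      rw [hgV]
      exact List.mem_append_left _ (List.mem_append_left _ ha))
    have hgZ : ∀ a ∈ gl out Z, (a : ℕ) ≤ i + 1 := fun a ha => hle a (by
      rw [hgV]
      exact List.mem_append_right _ ha)
    have hgr : ∀ n, ∀ a ∈ rep (gl out V') n, (a : ℕ) ≤ i + 1 := fun n a ha =>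
      (b2 a (mem_of_mem_rep ha)).trans (Nat.le_succ i)
    have hgrV : ∀ n, ∀ a ∈ rep (gl out V) n, (a : ℕ) ≤ i + 1 := fun n a ha =>
      hle a (mem_of_mem_rep ha)
    have hy : yb out X = 0 ∧ yb out Z = 0 := by
      rw [hV, yb_append, yb_append] at hyV
      constructor <;> omega
    have hp : pc out X = 0 ∧ pc out Z = 0 := by
      rw [hV, pc_append, pc_append] at hpV
      constructor <;> omega
    refine ⟨b, X ++ rep V' i' ++ Dn', Up' ++ (rep V' (m - j') ++ (Z ++ rep V k')), ?_, ?_, ?_, ?_,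
      ?_, ?_, ?_, ?_, ?_, ?_⟩
    · exact SR.append (SR.append r1 r3) s1
    · exact SR.append s2 r5
    · rw [evalFrom_append', evalFrom_append', hX, Desc_eval M b1, s3]
    · rw [evalFrom_append', evalFrom_append', evalFrom_append', s4, Desc_eval M b1, hZ,
        Desc_eval M hσ]
    · intro a ha
      rw [gl_append, gl_append, gl_rep, List.mem_append, List.mem_append] at ha
      rcases ha with (ha | ha) | ha
      · exact hgX a ha
      · exact hgr _ a ha
      · exact (s5 a ha).trans (Nat.le_succ i)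
    · intro a ha
      rw [gl_append, gl_append, gl_append, gl_rep, gl_rep, List.mem_append, List.mem_append,
        List.mem_append] at ha
      rcases ha with ha | ha | ha | ha
      · exact (s6 a ha).trans (Nat.le_succ i)
      · exact hgr _ a ha
      · exact hgZ a ha
      · exact hgrV _ a ha
    · rw [yb_append, yb_append, yb_rep, hy.1, b3, s7]
      simp
    · rw [yb_append, yb_append, yb_append, yb_rep, yb_rep, hy.2, b3, s8, hyV]
      simp
    · rw [pc_append, pc_append, pc_rep, hp.1, b4, s9]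
      simp
    · rw [pc_append, pc_append, pc_append, pc_rep, pc_rep, hp.2, b4, s10, hpV]
      simp

end LNC
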