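import Pool.Agent.LNC.PerL
import Pool.Agent.LNC.Loop

/-!
# LNC, module Inner: the inner loop

Proof. Apply `StepRel.splitL` and `StepRel.loopL_rep` to the step relation `SR.per π` (module PerL) with
the states `Q × Fin π.length` (`card = card Q * π.length ≤ m`): `rep V k = X ++ (rep V' m ++ R)` with
`R = Z ++ rep V (k-1)`; the start and the end are `(q, t)` (`t < π.length` by `hp`). The parts of
`(SR.per π).rel` are the wanted relations; `w1` is the right word of `X` together with the right word of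
`rep V' i` (`Per.append`).
-/

namespace LNC

open RCone

variable {Q Γ : Type}

theorem inner [Fintype Q] (SR : StepRel Q Γ) {π V V' X Z w : List Γ} {m k t : ℕ} {q : Q}
    (hV : V = X ++ rep V' m ++ Z) (hk : 1 ≤ k) (hm : Fintype.card Q * π.length ≤ m)
    (h : SR.rel q (rep V k) w q) (hp : Per π t w t) :
    ∃ (d : Q) (t' i j : ℕ) (w1 w2 w3 : List Γ), i < j ∧ j ≤ m ∧ w = w1 ++ w2 ++ w3 ∧
      SR.rel q (X ++ rep V' i) w1 d ∧ SR.rel d (rep V' (j - i)) w2 d ∧
      SR.rel d (rep V' (m - j) ++ Z ++ rep V (k - 1)) w3 q ∧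
      Per π t w1 t' ∧ Per π t' w2 t' ∧ Per π t' w3 t := by
  have ht : t < π.length := hp.1
  have hcard : Fintype.card (Q × Fin π.length) ≤ m := by
    rw [Fintype.card_prod, Fintype.card_fin]
    exact hm
  obtain ⟨k', rfl⟩ : ∃ k', k = k' + 1 := ⟨k - 1, by omega⟩
  have e1 : rep V (k' + 1) = X ++ (rep V' m ++ (Z ++ rep V k')) := by
    have e2 : V ++ rep V k' = (X ++ rep V' m ++ Z) ++ rep V k' := by
      conv_lhs => rw [hV]
      rw [← hV]
    rw [rep_succ, e2]
    simp only [List.append_assoc]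
  have h1 : (SR.per π).rel (q, ⟨t, ht⟩) (X ++ (rep V' m ++ (Z ++ rep V k'))) w (q, ⟨t, ht⟩) := by
    rw [← e1]
    exact ⟨h, hp⟩
  obtain ⟨η₁, η₂, c₁, rfl, h2, h3⟩ := (SR.per π).splitL h1
  obtain ⟨i, j, c, a₁, a₂, a₃, hij, hjm, rfl, h4, h5, h6⟩ := (SR.per π).loopL_rep hcard h3
  refine ⟨c.1, c.2, i, j, η₁ ++ a₁, a₂, a₃, hij, hjm, by simp only [List.append_assoc], ?_, h5.1,
    ?_, ?_, h5.2, h6.2⟩
  · exact SR.append h2.1 h4.1
  · rw [Nat.add_sub_cancel, List.append_assoc]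
    exact h6.1
  · exact h2.2.append h4.2

end LNC
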