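import Pool.Agent.LNC.Fin
import Pool.Agent.LNC.Desc
import Pool.Agent.LNC.Inner

/-!
# LNC, module Step3: the contradiction (assembly)
-/

namespace LNC

open RCone

variable {e : ℕ} {main : ℕ → ℕ → Prop} {Q S Γ : Type} (C : Ctx e main Q S Γ)

/-- the data at the innermost level -/
def Bot (σ0 : S) {σ : S} {V π : List Γ} (L : LoopData C σ V π) (j : ℕ) (b : Q) : Prop :=
  ∃ (t' : ℕ) (E E' wE wE' Cr : List Γ), C.SR.rel L.q E wE b ∧ Per π L.t wE t' ∧
    C.SR.rel b E' wE' L.q ∧ Per π t' wE' L.t ∧ C.SR.rel b Cr [] b ∧ C.M.evalFrom σ E = σ0 ∧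
    C.M.evalFrom σ0 E' = σ ∧ C.M.evalFrom σ0 Cr = σ0 ∧ (∀ x ∈ gl C.out E, (x : ℕ) ≤ j) ∧
    (∀ x ∈ gl C.out E', (x : ℕ) ≤ j) ∧ (∃ x ∈ gl C.out Cr, (x : ℕ) = j - 1) ∧
    pc C.out E = 0 ∧ pc C.out E' = 0 ∧ pc C.out Cr = 0

theorem evalFrom_rep' {M : DFA Γ S} {s : S} {u : List Γ} (h : M.evalFrom s u = s) (n : ℕ) :
    M.evalFrom s (rep u n) = s := by
  induction n with
  | zero => simp
  | succ n ih => rw [rep_succ, evalFrom_append', h, ih]

theorem LNest.base {out : Γ → Option (Al e)} {M : DFA Γ S} {m : ℕ} {σ0 σ : S} {i : ℕ}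
    {V : List Γ} (h : LNest out M m σ0 i σ V) :
    M.evalFrom σ V = σ ∧ (∀ a ∈ gl out V, (a : ℕ) ≤ i) ∧ (∃ a ∈ gl out V, (a : ℕ) = i) ∧
      yb out V = 0 ∧ pc out V = 0 := by
  cases i with
  | zero => exact h.2
  | succ i => exact h.1

theorem bot [Fintype Q] {m : ℕ} {σ0 σ : S} {V π : List Γ} {j : ℕ}
    (hV : LNest C.out C.M m σ0 (j + 1) σ V) (L : LoopData C σ V π)
    (hm : Fintype.card Q * π.length ≤ m) : ∃ b, Bot C σ0 L (j + 1) b := by
  obtain ⟨⟨hσ, hle, ⟨x, hx, hxj⟩, hyV, hpV⟩, σ', X, V', Z, hVe, hX, hZ, hV'⟩ := hV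
  obtain ⟨hσ', hle', ⟨x', hx', hxj'⟩, hyV', hpV'⟩ := hV'.base
  obtain ⟨d, t', i, i', w1, w2, w3, hii, him, hw, r1, r2, r3, q1, q2, q3⟩ :=
    inner C.SR hVe L.hk hm L.h2 L.per2
  have hπ : 0 < π.length := lt_of_le_of_lt (Nat.zero_le _) L.per2.1
  have hcard : Fintype.card Q ≤ m :=
    (Nat.le_mul_of_pos_right _ hπ).trans hm
  have hm1 : 1 ≤ m := by omega
  -- the letters of `X` and `Z`
  have hXZ : (∀ a ∈ gl C.out X, (a : ℕ) ≤ j + 1) ∧ (∀ a ∈ gl C.out Z, (a : ℕ) ≤ j + 1) ∧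
      (∃ a, (a ∈ gl C.out X ∨ a ∈ gl C.out Z) ∧ (a : ℕ) = j + 1) := by
    rw [hVe, gl_append, gl_append] at hle hx
    refine ⟨fun a ha => hle a (by simp [ha]), fun a ha => hle a (by simp [ha]), ⟨x, ?_, hxj⟩⟩
    simp only [List.mem_append] at hx
    rcases hx with (hx | hx) | hx
    · exact Or.inl hx
    · rw [gl_rep] at hx
      have := hle' x (mem_of_mem_rep hx)
      omega
    · exact Or.inr hx
  have hpXZ : pc C.out X = 0 ∧ pc C.out Z = 0 := by
    rw [hVe, pc_append, pc_append] at hpV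
    omega
  have mXi : C.M.evalFrom σ (X ++ rep V' i) = σ' := by
    rw [evalFrom_append', hX, evalFrom_rep' hσ']
  have mR : C.M.evalFrom σ' (rep V' (m - i') ++ Z ++ rep V (L.k - 1)) = σ := by
    rw [evalFrom_append', evalFrom_append', evalFrom_rep' hσ', hZ, evalFrom_rep' hσ]
  have pcR : pc C.out (rep V' (m - i') ++ Z ++ rep V (L.k - 1)) = 0 := by
    simp [hpXZ, hpV, hpV']
  have pcXi : pc C.out (X ++ rep V' i) = 0 := by
    simp [hpXZ, hpV']
  by_cases hy : 1 ≤ yb C.out w2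
  · -- the product contradiction
    exfalso
    refine fin' C L (c := d) (t' := t') (hh := j) (τ := σ') (τ1 := σ')
      (E := X ++ rep V' i) (E' := rep V' (m - i') ++ Z ++ rep V (L.k - 1))
      (A0 := rep V' (i' - i)) (A1 := []) (A2 := [])
      (Cw := (rep V' (m - i') ++ Z ++ rep V (L.k - 1)) ++ (X ++ rep V' i))
      (wE := w1) (wE' := w3) (wC := w3 ++ w1) r1 q1 ?_ (C.SR.append r3 r1) (q3.append q1)
      r3 q3 mXi rfl (evalFrom_rep' hσ' _) rfl ?_ mR ?_ (by simp) (by simp) ?_ ?_ rfl rfl ?_ pcXi pcR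
    · intro a
      refine ⟨rep w2 a, ?_, q2.rep a, ?_⟩
      · simpa using C.SR.rep r2 a
      · rw [yb_rep]
        exact Nat.le_mul_of_pos_right _ (by omega)
    · rw [evalFrom_append', mR, mXi]
    · intro y hy
      rw [gl_rep] at hy
      exact hle' y (mem_of_mem_rep hy)
    · obtain ⟨a, ha, haj⟩ := hXZ.2.2
      refine ⟨a, ?_, by omega⟩
      simp only [gl_append, List.mem_append]
      tauto
    · simp [hpV']
    · simp [hpXZ, hpV, hpV']
  · -- the loop is a left loop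
    obtain ⟨cc, hlen, hcnt⟩ := q2.loop
    have hπy : 1 ≤ yb C.out π := by
      obtain ⟨c2, -, hc2⟩ := L.per2.loop
      have h1 := hc2 (fun a => decide (C.out a = some (Sum.inr false)))
      have h2 := L.yw
      rw [yb, h1] at h2
      rw [yb]
      by_contra h3
      rw [Nat.lt_one_iff.1 (not_le.1 h3)] at h2
      simp at h2
    have hcc : cc = 0 := by
      have h1 := hcnt (fun a => decide (C.out a = some (Sum.inr false)))
      rw [← yb, ← yb] at h1
      rcases Nat.eq_zero_or_pos cc with h | h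
      · exact h
      · have : 1 ≤ cc * yb C.out π := Nat.mul_pos h hπy
        omega
    have hw2 : w2 = [] := by
      rw [hcc, Nat.zero_mul] at hlen
      exact List.length_eq_zero_iff.1 hlen
    subst hw2
    obtain ⟨b, Dn, Up, s1, s2, s3, s4, s5, s6, s7, s8, s9, s10⟩ := descent C.SR C.out C.M hcard j σ'
      V' hV' d (i' - i) (by omega) r2
    have hr : ∀ a ∈ gl C.out (rep V' (m - i') ++ Z ++ rep V (L.k - 1)), (a : ℕ) ≤ j + 1 := by
      intro a ha
      simp only [gl_append, List.mem_append, gl_rep] at ha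
      rcases ha with (ha | ha) | ha
      · exact (hle' a (mem_of_mem_rep ha)).trans (by omega)
      · exact hXZ.2.1 a ha
      · exact hle a (mem_of_mem_rep ha)
    have hr' : ∀ a ∈ gl C.out (X ++ rep V' i), (a : ℕ) ≤ j + 1 := by
      intro a ha
      simp only [gl_append, List.mem_append, gl_rep] at ha
      rcases ha with ha | ha
      · exact hXZ.1 a ha
      · exact (hle' a (mem_of_mem_rep ha)).trans (by omega)
    refine ⟨b, t', (X ++ rep V' i) ++ Dn, Up ++ (rep V' (m - i') ++ Z ++ rep V (L.k - 1)), w1, w3,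
      Up ++ rep V' (i' - i) ++ Dn, ?_, q1, ?_, q3, ?_, ?_, ?_, ?_, ?_, ?_, ?_, ?_, ?_, ?_⟩
    · simpa using C.SR.append r1 s1
    · simpa using C.SR.append s2 r3
    · simpa using C.SR.append (C.SR.append s2 r2) s1
    · rw [evalFrom_append', mXi, s3]
    · rw [evalFrom_append', s4, mR]
    · rw [evalFrom_append', evalFrom_append', s4, evalFrom_rep' hσ', s3]
    · intro a ha
      rw [gl_append, List.mem_append] at ha
      rcases ha with ha | ha
      · exact hr' a ha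
      · exact (s5 a ha).trans (by omega)
    · intro a ha
      rw [gl_append, List.mem_append] at ha
      rcases ha with ha | ha
      · exact (s6 a ha).trans (by omega)
      · exact hr a ha
    · refine ⟨x', ?_, by omega⟩
      obtain ⟨r, hr⟩ : ∃ r, i' - i = r + 1 := ⟨i' - i - 1, by omega⟩
      rw [hr, rep_succ]
      simp [hx']
    · rw [pc_append, pcXi, s9]
    · rw [pc_append, pcR, s10]
    · simp [s9, s10, hpV']

theorem step3 [Fintype Q] {m : ℕ} {σ0 : S} {π : List Γ} (he : 2 * Fintype.card Q + 2 ≤ e)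
    (hm : Fintype.card Q * π.length ≤ m)
    (D : ∀ j, 1 ≤ j → j < e → ∃ (σ : S) (V : List Γ), LNest C.out C.M m σ0 j σ V ∧
      Nonempty (LoopData C σ V π)) : False := by
  classical
  have : Nonempty S := ⟨σ0⟩
  choose! σ V hL hN using D
  have hbot : ∀ a : Fin (Fintype.card Q + 1), ∃ (b : Q)
      (L : LoopData C (σ (2 * a + 1)) (V (2 * a + 1)) π), Bot C σ0 L (2 * a + 1) b := by
    intro a
    have ha : 2 * (a : ℕ) + 1 < e := by
      have := a.2
      omega
    obtain ⟨L⟩ := hN (2 * a + 1) (by omega) ha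
    obtain ⟨b, hb⟩ := bot C (hL (2 * a + 1) (by omega) ha) L hm
    exact ⟨b, L, hb⟩
  choose b L hb using hbot
  obtain ⟨a, a', haa, hbb⟩ : ∃ a a' : Fin (Fintype.card Q + 1), a ≠ a' ∧ b a = b a' := by
    by_contra hcon
    push Not at hcon
    have := Fintype.card_le_of_injective b (fun x y hxy => by
      by_contra hne
      exact hcon x y hne hxy)
    simp at this
  wlog hlt : a < a' generalizing a a'
  · exact this a' a haa.symm hbb.symm (lt_of_le_of_ne (not_lt.1 hlt) haa.symm)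
  obtain ⟨t, E, E', wE, wE', Cr, b1, b2, b3, b4, b5, b6, b7, b8, b9, b10, ⟨x, hx, hx'⟩, b12, b13,
    b14⟩ := hb a
  obtain ⟨t', F, F', wF, wF', Cr', c1, c2, c3, c4, c5, c6, c7, c8, c9, c10, ⟨x', hx1, hx1'⟩, c12,
    c13, c14⟩ := hb a'
  have ha : 2 * (a : ℕ) + 1 < e := by
    have := a.2
    omega
  obtain ⟨hσ, hle, -, hyV, hpV⟩ := (hL (2 * a + 1) (by omega) ha).base
  rw [← hbb] at c5
  refine fin' C (L a) (c := b a) (t' := t) (hh := 2 * a + 1) (τ := σ0) (τ1 := σ (2 * a + 1))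
    (E := E) (E' := E') (A0 := rep (V (2 * a + 1)) (L a).k) (A1 := E') (A2 := E) (Cw := Cr')
    (wE := wE) (wE' := wE') (wC := []) b1 b2 ?_ c5 (Per.nil b2.2.1) b3 b4 b6 b7
    (evalFrom_rep' hσ _) b6 c8 b7 ?_ b10 b9 ⟨x', hx1, ?_⟩ ?_ b13 b12 c14 b12 b13
  · intro r
    refine ⟨wE' ++ rep (L a).w r ++ wE, C.SR.append (C.SR.append b3 ?_) b1,
      (b4.append ((L a).per2.rep r)).append b2, ?_⟩
    · exact C.SR.rep (L a).h2 r
    · rw [yb_append, yb_append, yb_rep]
      have : r ≤ r * yb C.out (L a).w := Nat.le_mul_of_pos_right _ (L a).yw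
      omega
  · intro y hy
    rw [gl_rep] at hy
    exact hle y (mem_of_mem_rep hy)
  · rw [hx1']
    have : (a : ℕ) < a' := hlt
    omega
  · rw [pc_rep, hpV, Nat.mul_zero]

end LNC
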