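import Pool.Agent.LNC.Step1
import Pool.Agent.LNC.LD
import Pool.Agent.LNC.Step3

/-!
# LNC, module Core: a linear language which does not generate `S` does not generate `F` (abstract
form, assembly)
-/

namespace LNC

open RCone

variable {e : ℕ} {main : ℕ → ℕ → Prop} {Q S Γ : Type}

theorem core [Fintype Q] [Fintype S] (he : 2 * Fintype.card Q + 2 ≤ e) (C : Ctx e main Q S Γ)
    (h : (main = meq ∧ OffEq C.mem) ∨ (main = mle ∧ OffLe C.mem)) : False := by
  have : NeZero e := ⟨by omega⟩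
  have hM : MainOK main := by
    rcases h with ⟨rfl, -⟩ | ⟨rfl, -⟩
    · exact meq_ok
    · exact mle_ok
  obtain ⟨cb, cβ, cf, βl, βr, nl, nr, B, hL⟩ := step1 C hM
  refine step3 C (m := Fintype.card Q * (piW C βl βr).length) (σ0 := cb.2.1)
    (π := piW C βl βr) he le_rfl (fun j _ hj => ?_)
  obtain ⟨c, ℓ, h', V, G, mm, mr, L⟩ := hL j hj
  obtain ⟨V', G', hN⟩ := Nest.comp C (Fintype.card Q * (piW C βl βr).length) j c V G L.nest
  have L' : Lev C (Fintype.card Q * (piW C βl βr).length) j cb cβ βl nl nr c ℓ h' V' G' mm mr :=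
    ⟨L.h1, hN, L.h2, L.glh, L.glmr, L.gln, L.bal⟩
  refine ⟨c.2.1, V', Nest.left C j c V' G' hN, ?_⟩
  rcases h with ⟨rfl, h⟩ | ⟨rfl, h⟩
  · exact loopData_eq C B L' h
  · exact loopData_le C B L' h

end LNC
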