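import Pool.Agent.LNC.ConfL
import Pool.Agent.RC.Cone
import Pool.Agent.RC.Pattern

/-!
# LNC, module CtxB: the context of a linear language and a rational transduction onto `F`
-/

namespace LNC

open RCone

/-- The two-head step relation of a finite automaton over `Option Y × Option Y`, acting on the first
components of the letters of `Γ = Option Y × X`. -/
def linRel {Y X Q : Type} (M : DFA (Option Y × Option Y) Q) : StepRel Q (Option Y × Option X) where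
  rel q ξ η q' := ∃ z, p1 z = p1 ξ ∧ p2 z = p1 η ∧ M.evalFrom q z = q'
  nil q := ⟨[], rfl, rfl, rfl⟩
  append := by
    rintro q q' q'' ξ ξ' η η' ⟨z, h1, h2, h3⟩ ⟨z', h4, h5, h6⟩
    refine ⟨z ++ z', ?_, ?_, ?_⟩
    · rw [p1_append, p1_append, h1, h4]
    · rw [p2_append, p1_append, h2, h5]
    · rw [evalFrom_append', h3, h6]
  splitL := by
    rintro q q'' ξ ξ' η ⟨z, h1, h2, h3⟩
    rw [p1_append, p1, List.filterMap_eq_append_iff] at h1
    obtain ⟨z1, z2, rfl, h4, h5⟩ := h1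
    rw [p2_append, eq_comm, p1, List.filterMap_eq_append_iff] at h2
    obtain ⟨η₁, η₂, rfl, h6, h7⟩ := h2
    refine ⟨η₁, η₂, M.evalFrom q z1, rfl, ⟨z1, h4, h6.symm, rfl⟩, ⟨z2, h5, h7.symm, ?_⟩⟩
    rw [← h3, evalFrom_append']
  splitR := by
    rintro q q'' ξ η η' ⟨z, h1, h2, h3⟩
    rw [p1_append, p2, List.filterMap_eq_append_iff] at h2
    obtain ⟨z1, z2, rfl, h4, h5⟩ := h2
    rw [p1_append, eq_comm, p1, List.filterMap_eq_append_iff] at h1
    obtain ⟨ξ₁, ξ₂, rfl, h6, h7⟩ := h1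
    refine ⟨ξ₁, ξ₂, M.evalFrom q z1, rfl, ⟨z1, h6.symm, h4, rfl⟩, ⟨z2, h7.symm, h5, ?_⟩⟩
    rw [← h3, evalFrom_append']

theorem ctx_of {Y Q : Type} {e : ℕ} {main : ℕ → ℕ → Prop} (B : Language Y)
    (M : DFA (Option Y × Option Y) Q)
    (hB : ∀ w, w ∈ B ↔ ∃ z ∈ M.accepts, w = p1 z ++ (p2 z).reverse)
    (ρ : Set (List Y × List (Al e))) (hρ : IsRational ρ) (hF : im ρ B = Fl e main) :
    ∃ (S : Type) (_ : Fintype S) (C : Ctx e main Q S (Option Y × Option (Al e))),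
      ∀ ζ, C.mem ζ ↔ p1 ζ ∈ B := by
  obtain ⟨R, ⟨S, hS, MR, rfl⟩, hR⟩ := hρ
  have key : ∀ ζ : List (Option Y × Option (Al e)), (∃ (ξ η : List (Option Y × Option (Al e)))
      (q : Q), ζ = ξ ++ η.reverse ∧ (linRel M).rel M.start ξ η q ∧ q ∈ M.accept) ↔ p1 ζ ∈ B := by
    intro ζ
    rw [hB]
    constructor
    · rintro ⟨ξ, η, q, rfl, ⟨z, h1, h2, h3⟩, hq⟩
      refine ⟨z, ?_, ?_⟩
      · rw [DFA.mem_accepts, DFA.eval, h3]; exact hq
      · rw [p1_append, h1, h2, p1, p1, p1, List.filterMap_reverse]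
    · rintro ⟨z, hz, h⟩
      rw [p1, List.filterMap_eq_append_iff] at h
      obtain ⟨ξ, η, rfl, h1, h2⟩ := h
      refine ⟨ξ, η.reverse, M.eval z, by rw [List.reverse_reverse], ⟨z, ?_, ?_, rfl⟩, hz⟩
      · exact h1.symm
      · rw [p1, List.filterMap_reverse, h2, List.reverse_reverse]
  have hmem : ∀ ζ ∈ MR.accepts, p1 ζ ∈ B → p2 ζ ∈ Fl e main := by
    intro ζ h1 h2
    rw [← hF]
    exact ⟨p1 ζ, h2, (hR _ _).2 ⟨ζ, h1, rfl, rfl⟩⟩
  refine ⟨S, hS, ⟨Prod.snd, linRel M, MR, M.start, M.accept, ?_, ?_⟩, key⟩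
  · intro ξ η q h1 h2 h3
    exact hmem _ h3 ((key _).1 ⟨ξ, η, q, rfl, h1, h2⟩)
  · intro w hw
    rw [← hF] at hw
    obtain ⟨u, hu, h⟩ := hw
    obtain ⟨ζ, h1, rfl, rfl⟩ := (hR _ _).1 h
    obtain ⟨ξ, η, q, rfl, h2, h3⟩ := (key ζ).2 hu
    exact ⟨ξ, η, q, h2, h3, h1, rfl⟩

/-! ### Patterns -/

/-- `{0^s 1^t : U0 u^s U1 v^t U2 ∈ B}` is an image of `B` -/
theorem patIm {Y : Type} (B : Language Y) (U0 u U1 v U2 : List Y) :
    ∃ τ : Set (List Y × List (Fin 2)), IsRational τ ∧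
      im τ B = {w | ∃ t1 t2 : ℕ, w = List.replicate t1 0 ++ List.replicate t2 1 ∧
        U0 ++ rep u t1 ++ U1 ++ rep v t2 ++ U2 ∈ B} := by
  refine ⟨{q | ∃ z ∈ ({z | ∃ t : ℕ → ℕ, z = expand (Pattern_A U0 U1 U2) (Pattern_B u v) t 2} :
    Language (Option Y × Option (Fin 2))), p1 z = q.1 ∧ p2 z = q.2},
    ⟨_, regular_expand (Pattern_A U0 U1 U2) (Pattern_B u v) 2, fun a b => Iff.rfl⟩, ?_⟩
  ext w
  constructor
  · rintro ⟨x, hx, z, ⟨t, rfl⟩, h1, h2⟩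
    refine ⟨t 0, t 1, ?_, ?_⟩
    · rw [← Pattern_e2 U0 u U1 v U2 t]; exact h2.symm
    · rw [← Pattern_e1 U0 u U1 v U2 t]
      have h1' : p1 (expand (Pattern_A U0 U1 U2) (Pattern_B u v) t 2) = x := h1
      rw [h1']; exact hx
  · rintro ⟨t1, t2, rfl, hB⟩
    refine ⟨U0 ++ rep u t1 ++ U1 ++ rep v t2 ++ U2, hB,
      expand (Pattern_A U0 U1 U2) (Pattern_B u v) (fun i => if i = 0 then t1 else t2) 2,
      ⟨_, rfl⟩, ?_, ?_⟩
    · rw [Pattern_e1]; simp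
    · rw [Pattern_e2]; simp

/-- the representation of a word `0^m 1^n` is unique -/
theorem rep01_inj {m n m' n' : ℕ} (h : (List.replicate m 0 ++ List.replicate n 1 : List (Fin 2)) =
    List.replicate m' 0 ++ List.replicate n' 1) : m = m' ∧ n = n' := by
  have h0 := congrArg (List.count (0 : Fin 2)) h
  have h1 := congrArg (List.count (1 : Fin 2)) h
  simp [List.count_replicate] at h0 h1
  exact ⟨h0, h1⟩

theorem offEq_of {Y : Type} (B : Language Y)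
    (h : ¬ ∃ τ : Set (List Y × List (Fin 2)), IsRational τ ∧ im τ B = Pl meq) :
    OffEq (fun w => w ∈ B) := by
  intro X0 Y0 X1 Y1 X2 hd
  by_contra hcon
  push Not at hcon
  obtain ⟨τ, hτ, e⟩ := patIm B X0 Y0 X1 Y1 X2
  refine h ⟨τ, hτ, ?_⟩
  rw [e]
  ext w
  constructor
  · rintro ⟨t1, t2, rfl, hB⟩
    refine ⟨t1, t2, ?_, rfl⟩
    by_contra hne
    exact hcon t1 t2 hne hB
  · rintro ⟨t1, t2, rfl, rfl⟩
    exact ⟨t1, t1, rfl, hd t1⟩

/-- transfer of the properties `OffEq`, `OffLe` from `B` to the words over `Option Y × Option X` -/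
theorem offEq_p1 {Y X : Type} {B : Language Y} (h : OffEq (fun w => w ∈ B)) :
    OffEq (fun ζ : List (Option Y × Option X) => p1 ζ ∈ B) := by
  intro X0 Y0 X1 Y1 X2 hd
  obtain ⟨r, s, hrs, hm⟩ := h (p1 X0) (p1 Y0) (p1 X1) (p1 Y1) (p1 X2) (fun r => by
    have := hd r
    simpa only [p1_append, p1_rep] using this)
  refine ⟨r, s, hrs, ?_⟩
  simpa only [p1_append, p1_rep] using hm

theorem offLe_p1 {Y X : Type} {B : Language Y} (h : OffLe (fun w => w ∈ B)) :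
    OffLe (fun ζ : List (Option Y × Option X) => p1 ζ ∈ B) := by
  intro X0 Y0 X1 Y1 X2 hd
  obtain ⟨r, hr⟩ := h (p1 X0) (p1 Y0) (p1 X1) (p1 Y1) (p1 X2) (fun r => by
    have := hd r
    simpa only [p1_append, p1_rep] using this)
  refine ⟨r, fun s0 => ?_⟩
  obtain ⟨s, hs, hm⟩ := hr s0
  refine ⟨s, hs, ?_⟩
  simpa only [p1_append, p1_rep] using hm

end LNC
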