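import Pool.Agent.LNC.Ineq
import Pool.Agent.LNC.Blk

/-!
# LNC, module Cut: in the computation of the tight word the right head is still in the `c`-zone
when the left head has read `U^D`

Let `D = card (Conf Q S)`. The word is `u₀ b^y c^p`, `u₀ = U^n`, `p = n |U| = |u₀|`, with
`2 D (D + 1) < n` and `2 p < y`.

Proof. Put `A = ξ.filterMap out`, `B = (η.filterMap out).reverse`, so `A ++ B = word u₀ y p`
(`List.filterMap_append`, `List.filterMap_reverse`). By `cnt_of_word` the total counts are
`|u₀| = p`, `p`, `y`, so `loop_ineq` applies to every loop of the computation: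
(*) `pc ξ₂ + pc η₂ ≤ (gl ξ₂).length + (gl η₂).length`.
`(rep U D).map inl` is a prefix of the word, because `D ≤ n` (`rep_add`).

Case 1: `1 ≤ pc ξ`. Then `A` contains the letter `inr true`, so `|A| > |u₀| + y` (the first
`|u₀| + y` letters of the word are not `inr true`), and `B` consists of letters `inr true` only
(`A` is a prefix of the word longer than `|u₀| + y`). So `gl η = []`, `yb η = 0`. Both
`(rep U D).map inl` and `A` are prefixes of the word, and the first is shorter, so
`A = (rep U D).map inl ++ A'` (`List.prefix_of_prefix_length_le`). `List.filterMap_eq_append_iff`: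
`ξ = ξa ++ ξb` with `ξa.filterMap out = (rep U D).map inl`. `splitL` gives `η = ηa ++ ηb` and `c`.

Case 2: `pc ξ = 0`. Then `A` has no letter `inr true`, so `B = B' ++ replicate p (inr true)` (the word
ends with `c^p`, and if `|B| < p` then `A` would end with `inr true`; for `p = 0` trivial). So
`η.filterMap out = replicate p (inr true) ++ B'.reverse` and `η = η₁ ++ η₂` with
`η₁.filterMap out = replicate p (inr true)`. `splitR`: `ξ = ξ₁ ++ ξ₂`, `rel c0 ξ₁ η₁ c₁`,
`rel c₁ ξ₂ η₂ cf`. `gl η₁ = []`, `yb η₁ = 0`, `pc η₁ = p`.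
Claim `D |U| ≤ (gl ξ₁).length`. Otherwise `(gl ξ₁).length + 1 ≤ D |U|`, so
`2 D ((gl ξ₁).length + (gl η₁).length + 1) ≤ 2 D D |U| < n |U| = p ≤ pc ξ₁ + pc η₁` and
`StepRel.block` (`P1` = outputs `c`, `P2` = outputs a letter `g`; note
`(gl ζ).length = ζ.countP (fun a => ((out a).bind Sum.getLeft?).isSome)`) gives a loop in `(ξ₁ | η₁)`
with `pc ≥ 1` and without letters `g`; append the rest `(ξ₂ | η₂)` to get a contradiction to (*).
So `ξ₁.filterMap out`, a prefix of the word of length `≥ D |U|`, has the prefix `(rep U D).map inl`: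
`ξ₁ = ξa ++ ξb'`; `splitL`: `η₁ = ηa ++ ηb'`, `rel c0 ξa ηa c`, `rel c ξb' ηb' c₁`. Put
`ξb = ξb' ++ ξ₂`, `ηb = ηb' ++ η₂`; `gl ηa = []`, `yb ηa = 0` since `gl η₁ = []`, `yb η₁ = 0`.
-/

namespace LNC

open RCone

variable {e : ℕ} {main : ℕ → ℕ → Prop} {Q S Γ : Type} (C : Ctx e main Q S Γ)

private theorem Cut_gl_len (out : Γ → Option (Al e)) (ζ : List Γ) :
    (gl out ζ).length = ζ.countP (fun a => ((out a).bind Sum.getLeft?).isSome) := by
  unfold gl
  induction ζ with
  | nil => rfl
  | cons a ζ ih =>
    rw [List.filterMap_cons, List.countP_cons, ← ih]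
    cases h : (out a).bind Sum.getLeft? with
    | none => simp
    | some x => simp

private theorem Cut_all_c (out : Γ → Option (Al e)) (ζ : List Γ)
    (h : ∀ a ∈ ζ.filterMap out, a = Sum.inr true) : gl out ζ = [] ∧ yb out ζ = 0 := by
  constructor
  · rw [gl_eq_filterMap, List.filterMap_eq_nil_iff]
    intro a ha
    rw [h a ha]
    rfl
  · rw [yb_eq_count, List.countP_eq_zero]
    intro a ha
    rw [h a ha]
    simp

theorem cut [Fintype Q] [Fintype S] (hM : MainOK main) (U : List (Fin e)) (hU : U ≠ [])
    (n y : ℕ) (hn : 2 * Fintype.card (Conf Q S) * (Fintype.card (Conf Q S) + 1) < n)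
    (hy : 2 * (n * U.length) < y) {ξ η : List Γ} {cf : Conf Q S}
    (h : C.CR.rel C.c0 ξ η cf) (hf : cf ∈ C.Acc)
    (ho : (ξ ++ η.reverse).filterMap C.out = word (rep U n) y (n * U.length)) :
    ∃ (c : Conf Q S) (ξa ξb ηa ηb : List Γ), ξ = ξa ++ ξb ∧ η = ηa ++ ηb ∧
      C.CR.rel C.c0 ξa ηa c ∧ C.CR.rel c ξb ηb cf ∧
      ξa.filterMap C.out = (rep U (Fintype.card (Conf Q S))).map Sum.inl ∧
      gl C.out ηa = [] ∧ yb C.out ηa = 0 := by
  set D := Fintype.card (Conf Q S) with hD
  have hU1 : 1 ≤ U.length := List.length_pos_iff.2 hU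
  have hDn : D ≤ n := by nlinarith
  obtain ⟨n', hn'⟩ : ∃ n', n = D + n' := ⟨n - D, by omega⟩
  obtain ⟨hgT, hyT, hpT⟩ := cnt_of_word C.out ho
  have hgl : (gl C.out ξ).length + (gl C.out η).length = n * U.length := by
    have := congrArg List.length hgT
    rw [gl_append, gl_reverse, List.length_append, List.length_reverse, length_rep] at this
    exact this
  rw [yb_append, yb_reverse] at hyT
  rw [pc_append, pc_reverse] at hpT
  rw [List.filterMap_append, List.filterMap_reverse] at ho
  have hpre : ∀ A : List (Al e), A <+: word (rep U n) y (n * U.length) → D * U.length ≤ A.length →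
      (rep U D).map Sum.inl <+: A := by
    intro A hA hl
    apply List.prefix_of_prefix_length_le _ hA
    · rw [List.length_map, length_rep]
      exact hl
    · rw [word, hn', rep_add, List.map_append, List.append_assoc, List.append_assoc]
      exact List.prefix_append _ _
  have hpref : ξ.filterMap C.out <+: word (rep U n) y (n * U.length) := by
    rw [← ho]
    exact List.prefix_append _ _
  have ho' : ξ.filterMap C.out ++ (η.filterMap C.out).reverse =
      ((rep U n).map Sum.inl ++ List.replicate y (Sum.inr false)) ++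
        List.replicate (n * U.length) (Sum.inr true) := ho
  rcases List.append_eq_append_iff.1 ho' with ⟨a', h1, h2⟩ | ⟨c', h1, h2⟩
  · -- no letter `c` on the left
    have h3 : η.filterMap C.out = List.replicate (n * U.length) (Sum.inr true) ++ a'.reverse := by
      have := congrArg List.reverse h2
      rw [List.reverse_reverse, List.reverse_append, List.reverse_replicate] at this
      exact this
    obtain ⟨η₁, η₂, rfl, h4, h5⟩ := List.filterMap_eq_append_iff.1 h3
    obtain ⟨ξ₁, ξ₂, c₁, rfl, r1, r2⟩ := C.CR.splitR h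
    obtain ⟨g1, y1⟩ := Cut_all_c C.out η₁ (by
      intro a ha
      rw [h4] at ha
      exact List.eq_of_mem_replicate ha)
    have p1 : pc C.out η₁ = n * U.length := by
      rw [pc_eq_count, h4, countP_inr_replicate]
      simp
    have p0 : pc C.out (ξ₁ ++ ξ₂) = 0 := by
      rw [pc_eq_count, List.countP_eq_zero]
      intro a ha
      have h6 : a ∈ (rep U n).map Sum.inl ++ List.replicate y (Sum.inr false) := by
        rw [h1]
        exact List.mem_append_left _ ha
      rw [List.mem_append] at h6
      rcases h6 with h6 | h6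
      · rw [List.mem_map] at h6
        obtain ⟨b, _, rfl⟩ := h6
        simp
      · rw [List.eq_of_mem_replicate h6]
        simp
    rw [pc_append] at p0
    have hclaim : D * U.length ≤ (gl C.out ξ₁).length := by
      by_contra hcon
      push Not at hcon
      have hbig : 2 * Fintype.card (Conf Q S) *
          (ξ₁.countP (fun a => ((C.out a).bind Sum.getLeft?).isSome) +
            η₁.countP (fun a => ((C.out a).bind Sum.getLeft?).isSome) + 1) <
          ξ₁.countP (fun a => decide (C.out a = some (Sum.inr true))) +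
            η₁.countP (fun a => decide (C.out a = some (Sum.inr true))) := by
        rw [← Cut_gl_len, ← Cut_gl_len, g1, ← hD]
        have e1 : ξ₁.countP (fun a => decide (C.out a = some (Sum.inr true))) = 0 := by
          have : pc C.out ξ₁ = 0 := by omega
          exact this
        have e2 : η₁.countP (fun a => decide (C.out a = some (Sum.inr true))) = n * U.length := p1
        rw [e1, e2, List.length_nil, zero_add, add_zero]
        calc 2 * D * ((gl C.out ξ₁).length + 1) ≤ 2 * D * (D * U.length) :=
              Nat.mul_le_mul le_rfl hcon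
          _ = (2 * D * D) * U.length := by ring
          _ < n * U.length := by
              apply Nat.mul_lt_mul_of_pos_right _ hU1
              nlinarith
      obtain ⟨c, x1, x2, x3, z1, z2, z3, hx, hz, q1, q2, q3, q4, q5⟩ := C.CR.block _ _ r1 hbig
      have q6 := C.CR.append q3 r2
      have ex : x1 ++ x2 ++ (x3 ++ ξ₂) = ξ₁ ++ ξ₂ := by rw [hx]; simp
      have ez : z1 ++ z2 ++ (z3 ++ η₂) = η₁ ++ η₂ := by rw [hz]; simp
      have q7 := (loop_ineq C hM q1 q2 q6 hf (by rw [ex, ez, hgl, hpT]) (by
        rw [ex, ez, hgl, hyT]; exact hy)).1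
      rw [Cut_gl_len, Cut_gl_len] at q7
      have q8 : 0 < pc C.out x2 + pc C.out z2 := q4
      omega
    have hA : (ξ₁.filterMap C.out) <+: word (rep U n) y (n * U.length) := by
      refine List.IsPrefix.trans ?_ hpref
      rw [List.filterMap_append]
      exact List.prefix_append _ _
    have hl : D * U.length ≤ (ξ₁.filterMap C.out).length := by
      refine hclaim.trans ?_
      rw [gl_eq_filterMap]
      exact List.length_filterMap_le _ _
    obtain ⟨A', hA'⟩ := hpre _ hA hl
    obtain ⟨ξa, ξb, rfl, h6, h7⟩ := List.filterMap_eq_append_iff.1 hA'.symm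
    obtain ⟨ηa, ηb, c, rfl, r3, r4⟩ := C.CR.splitL r1
    rw [gl_append, List.append_eq_nil_iff] at g1
    rw [yb_append] at y1
    exact ⟨c, ξa, ξb ++ ξ₂, ηa, ηb ++ η₂, by rw [List.append_assoc], by rw [List.append_assoc],
      r3, C.CR.append r4 r2, h6, g1.1, by omega⟩
  · -- the left head reads a part of the `c`-zone
    obtain ⟨g1, y1⟩ := Cut_all_c C.out η (by
      intro a ha
      have h3 : a ∈ List.replicate (n * U.length) (Sum.inr true : Al e) := by
        rw [h2]
        apply List.mem_append_right
        rw [List.mem_reverse]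
        exact ha
      exact List.eq_of_mem_replicate h3)
    have hl : D * U.length ≤ (ξ.filterMap C.out).length := by
      rw [h1, List.length_append, List.length_append, List.length_map, length_rep]
      have : D * U.length ≤ n * U.length := Nat.mul_le_mul hDn le_rfl
      omega
    obtain ⟨A', hA'⟩ := hpre _ hpref hl
    obtain ⟨ξa, ξb, rfl, h6, h7⟩ := List.filterMap_eq_append_iff.1 hA'.symm
    obtain ⟨ηa, ηb, c, rfl, r3, r4⟩ := C.CR.splitL h
    rw [gl_append, List.append_eq_nil_iff] at g1
    rw [yb_append] at y1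
    exact ⟨c, ξa, ξb, ηa, ηb, rfl, rfl, r3, r4, h6, g1.1, by omega⟩

end LNC
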