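import Pool.Agent.LNC.DBase

/-!
# LNC, module DB: few outputs `1` in the `b`-zone

Proof. Let `D = card S`, `K = 2 D (2 D + 1) + 1` and suppose `(p2 zb).count 1 > K`. The output of the
whole word is in `Pl main`, hence of the form `0^m 1^n`, `main m n`.
(1) `y > 2 D`: otherwise `2 D (y + 1) + 1 ≤ K < (p2 zb).count 1`, and `zone` (`z1 = zu`, `zz = zb`,
`z3 = zc`, `P2 a = a.1.isSome`, so `zb.countP P2 = y`) gives a loop `x` in `zb` with `p1 x = []`, an
output `1` and no output `0`; pumping it does not change the input word: `dpump` (`k0 = 0`).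
(2) `zone` with `P2 = fun _ => false` (`2 D + 1 < (p2 zb).count 1` since `D ≥ 1`): `zb = a ++ x ++ b`,
`p1 x = b^y'`, `p1 (a ++ rep x k ++ b) = b^(y - y' + k y')`, an output `1`, no output `0`.
If `main |u| p`, the pumped words are in `F`: `dpump`. So `¬ main |u| p`, hence `Kill u y`.
(3) `hM.dich`, first case: delete `x`. The input word is `word u (y - y') p`, still killed
(`Kill.mono`), the word `zu ++ (a ++ b) ++ zc` is accepted (`accepts_pump` with `k = 0`), its output is
`0^m 1^(n - n')`, `n' = (p2 x).count 1`, `1 ≤ n' ≤ n`, and lies in `Pl main`: `main m (n - n')`. (The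
output is a word `0^m' 1^n''`; compare the counts.) Contradiction.
(4) `hM.dich`, second case: there is `N` with `main n' p` for all `n' ≥ N`. `|u| ≥ y > 2 D`
(`Kill.le_length`), so `dfa_block` for `zu` (`P1 a = a.1.isSome`, `P2 = fun _ => false`,
`s = M.start`) gives a loop `v` in `zu = a' ++ v ++ b'` with `p1 v ≠ []`. Insert it `N` times: `zu' =
a' ++ rep v N ++ b'` reads a word `u'` with `|u'| ≥ N`, so `main |u'| p`. `zu' ++ (a ++ rep x k ++ b) ++ zc`
is accepted for all `k` (`M` is in the same state after `zu'` as after `zu`) and reads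
`word u' (…) p ∈ F`: `dpump`.
-/

namespace LNC

open RCone

private theorem db_countP {X Y : Type} (z : List (Option X × Option Y)) :
    z.countP (fun a => a.1.isSome) = (p1 z).length := by
  induction z with
  | nil => rfl
  | cons a z ih =>
    rw [List.countP_cons, ih, p1, p1, List.filterMap_cons]
    cases h : a.1 <;> simp

private theorem db_evalrep {α S : Type} (M : DFA α S) {s : S} {v : List α}
    (h : M.evalFrom s v = s) (n : ℕ) : M.evalFrom s (rep v n) = s := by
  induction n with
  | zero => rfl
  | succ n ih => rw [rep_succ, evalFrom_append', h, ih]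

private theorem db_replicate {α : Type} (c : α) (n k : ℕ) :
    rep (List.replicate n c) k = List.replicate (n * k) c := by
  rw [← rep_singleton, rep_rep, rep_singleton]

theorem dB {e : ℕ} {S : Type} [Fintype S] (M : DFA (Option (Al e) × Option (Fin 2)) S)
    {main : ℕ → ℕ → Prop} (hM : MainOK main)
    (sub : ∀ z ∈ M.accepts, p1 z ∈ Fl e main → p2 z ∈ Pl main)
    {zu zb zc : List (Option (Al e) × Option (Fin 2))} {u : List (Fin e)} {y p : ℕ}
    (hz : zu ++ zb ++ zc ∈ M.accepts) (h1 : p1 zu = u.map Sum.inl)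
    (h2 : p1 zb = List.replicate y (Sum.inr false)) (h3 : p1 zc = List.replicate p (Sum.inr true))
    (hF : Kill u y ∨ main u.length p) :
    (p2 zb).count 1 ≤ 2 * Fintype.card S * (2 * Fintype.card S + 1) + 1 := by
  by_contra hcon
  obtain ⟨D, hDdef⟩ : ∃ D, D = Fintype.card S := ⟨_, rfl⟩
  rw [← hDdef] at hcon
  have hD : 1 ≤ D := by
    rw [hDdef]
    exact Fintype.card_pos_iff.2 ⟨M.start⟩
  have hin : p1 (zu ++ zb ++ zc) = word u y p := by
    rw [p1_append, p1_append, h1, h2, h3, word]
  obtain ⟨m, n, hmn, hout⟩ := sub _ hz ⟨u, y, p, hin, hF⟩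
  -- (1)
  have hy : 2 * D < y := by
    by_contra hy
    have hy' : y ≤ 2 * D := by omega
    obtain ⟨a, x, b, e1, e2, e3, e4, e5⟩ := zone M (fun a => a.1.isSome) (M.evalFrom M.start zu)
      (z1 := zu) (zz := zb) (z3 := zc) hout (by
        rw [db_countP, h2, List.length_replicate, ← hDdef]
        have h4 : 2 * D * (y + 1) ≤ 2 * D * (2 * D + 1) := Nat.mul_le_mul_left _ (by omega)
        omega)
    have e6 : p1 x = [] := List.length_eq_zero_iff.1 (by rw [← db_countP]; exact e5)
    refine dpump M hM.le sub (A := zu ++ a) (x := x) (B := b ++ zc) 0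
      (fun k _ => ⟨accepts_pump M ?_ ?_ k, ?_⟩) e3 e4
    · rw [evalFrom_append']
      exact e2
    · rw [e1] at hz
      simpa only [List.append_assoc] using hz
    · refine ⟨u, y, p, ?_, hF⟩
      rw [← hin, e1]
      simp only [p1_append, p1_rep, e6, rep_nil, List.append_assoc, List.nil_append]
  -- (2)
  obtain ⟨a, x, b, e1, e2, e3, e4, -⟩ := zone M (fun _ => false) (M.evalFrom M.start zu)
    (z1 := zu) (zz := zb) (z3 := zc) hout (by
      rw [← hDdef]
      have h4 : zb.countP (fun _ => false) = 0 := by simp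
      rw [h4]
      have h5 : 2 * D * (0 + 1) ≤ 2 * D * (2 * D + 1) := Nat.mul_le_mul_left _ (by omega)
      omega)
  subst e1
  rw [p1_append, p1_append, List.append_eq_replicate_iff, List.append_eq_replicate_iff] at h2
  obtain ⟨hy1, ⟨-, ha, hx⟩, hb⟩ := h2
  obtain ⟨ya, hya⟩ : ∃ ya, ya = (p1 a).length := ⟨_, rfl⟩
  obtain ⟨yx, hyx⟩ : ∃ yx, yx = (p1 x).length := ⟨_, rfl⟩
  obtain ⟨yb', hyb⟩ : ∃ yb', yb' = (p1 b).length := ⟨_, rfl⟩
  rw [← hya] at ha
  rw [← hyx] at hx
  rw [← hyb] at hb
  rw [List.length_append, ← hya, ← hyx, ← hyb] at hy1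
  have hread : ∀ (zu' : List (Option (Al e) × Option (Fin 2))) (u' : List (Fin e)),
      p1 zu' = u'.map Sum.inl → ∀ k, p1 (zu' ++ a ++ rep x k ++ (b ++ zc)) =
        word u' (ya + yx * k + yb') p := by
    intro zu' u' hu' k
    simp only [p1_append, p1_rep, hu', h3, ha, hx, hb, db_replicate, word, List.replicate_add,
      List.append_assoc]
  have hz' : zu ++ a ++ x ++ (b ++ zc) ∈ M.accepts := by
    simpa only [List.append_assoc] using hz
  have hloop : M.evalFrom (M.evalFrom M.start (zu ++ a)) x = M.evalFrom M.start (zu ++ a) := by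
    rw [evalFrom_append']
    exact e2
  have hacc : ∀ k, zu ++ a ++ rep x k ++ (b ++ zc) ∈ M.accepts := fun k =>
    accepts_pump M hloop hz' k
  have hnm : ¬ main u.length p := fun hm =>
    dpump M hM.le sub (A := zu ++ a) (x := x) (B := b ++ zc) 0
      (fun k _ => ⟨hacc k, ⟨u, _, p, hread zu u h1 k, Or.inr hm⟩⟩) e3 e4
  have hK : Kill u y := hF.resolve_right hnm
  rcases hM.dich with hd | hd
  · -- (3)
    have hw : p1 (zu ++ a ++ rep x 0 ++ (b ++ zc)) ∈ Fl e main :=
      ⟨u, _, p, hread zu u h1 0, Or.inl (hK.mono (by simp only [mul_zero]; omega))⟩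
    obtain ⟨m', n'', hmn', hout'⟩ := sub _ (hacc 0) hw
    have c0 := congrArg (List.count (0 : Fin 2)) hout
    have c1 := congrArg (List.count (1 : Fin 2)) hout
    have c0' := congrArg (List.count (0 : Fin 2)) hout'
    have c1' := congrArg (List.count (1 : Fin 2)) hout'
    simp only [List.count_append, rep_zero, List.count_replicate_self,
      List.count_replicate, p2] at c0 c1 c0' c1'
    simp at c0 c1 c0' c1'
    change (p2 x).count 0 = 0 at e4
    change 1 ≤ (p2 x).count 1 at e3
    simp only [p2] at e3 e4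
    have hm' : m' = m := by omega
    have hn' : n'' = n - (List.filterMap Prod.snd x).count 1 := by omega
    rw [hm', hn'] at hmn'
    exact hd m n _ (by omega) (by omega) hmn hmn'
  · -- (4)
    obtain ⟨N, hN⟩ := hd p
    have hul : 2 * D < u.length := lt_of_lt_of_le hy hK.le_length
    obtain ⟨a', v, b', f1, f2, f3, -⟩ := dfa_block M (fun a => a.1.isSome) (fun _ => false)
      M.start zu (by
        rw [db_countP, h1, List.length_map, ← hDdef]
        simpa using hul)
    rw [db_countP] at f3
    have hu := h1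
    rw [f1, p1_append, p1_append] at hu
    obtain ⟨l1, u3, g1, g2, g3⟩ := List.map_eq_append_iff.1 hu.symm
    obtain ⟨u1, u2, g4, g5, g6⟩ := List.map_eq_append_iff.1 g2
    have hu' : p1 (a' ++ rep v N ++ b') = (u1 ++ rep u2 N ++ u3).map Sum.inl := by
      have hmap : ∀ (w : List (Fin e)) (k : ℕ),
          (rep w k).map (Sum.inl : Fin e → Al e) = rep (w.map Sum.inl) k := by
        intro w k
        induction k with
        | zero => simp
        | succ k ih => rw [rep_succ, rep_succ, List.map_append, ih]
      rw [p1_append, p1_append, p1_rep, List.map_append, List.map_append, hmap, g5, g6, g3]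
    have hlen : N ≤ (u1 ++ rep u2 N ++ u3).length := by
      have h4 : 0 < u2.length := by
        rw [← g6, List.length_map] at f3
        exact f3
      rw [List.length_append, List.length_append, length_rep]
      have h5 : N * 1 ≤ N * u2.length := Nat.mul_le_mul_left _ h4
      omega
    have hst : M.evalFrom M.start (a' ++ rep v N ++ b') = M.evalFrom M.start zu := by
      rw [f1, evalFrom_append', evalFrom_append', db_evalrep M f2, evalFrom_append',
        evalFrom_append', f2]
    have hloop' : M.evalFrom (M.evalFrom M.start ((a' ++ rep v N ++ b') ++ a)) x =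
        M.evalFrom M.start ((a' ++ rep v N ++ b') ++ a) := by
      rw [evalFrom_append' M _ (a' ++ rep v N ++ b') a, hst, ← evalFrom_append' M _ zu a]
      exact hloop
    have hz'' : (a' ++ rep v N ++ b') ++ a ++ x ++ (b ++ zc) ∈ M.accepts := by
      rw [DFA.mem_accepts] at hz' ⊢
      unfold DFA.eval at hz' ⊢
      rw [List.append_assoc, List.append_assoc (a' ++ rep v N ++ b'), evalFrom_append' M _
        (a' ++ rep v N ++ b'), hst, ← evalFrom_append']
      rw [List.append_assoc, List.append_assoc zu] at hz'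
      exact hz'
    exact dpump M hM.le sub (A := (a' ++ rep v N ++ b') ++ a) (x := x) (B := b ++ zc) 0
      (fun k _ => ⟨accepts_pump M hloop' hz'' k,
        ⟨_, _, p, hread _ _ hu' k, Or.inr (hN _ hlen)⟩⟩) e3 e4

end LNC
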