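import Pool.Agent.LNC.Cnt
import Pool.Agent.LNC.Blk
import Pool.Agent.RC.Cone

/-!
# LNC, module DBase: pumping for a rational transduction `F → S_main`

`α = Option (Al e) × Option (Fin 2)`; `M` is a finite automaton over `α`.

Proofs.
* `dfa_block`: `StepRel.block` for the step relation `rel s ξ η s' := η = [] ∧ M.evalFrom s ξ = s'`.
* `zone`: let `zz = a1 ++ a2` where `a1` ends with the first letter of `zz` with output `1`
  (`(p2 a1).count 1 = 1`; exists since `(p2 zz).count 1 ≥ 1`; induction or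
  `List.filterMap_eq_append_iff`). `(p2 a2).count 1 > 2 D (countP P2 a2 + 1)`; `dfa_block` (from the state
  `M.evalFrom s a1`, `P1` = output `1`) gives `a2 = a' ++ x ++ b`. Since `p2 (z1 ++ zz ++ z3) = 0^m 1^n`
  and `x` stands to the right of a letter with output `1`, `x` outputs no `0`.
* `dpump`: take `k = k0 + (p2 A).count 0 + (p2 B).count 0 + 1`; the output `w` of
  `A ++ rep x k ++ B` is in `Pl main`, so `w.count 1 ≤ w.count 0` (`hle`), but `w.count 1 ≥ k` and
  `w.count 0 = (p2 A).count 0 + (p2 B).count 0`.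
* `accepts_pump`: `M.evalFrom` and `rep`.
-/

namespace LNC

open RCone

/-- the step relation of a finite automaton -/
private def DBaseSR {α S : Type} (M : DFA α S) : StepRel S α where
  rel s ξ η s' := η = [] ∧ M.evalFrom s ξ = s'
  nil s := ⟨rfl, rfl⟩
  append := by
    rintro c c' c'' ξ ξ' η η' ⟨h1, h2⟩ ⟨h3, h4⟩
    refine ⟨?_, ?_⟩
    · rw [h1, h3]; rfl
    · rw [evalFrom_append', h2, h4]
  splitL := by
    rintro c c'' ξ ξ' η ⟨h1, h2⟩
    refine ⟨[], [], M.evalFrom c ξ, ?_, ⟨rfl, rfl⟩, ⟨rfl, ?_⟩⟩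
    · rw [h1]; rfl
    · rw [← evalFrom_append', h2]
  splitR := by
    rintro c c'' ξ η η' ⟨h1, h2⟩
    obtain ⟨h3, h4⟩ := List.append_eq_nil_iff.1 h1
    refine ⟨[], ξ, c, rfl, ⟨h3, rfl⟩, ⟨h4, h2⟩⟩

theorem dfa_block {α S : Type} [Fintype S] (M : DFA α S) (P1 P2 : α → Bool) (s : S) (z : List α)
    (h : 2 * Fintype.card S * (z.countP P2 + 1) < z.countP P1) :
    ∃ a x b : List α, z = a ++ x ++ b ∧ M.evalFrom (M.evalFrom s a) x = M.evalFrom s a ∧
      0 < x.countP P1 ∧ x.countP P2 = 0 := by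
  have h1 : (DBaseSR M).rel s z [] (M.evalFrom s z) := ⟨rfl, rfl⟩
  obtain ⟨c, x1, x2, x3, y1, y2, y3, hz, hy, ⟨_, r1⟩, ⟨_, r2⟩, ⟨_, _⟩, hc1, hc2⟩ :=
    (DBaseSR M).block P1 P2 h1 (by simpa using h)
  obtain ⟨hy12, hy3⟩ := List.append_eq_nil_iff.1 hy.symm
  obtain ⟨hy1, hy2⟩ := List.append_eq_nil_iff.1 hy12
  subst hy2
  refine ⟨x1, x2, x3, hz, ?_, by simpa using hc1, by simpa using hc2⟩
  rw [r1, r2]

private theorem DBase_count {e : ℕ} (i : Fin 2) (l : List (Option (Al e) × Option (Fin 2))) :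
    (p2 l).count i = l.countP (fun a => decide (a.2 = some i)) := by
  induction l with
  | nil => rfl
  | cons a l ih =>
    rcases a with ⟨u, _ | v⟩
    · rw [List.countP_cons, ← ih]
      simp [p2]
    · rw [List.countP_cons, ← ih]
      simp only [p2, List.filterMap_cons]
      rw [List.count_cons]
      simp

private theorem DBase_split {α : Type} (P : α → Bool) (l : List α) (h : 1 ≤ l.countP P) :
    ∃ a b, l = a ++ b ∧ a.countP P = 1 := by
  induction l with
  | nil => simp at h
  | cons x l ih =>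
    by_cases hx : P x = true
    · exact ⟨[x], l, rfl, by simp [hx]⟩
    · rw [List.countP_cons_of_neg hx] at h
      obtain ⟨a, b, h1, h2⟩ := ih h
      refine ⟨x :: a, b, by rw [h1]; rfl, ?_⟩
      rw [List.countP_cons_of_neg hx]
      exact h2

private theorem DBase_sorted {u v : List (Fin 2)} {m n : ℕ}
    (h : u ++ v = List.replicate m 0 ++ List.replicate n 1) (hu : (1 : Fin 2) ∈ u) :
    (0 : Fin 2) ∉ v := by
  intro hv
  have hs : (List.replicate m (0 : Fin 2) ++ List.replicate n 1).Pairwise (· ≤ ·) := by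
    rw [List.pairwise_append]
    refine ⟨?_, ?_, ?_⟩
    · rw [List.pairwise_replicate]
      right; exact le_rfl
    · rw [List.pairwise_replicate]
      right; exact le_rfl
    · intro a ha b hb
      rw [List.eq_of_mem_replicate ha]
      exact Fin.zero_le _
  rw [← h, List.pairwise_append] at hs
  have := hs.2.2 1 hu 0 hv
  exact absurd this (by decide)

theorem zone {e : ℕ} {S : Type} [Fintype S] (M : DFA (Option (Al e) × Option (Fin 2)) S)
    (P2 : Option (Al e) × Option (Fin 2) → Bool) (s : S)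
    {z1 zz z3 : List (Option (Al e) × Option (Fin 2))} {m n : ℕ}
    (hfmt : p2 (z1 ++ zz ++ z3) = List.replicate m 0 ++ List.replicate n 1)
    (hbig : 2 * Fintype.card S * (zz.countP P2 + 1) + 1 < (p2 zz).count 1) :
    ∃ a x b, zz = a ++ x ++ b ∧ M.evalFrom (M.evalFrom s a) x = M.evalFrom s a ∧
      1 ≤ (p2 x).count 1 ∧ (p2 x).count 0 = 0 ∧ x.countP P2 = 0 := by
  rw [DBase_count] at hbig
  obtain ⟨a1, a2, h12, ha1⟩ := DBase_split (fun a : Option (Al e) × Option (Fin 2) =>
    decide (a.2 = some 1)) zz (by omega)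
  subst h12
  rw [List.countP_append, List.countP_append, ha1] at hbig
  have hb2 : 2 * Fintype.card S * (a2.countP P2 + 1) <
      a2.countP (fun a : Option (Al e) × Option (Fin 2) => decide (a.2 = some 1)) := by
    have : 2 * Fintype.card S * (a2.countP P2 + 1) ≤
        2 * Fintype.card S * (a1.countP P2 + a2.countP P2 + 1) :=
      Nat.mul_le_mul_left _ (by omega)
    omega
  obtain ⟨a', x, b, h1, h2, h3, h4⟩ := dfa_block M _ P2 (M.evalFrom s a1) a2 hb2
  refine ⟨a1 ++ a', x, b, ?_, ?_, ?_, ?_, h4⟩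
  · rw [h1]; simp [List.append_assoc]
  · rw [evalFrom_append']; exact h2
  · rw [DBase_count]; exact h3
  · rw [List.count_eq_zero]
    have hfmt' : (p2 z1 ++ p2 a1) ++ (p2 a' ++ p2 x ++ p2 b ++ p2 z3) =
        List.replicate m 0 ++ List.replicate n 1 := by
      rw [← hfmt, h1]
      simp [List.append_assoc]
    have h1m : (1 : Fin 2) ∈ p2 z1 ++ p2 a1 := by
      rw [List.mem_append]
      right
      rw [← List.count_pos_iff, DBase_count, ha1]
      exact Nat.one_pos
    intro hx
    refine DBase_sorted hfmt' h1m ?_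
    simp [hx]

theorem dpump {e : ℕ} {S : Type} (M : DFA (Option (Al e) × Option (Fin 2)) S)
    {main : ℕ → ℕ → Prop} (hle : ∀ n p, main n p → p ≤ n)
    (sub : ∀ z ∈ M.accepts, p1 z ∈ Fl e main → p2 z ∈ Pl main)
    {A x B : List (Option (Al e) × Option (Fin 2))} (k0 : ℕ)
    (h : ∀ k, k0 ≤ k → A ++ rep x k ++ B ∈ M.accepts ∧ p1 (A ++ rep x k ++ B) ∈ Fl e main)
    (h1 : 1 ≤ (p2 x).count 1) (h0 : (p2 x).count 0 = 0) : False := by
  obtain ⟨k, hk⟩ : ∃ k, k = k0 + (p2 A).count 0 + (p2 B).count 0 + 1 := ⟨_, rfl⟩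
  obtain ⟨h2, h3⟩ := h k (by omega)
  obtain ⟨m, n, hmn, hz⟩ := sub _ h2 h3
  have hle' := hle _ _ hmn
  have hrep : ∀ (i : Fin 2) (j : ℕ), (rep (p2 x) j).count i = j * (p2 x).count i := by
    intro i j
    induction j with
    | zero => simp
    | succ j ih => rw [rep_succ, List.count_append, ih]; ring
  have c0 := congrArg (List.count (0 : Fin 2)) hz
  have c1 := congrArg (List.count (1 : Fin 2)) hz
  rw [p2_append, p2_append, p2_rep, List.count_append, List.count_append, hrep, h0] at c0
  rw [p2_append, p2_append, p2_rep, List.count_append, List.count_append, hrep] at c1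
  rw [List.count_append, List.count_replicate, List.count_replicate] at c0 c1
  simp only [beq_self_eq_true, if_true] at c0 c1
  have e01 : ((1 : Fin 2) == 0) = false := by decide
  have e10 : ((0 : Fin 2) == 1) = false := by decide
  rw [e01] at c0
  rw [e10] at c1
  simp only [Nat.mul_zero, Nat.add_zero, Nat.zero_add] at c0 c1
  have : k ≤ k * (p2 x).count 1 := Nat.le_mul_of_pos_right _ h1
  simp at c0 c1
  omega

theorem accepts_pump {α S : Type} (M : DFA α S) {A x B : List α}
    (hx : M.evalFrom (M.evalFrom M.start A) x = M.evalFrom M.start A)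
    (h : A ++ x ++ B ∈ M.accepts) (k : ℕ) : A ++ rep x k ++ B ∈ M.accepts := by
  have hrep : M.evalFrom (M.evalFrom M.start A) (rep x k) = M.evalFrom M.start A := by
    induction k with
    | zero => rfl
    | succ k ih => rw [rep_succ, evalFrom_append', hx, ih]
  have h' : M.evalFrom M.start (A ++ x ++ B) ∈ M.accept := h
  show M.evalFrom M.start (A ++ rep x k ++ B) ∈ M.accept
  rw [evalFrom_append', evalFrom_append', hx] at h'
  rw [evalFrom_append', evalFrom_append', hrep]
  exact h'

end LNC
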