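import Pool.Agent.LNC.DBase

/-!
# LNC, module DC: few outputs `1` in the `c`-zone

Proof. Let `D = card S`, `K = 2 D (2 D + 1) + 1` and suppose `(p2 zc).count 1 > K`. The output of the
whole word is in `Pl main`, hence of the form `0^m 1^n`.
(1) `p > 2 D`: otherwise `2 D (p + 1) + 1 ≤ K < (p2 zc).count 1`, and `zone` (`z1 = zu ++ zb`, `zz = zc`,
`z3 = []`, `P2 a = a.1.isSome`, so `zc.countP P2 = p`) gives a loop `x` in `zc` with `p1 x = []`, an
output `1` and no output `0`; pumping it does not change the input word: `dpump` (`k0 = 0`).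
(2) `zone` with `P2 = fun _ => false`: `zc = a ++ x ++ b`, `p1 x = c^p'`, an output `1`, no output `0`.
If `Kill u y`, the pumped words are in `F`: `dpump`. So `main |u| p`, hence `p ≤ |u|` (`hM.le`) and
`|u| > 2 D`.
(3) `dfa_block` for `zu` (`P1 a = a.1.isSome`, `P2 = fun _ => false`, `s = M.start`) gives a loop `v` in
`zu = a' ++ v ++ b'` with `p1 v = f.map inl`, `f ≠ []`. Insert it `y` times: `zu' = a' ++ rep v y ++ b'`
reads a word `u'` with `Kill u' y` (`Kill.of_rep`). `zu' ++ zb ++ (a ++ rep x k ++ b)` is accepted for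
all `k` (`M` is in the same state after `zu'` as after `zu`) and reads `word u' y (…) ∈ F`: `dpump`.
-/

namespace LNC

open RCone

private theorem DC_countP {X Y : Type} (z : List (Option X × Option Y)) :
    z.countP (fun a => a.1.isSome) = (p1 z).length := by
  unfold p1
  induction z with
  | nil => rfl
  | cons a z ih =>
    rw [List.countP_cons, List.filterMap_cons, ih]
    cases h : a.1 with
    | none => simp
    | some x => simp

private theorem DC_countP_false {α : Type} (z : List α) : z.countP (fun _ => false) = 0 := by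
  rw [List.countP_eq_zero]
  simp

private theorem DC_map_rep {α β : Type} (g : α → β) (f : List α) (n : ℕ) :
    rep (f.map g) n = (rep f n).map g := by
  induction n with
  | zero => simp
  | succ n ih => rw [rep_succ, rep_succ, List.map_append, ih]

private theorem DC_loop {α S : Type} (M : DFA α S) {s : S} {v : List α}
    (h : M.evalFrom s v = s) (k : ℕ) : M.evalFrom s (rep v k) = s := by
  induction k with
  | zero => rw [rep_zero]; rfl
  | succ k ih => rw [rep_succ, evalFrom_append', h, ih]

private theorem DC_split {α : Type} {a x b : List α} {n : ℕ} {t : α}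
    (h : a ++ x ++ b = List.replicate n t) : ∃ na nx nb, a = List.replicate na t ∧
      x = List.replicate nx t ∧ b = List.replicate nb t := by
  have h1 : ∀ y ∈ a ++ x ++ b, y = t := by
    intro y hy
    rw [h] at hy
    exact List.eq_of_mem_replicate hy
  refine ⟨a.length, x.length, b.length, ?_, ?_, ?_⟩
  · exact List.eq_replicate_iff.2 ⟨rfl, fun y hy => h1 y (by simp [hy])⟩
  · exact List.eq_replicate_iff.2 ⟨rfl, fun y hy => h1 y (by simp [hy])⟩
  · exact List.eq_replicate_iff.2 ⟨rfl, fun y hy => h1 y (by simp [hy])⟩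

private theorem DC_rep_replicate {α : Type} (t : α) (n k : ℕ) :
    rep (List.replicate n t) k = List.replicate (k * n) t := by
  induction k with
  | zero => simp
  | succ k ih =>
    rw [rep_succ, ih, ← List.replicate_add]
    congr 1
    ring

theorem dC {e : ℕ} {S : Type} [Fintype S] (M : DFA (Option (Al e) × Option (Fin 2)) S)
    {main : ℕ → ℕ → Prop} (hM : MainOK main)
    (sub : ∀ z ∈ M.accepts, p1 z ∈ Fl e main → p2 z ∈ Pl main)
    {zu zb zc : List (Option (Al e) × Option (Fin 2))} {u : List (Fin e)} {y p : ℕ}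
    (hz : zu ++ zb ++ zc ∈ M.accepts) (h1 : p1 zu = u.map Sum.inl)
    (h2 : p1 zb = List.replicate y (Sum.inr false)) (h3 : p1 zc = List.replicate p (Sum.inr true))
    (hF : Kill u y ∨ main u.length p) :
    (p2 zc).count 1 ≤ 2 * Fintype.card S * (2 * Fintype.card S + 1) + 1 := by
  by_contra hcon
  push Not at hcon
  set D := Fintype.card S with hD
  have hword : p1 (zu ++ zb ++ zc) = word u y p := by
    rw [p1_append, p1_append, h1, h2, h3]
    rfl
  obtain ⟨m, n, _, hfmt⟩ := sub _ hz ⟨u, y, p, hword, hF⟩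
  have hfmt' : p2 ((zu ++ zb) ++ zc ++ []) = List.replicate m 0 ++ List.replicate n 1 := by
    rw [List.append_nil]
    exact hfmt
  -- (1)
  have hp : 2 * D < p := by
    by_contra hp
    push Not at hp
    have hc : zc.countP (fun a => a.1.isSome) = p := by
      rw [DC_countP, h3, List.length_replicate]
    obtain ⟨a, x, b, hzc, hx, hx1, hx0, hxc⟩ := zone M (fun a => a.1.isSome)
      (M.evalFrom M.start (zu ++ zb)) hfmt' (by
        rw [hc, ← hD]
        refine lt_of_le_of_lt ?_ hcon
        have : 2 * D * (p + 1) ≤ 2 * D * (2 * D + 1) := Nat.mul_le_mul le_rfl (by omega)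
        omega)
    have hp1x : p1 x = [] := by
      rw [DC_countP] at hxc
      exact List.length_eq_zero_iff.1 hxc
    have hx' : M.evalFrom (M.evalFrom M.start (zu ++ zb ++ a)) x =
        M.evalFrom M.start (zu ++ zb ++ a) := by
      rw [evalFrom_append' M M.start (zu ++ zb) a]
      exact hx
    have hz' : (zu ++ zb ++ a) ++ x ++ b ∈ M.accepts := by
      rw [hzc] at hz
      simpa [List.append_assoc] using hz
    refine dpump M hM.le sub 0 (A := zu ++ zb ++ a) (x := x) (B := b) (fun k _ =>
      ⟨accepts_pump M hx' hz' k, ⟨u, y, p, ?_, hF⟩⟩) hx1 hx0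
    rw [← hword, hzc]
    simp [p1_rep, hp1x]
  -- (2)
  obtain ⟨a, x, b, hzc, hx, hx1, hx0, _⟩ := zone M (fun _ => false)
    (M.evalFrom M.start (zu ++ zb)) hfmt' (by
      rw [DC_countP_false, ← hD]
      refine lt_of_le_of_lt ?_ hcon
      have : 2 * D * (0 + 1) ≤ 2 * D * (2 * D + 1) := Nat.mul_le_mul le_rfl (by omega)
      omega)
  have hx' : M.evalFrom (M.evalFrom M.start (zu ++ zb ++ a)) x =
      M.evalFrom M.start (zu ++ zb ++ a) := by
    rw [evalFrom_append' M M.start (zu ++ zb) a]
    exact hx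
  have hz' : (zu ++ zb ++ a) ++ x ++ b ∈ M.accepts := by
    rw [hzc] at hz
    simpa [List.append_assoc] using hz
  have h3' : p1 a ++ p1 x ++ p1 b = List.replicate p (Sum.inr true) := by
    rw [← p1_append, ← p1_append, ← hzc, h3]
  obtain ⟨pa, px, pb, ea, ex, eb⟩ := DC_split h3'
  have hcz : ∀ k, p1 a ++ rep (p1 x) k ++ p1 b =
      List.replicate (pa + k * px + pb) (Sum.inr true : Al e) := by
    intro k
    rw [ea, ex, eb, DC_rep_replicate, ← List.replicate_add, ← List.replicate_add]
  have hnk : ¬ Kill u y := by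
    intro hkill
    refine dpump M hM.le sub 0 (A := zu ++ zb ++ a) (x := x) (B := b) (fun k _ =>
      ⟨accepts_pump M hx' hz' k, ⟨u, y, pa + k * px + pb, ?_, Or.inl hkill⟩⟩) hx1 hx0
    rw [word, ← h1, ← h2, ← hcz k]
    simp [p1_rep, List.append_assoc]
  have hmain : main u.length p := hF.resolve_left hnk
  have hpu : p ≤ u.length := hM.le _ _ hmain
  -- (3)
  obtain ⟨a', v, b', hzu, hv, hv1, _⟩ := dfa_block M (fun a => a.1.isSome) (fun _ => false) M.start zu
    (by
      rw [DC_countP_false, DC_countP, h1, List.length_map, ← hD]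
      omega)
  have h1' : u.map Sum.inl = (p1 a' ++ p1 v) ++ p1 b' := by
    rw [← p1_append, ← p1_append, ← hzu, h1]
  obtain ⟨uaf, ub, hu1, hu2, hub⟩ := List.map_eq_append_iff.1 h1'
  obtain ⟨ua, f, hu3, hua, hf⟩ := List.map_eq_append_iff.1 hu2
  have hfne : f ≠ [] := by
    intro h0
    rw [h0, List.map_nil] at hf
    rw [DC_countP, ← hf, List.length_nil] at hv1
    exact lt_irrefl _ hv1
  have hkill : Kill (ua ++ rep f y ++ ub) y := Kill.of_rep hfne le_rfl
  have hst : M.evalFrom M.start (a' ++ rep v y ++ b') = M.evalFrom M.start zu := by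
    rw [hzu, evalFrom_append', evalFrom_append', evalFrom_append', evalFrom_append',
      DC_loop M hv, hv]
  have hp1u : p1 (a' ++ rep v y ++ b') = (ua ++ rep f y ++ ub).map Sum.inl := by
    rw [p1_append, p1_append, p1_rep, ← hua, ← hf, ← hub, DC_map_rep, List.map_append,
      List.map_append]
  have hx'' : M.evalFrom (M.evalFrom M.start ((a' ++ rep v y ++ b') ++ zb ++ a)) x =
      M.evalFrom M.start ((a' ++ rep v y ++ b') ++ zb ++ a) := by
    have hs : M.evalFrom M.start ((a' ++ rep v y ++ b') ++ zb ++ a) =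
        M.evalFrom M.start (zu ++ zb ++ a) := by
      rw [List.append_assoc _ zb a, evalFrom_append' M M.start (a' ++ rep v y ++ b') (zb ++ a), hst,
        List.append_assoc zu zb a, evalFrom_append' M M.start zu (zb ++ a)]
    rw [hs]
    exact hx'
  have hz'' : ((a' ++ rep v y ++ b') ++ zb ++ a) ++ x ++ b ∈ M.accepts := by
    rw [DFA.mem_accepts, DFA.eval] at hz' ⊢
    have e1 : ((a' ++ rep v y ++ b') ++ zb ++ a) ++ x ++ b =
        (a' ++ rep v y ++ b') ++ (zb ++ a ++ x ++ b) := by simp [List.append_assoc]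
    have e2 : (zu ++ zb ++ a) ++ x ++ b = zu ++ (zb ++ a ++ x ++ b) := by
      simp [List.append_assoc]
    rw [e1, evalFrom_append', hst, ← evalFrom_append', ← e2]
    exact hz'
  refine dpump M hM.le sub 0 (A := (a' ++ rep v y ++ b') ++ zb ++ a) (x := x) (B := b) (fun k _ =>
    ⟨accepts_pump M hx'' hz'' k, ⟨ua ++ rep f y ++ ub, y, pa + k * px + pb, ?_, Or.inl hkill⟩⟩)
    hx1 hx0
  rw [word, ← hp1u, ← h2, ← hcz k]
  simp [p1_rep, List.append_assoc]

end LNC
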