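import Pool.Agent.LNC.DU
import Pool.Agent.LNC.DB
import Pool.Agent.LNC.DC

/-!
# LNC, module DPrime (assembly): a rational image of `F` inside `S_main` has bounded exponents
-/

namespace LNC

open RCone

theorem dPrime {e : ℕ} {main : ℕ → ℕ → Prop} (hM : MainOK main)
    (σ : Set (List (Al e) × List (Fin 2))) (hσ : IsRational σ)
    (sub : im σ (Fl e main) ≤ Pl main) :
    ∃ K, ∀ m n : ℕ, List.replicate m 0 ++ List.replicate n 1 ∈ im σ (Fl e main) → n < K := by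
  obtain ⟨R, ⟨S, hS, M, rfl⟩, hR⟩ := hσ
  have sub' : ∀ z ∈ M.accepts, p1 z ∈ Fl e main → p2 z ∈ Pl main := fun z hz h =>
    sub ⟨p1 z, h, (hR _ _).2 ⟨z, hz, rfl, rfl⟩⟩
  refine ⟨(2 * Fintype.card S + 1) + (2 * Fintype.card S * (2 * Fintype.card S + 1) + 1) +
    (2 * Fintype.card S * (2 * Fintype.card S + 1) + 1) + 1, ?_⟩
  rintro m n ⟨w, ⟨u, y, p, rfl, hF⟩, hw⟩
  obtain ⟨z, hz, h1, h2⟩ := (hR _ _).1 hw
  rw [p1, word, List.filterMap_eq_append_iff] at h1
  obtain ⟨zub, zc, rfl, h3, h4⟩ := h1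
  rw [List.filterMap_eq_append_iff] at h3
  obtain ⟨zu, zb, rfl, h5, h6⟩ := h3
  have c1 := dU M hM sub' hz h5 h6 h4 hF
  have c2 := dB M hM sub' hz h5 h6 h4 hF
  have c3 := dC M hM sub' hz h5 h6 h4 hF
  have c4 := congrArg (List.count (1 : Fin 2)) h2
  rw [p2_append, p2_append] at c4
  simp only [List.count_append, List.count_replicate] at c4
  simp at c4
  omega

end LNC
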