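import Pool.Agent.LNC.DBase

/-!
# LNC, module DU: few outputs `1` in the `u`-zone

`M` accepts a regular language over `Option (Al e) × Option (Fin 2)` which maps `F` into `S_main`
(`sub`). The accepted word `zu ++ zb ++ zc` reads `u`, `b^y`, `c^p`.

Proof. Let `D = card S` and suppose `(p2 zu).count 1 > 2 D + 1`. The output of the whole word is in
`Pl main`, hence of the form `0^m 1^n`. `zone` with `z1 = []`, `zz = zu`, `z3 = zb ++ zc`,
`P2 = fun _ => false`, `s = M.start`: `zu = a ++ x ++ b`, a loop `x` with at least one output `1` and no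
output `0`. `p1 x = f.map inl`, `p1 a = u1.map inl`, `p1 b = u2.map inl`, `u = u1 ++ f ++ u2`
(`List.filterMap_append`, `List.map_eq_append_iff`). For every `k`, `a ++ rep x k ++ (b ++ zb ++ zc)` is
accepted (`accepts_pump`) and reads `word (u1 ++ rep f k ++ u2) y p`. If `f = []` this is
`word u y p ∈ F`. Otherwise for `k ≥ y` it is killed (`Kill.of_rep`). So it is in `F` for all `k ≥ y`;
`dpump`.
-/

namespace LNC

open RCone

theorem dU {e : ℕ} {S : Type} [Fintype S] (M : DFA (Option (Al e) × Option (Fin 2)) S)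
    {main : ℕ → ℕ → Prop} (hM : MainOK main)
    (sub : ∀ z ∈ M.accepts, p1 z ∈ Fl e main → p2 z ∈ Pl main)
    {zu zb zc : List (Option (Al e) × Option (Fin 2))} {u : List (Fin e)} {y p : ℕ}
    (hz : zu ++ zb ++ zc ∈ M.accepts) (h1 : p1 zu = u.map Sum.inl)
    (h2 : p1 zb = List.replicate y (Sum.inr false)) (h3 : p1 zc = List.replicate p (Sum.inr true))
    (hF : Kill u y ∨ main u.length p) :
    (p2 zu).count 1 ≤ 2 * Fintype.card S + 1 := by
  by_contra hcon
  push Not at hcon
  have hp1 : ∀ a b : List (Option (Al e) × Option (Fin 2)), p1 (a ++ b) = p1 a ++ p1 b := by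
    intro a b
    simp [p1, List.filterMap_append]
  have hp1r : ∀ (a : List (Option (Al e) × Option (Fin 2))) (k : ℕ),
      p1 (rep a k) = rep (p1 a) k := fun a k => filterMap_rep _ _ _
  have hmapr : ∀ (f : List (Fin e)) (k : ℕ),
      (rep f k).map (Sum.inl : Fin e → Al e) = rep (f.map Sum.inl) k := by
    intro f k
    induction k with
    | zero => simp
    | succ k ih => rw [rep_succ, rep_succ, List.map_append, ih]
  have hw : p1 (zu ++ zb ++ zc) = word u y p := by
    rw [hp1, hp1, h1, h2, h3, word]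
  obtain ⟨m, n, hmn, hfmt⟩ := sub _ hz (by rw [hw]; exact ⟨u, y, p, rfl, hF⟩)
  have hfmt' : p2 ([] ++ zu ++ (zb ++ zc)) = List.replicate m 0 ++ List.replicate n 1 := by
    rw [List.nil_append, ← List.append_assoc]
    exact hfmt
  obtain ⟨a, x, b, hzu, hloop, h1x, h0x, -⟩ := zone M (fun _ => false) M.start hfmt' (by
    have : zu.countP (fun _ => false) = 0 := by simp
    rw [this]
    omega)
  have hsplit : p1 a ++ p1 x ++ p1 b = u.map Sum.inl := by
    rw [← h1, hzu, hp1, hp1]
  obtain ⟨u12, u2, hu, h12, hb2⟩ := List.map_eq_append_iff.1 hsplit.symm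
  obtain ⟨u1, f, hu12, ha1, hx1⟩ := List.map_eq_append_iff.1 h12
  have hz' : a ++ x ++ (b ++ zb ++ zc) ∈ M.accepts := by
    have : a ++ x ++ (b ++ zb ++ zc) = zu ++ zb ++ zc := by rw [hzu]; simp
    rw [this]
    exact hz
  refine dpump M hM.le sub (A := a) (x := x) (B := b ++ zb ++ zc) y (fun k hk => ?_) h1x h0x
  refine ⟨accepts_pump M hloop hz' k, ?_⟩
  have hword : p1 (a ++ rep x k ++ (b ++ zb ++ zc)) = word (u1 ++ rep f k ++ u2) y p := by
    rw [hp1, hp1, hp1, hp1, hp1r, h2, h3, ← ha1, ← hx1, ← hb2, word, List.map_append,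
      List.map_append, hmapr]
    simp only [List.append_assoc]
  rw [hword]
  refine ⟨_, _, _, rfl, ?_⟩
  by_cases hf : f = []
  · have : u1 ++ rep f k ++ u2 = u := by
      rw [hf, rep_nil, hu, hu12, hf]
    rw [this]
    exact hF
  · exact Or.inl (Kill.of_rep hf hk)

end LNC
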