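import Mathlib
import Pool.Agent.RC.Words

/-!
# Squad LNC (MP_6a7e21_lc): linear languages have no lower neighbours below `S_=`, `S_≤`, `S_≥`

Definitions.  `rep u n` is the word `u` repeated `n` times (from `RCone`), `p1 z`, `p2 z` are the
words of first/second components of a word `z` over `Option X × Option Y`.
-/

namespace LNC

open RCone

/-! ### The languages -/

/-- Letters: `g_i = Sum.inl i`, `b = Sum.inr false`, `c = Sum.inr true`. -/
abbrev Al (e : ℕ) : Type := Fin e ⊕ Bool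

/-- `u` has a factor `f` all whose letters are `≤ g_i`, with at least `y` letters `g_i`. -/
def Kill {e : ℕ} (u : List (Fin e)) (y : ℕ) : Prop :=
  ∃ (i : Fin e) (x f x' : List (Fin e)), u = x ++ f ++ x' ∧ (∀ a ∈ f, a ≤ i) ∧ y ≤ f.count i

/-- the word `u b^y c^p` -/
def word {e : ℕ} (u : List (Fin e)) (y p : ℕ) : List (Al e) :=
  u.map Sum.inl ++ List.replicate y (Sum.inr false) ++ List.replicate p (Sum.inr true)

/-- The language `F`: words `u b^y c^p` with `Kill u y` or `main |u| p`. -/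
def Fl (e : ℕ) (main : ℕ → ℕ → Prop) : Language (Al e) :=
  {w | ∃ (u : List (Fin e)) (y p : ℕ), w = word u y p ∧ (Kill u y ∨ main u.length p)}

/-- The language `{0^m 1^n : main m n}`. -/
def Pl (main : ℕ → ℕ → Prop) : Language (Fin 2) :=
  {w | ∃ m n : ℕ, main m n ∧ w = List.replicate m 0 ++ List.replicate n 1}

/-- `main` of the language `S_= = {0^n 1^n}` -/
def meq (m n : ℕ) : Prop := m = n
/-- `main` of the language `S_≤ = {0^m 1^n : n ≤ m}` -/
def mle (m n : ℕ) : Prop := n ≤ m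

/-- The language of the palindromes `v · rev v` over two letters. -/
def Pal : Language (Fin 2) := {w | ∃ v : List (Fin 2), w = v ++ v.reverse}

/-- The properties of `meq` and `mle` which are used. -/
structure MainOK (main : ℕ → ℕ → Prop) : Prop where
  refl : ∀ n, main n n
  le : ∀ n p, main n p → p ≤ n
  up : ∀ n a b, main (n + a) (n + b) → b ≤ a
  down : ∀ n a b, a ≤ n → b ≤ n → main (n - a) (n - b) → a ≤ b
  far : ∀ n p d f, ¬ main n p → n < f → ¬ main n (p + f * d)
  dich : (∀ m n n', 0 < n' → n' ≤ n → main m n → ¬ main m (n - n')) ∨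
    (∀ p, ∃ N, ∀ n, N ≤ n → main n p)

theorem meq_ok : MainOK meq := by
  refine ⟨fun _ => rfl, fun n p h => le_of_eq h.symm, fun n a b h => ?_, fun n a b ha hb h => ?_,
    fun n p d f h hf h' => ?_, Or.inl fun m n n' h0 h1 h2 h3 => ?_⟩ <;> unfold meq at *
  · omega
  · omega
  · rcases Nat.eq_zero_or_pos d with rfl | hd
    · simp at h'; exact h h'
    · have : f ≤ f * d := Nat.le_mul_of_pos_right f hd
      omega
  · omega

theorem mle_ok : MainOK mle := by
  refine ⟨fun _ => le_rfl, fun n p h => h, fun n a b h => ?_, fun n a b ha hb h => ?_,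
    fun n p d f h hf h' => ?_, Or.inr fun p => ⟨p, fun n hn => hn⟩⟩ <;> unfold mle at *
  · omega
  · omega
  · have := Nat.zero_le (f * d)
    omega

/-! ### Words indexed by intervals -/

/-- `X i · X (i+1) ⋯ X (j-1)` -/
def cat {α : Type} (X : ℕ → List α) (i j : ℕ) : List α :=
  ((List.range' i (j - i)).map X).flatten

/-! ### Two-head step relations -/

/-- `rel q ξ η q'`: there is a computation from `q` to `q'` which reads `ξ` with the left head and
`η` with the right head. -/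
structure StepRel (Q Γ : Type) where
  rel : Q → List Γ → List Γ → Q → Prop
  nil : ∀ q, rel q [] [] q
  append : ∀ {q q' q'' : Q} {ξ ξ' η η' : List Γ}, rel q ξ η q' → rel q' ξ' η' q'' →
    rel q (ξ ++ ξ') (η ++ η') q''
  splitL : ∀ {q q'' : Q} {ξ ξ' η : List Γ}, rel q (ξ ++ ξ') η q'' →
    ∃ (η₁ η₂ : List Γ) (q' : Q), η = η₁ ++ η₂ ∧ rel q ξ η₁ q' ∧ rel q' ξ' η₂ q''
  splitR : ∀ {q q'' : Q} {ξ η η' : List Γ}, rel q ξ (η ++ η') q'' →
    ∃ (ξ₁ ξ₂ : List Γ) (q' : Q), ξ = ξ₁ ++ ξ₂ ∧ rel q ξ₁ η q' ∧ rel q' ξ₂ η' q''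

/-! ### Outputs -/

section Out

variable {e : ℕ} {Γ : Type} (out : Γ → Option (Al e))

/-- the letters `g_i` which are output by `ζ` -/
def gl (ζ : List Γ) : List (Fin e) := ζ.filterMap (fun a => (out a).bind Sum.getLeft?)

/-- number of the letters `b` which are output by `ζ` -/
def yb (ζ : List Γ) : ℕ := ζ.countP (fun a => decide (out a = some (Sum.inr false)))

/-- number of the letters `c` which are output by `ζ` -/
def pc (ζ : List Γ) : ℕ := ζ.countP (fun a => decide (out a = some (Sum.inr true)))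

end Out

/-! ### Configurations -/

/-- state of the linear automaton, state of the automaton of the transduction before the left head,
set of the states from which the word read by the right head is accepted -/
abbrev Conf (Q S : Type) : Type := Q × S × Set S

theorem evalFrom_append' {Γ S : Type} (M : DFA Γ S) (s : S) (u v : List Γ) :
    M.evalFrom s (u ++ v) = M.evalFrom (M.evalFrom s u) v := by
  simp [DFA.evalFrom]

/-- The step relation on configurations. -/
def conf {Q S Γ : Type} (SR : StepRel Q Γ) (M : DFA Γ S) : StepRel (Conf Q S) Γ where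
  rel c ξ η c' := SR.rel c.1 ξ η c'.1 ∧ M.evalFrom c.2.1 ξ = c'.2.1 ∧
    {x | M.evalFrom x η.reverse ∈ c.2.2} = c'.2.2
  nil c := ⟨SR.nil c.1, rfl, rfl⟩
  append := by
    rintro c c' c'' ξ ξ' η η' ⟨h1, h2, h3⟩ ⟨h4, h5, h6⟩
    refine ⟨SR.append h1 h4, ?_, ?_⟩
    · rw [evalFrom_append', h2, h5]
    · rw [← h6, ← h3]
      ext x
      simp [List.reverse_append, evalFrom_append']
  splitL := by
    rintro c c'' ξ ξ' η ⟨h1, h2, h3⟩
    obtain ⟨η₁, η₂, q', rfl, h4, h5⟩ := SR.splitL h1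
    refine ⟨η₁, η₂, (q', M.evalFrom c.2.1 ξ, {x | M.evalFrom x η₁.reverse ∈ c.2.2}), rfl,
      ⟨h4, rfl, rfl⟩, ⟨h5, ?_, ?_⟩⟩
    · rw [← h2, evalFrom_append']
    · rw [← h3]
      ext x
      simp [List.reverse_append, evalFrom_append']
  splitR := by
    rintro c c'' ξ η η' ⟨h1, h2, h3⟩
    obtain ⟨ξ₁, ξ₂, q', rfl, h4, h5⟩ := SR.splitR h1
    refine ⟨ξ₁, ξ₂, (q', M.evalFrom c.2.1 ξ₁, {x | M.evalFrom x η.reverse ∈ c.2.2}), rfl,
      ⟨h4, rfl, rfl⟩, ⟨h5, ?_, ?_⟩⟩
    · rw [← h2, evalFrom_append']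
    · rw [← h3]
      ext x
      simp [List.reverse_append, evalFrom_append']

/-! ### The context: a linear language and a rational transduction onto `F` -/

/-- `SR, q0, acc` describe the set `mem` of the words `ξ · rev η` with `rel q0 ξ η q`, `q ∈ acc`;
the image of `mem ∩ L(M)` under the letter-to-letter-or-empty output function `out` is `F`. -/
structure Ctx (e : ℕ) (main : ℕ → ℕ → Prop) (Q S Γ : Type) where
  out : Γ → Option (Al e)
  SR : StepRel Q Γ
  M : DFA Γ S
  q0 : Q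
  acc : Set Q
  sound : ∀ (ξ η : List Γ) (q : Q), SR.rel q0 ξ η q → q ∈ acc → ξ ++ η.reverse ∈ M.accepts →
    (ξ ++ η.reverse).filterMap out ∈ Fl e main
  complete : ∀ w ∈ Fl e main, ∃ (ξ η : List Γ) (q : Q), SR.rel q0 ξ η q ∧ q ∈ acc ∧
    ξ ++ η.reverse ∈ M.accepts ∧ (ξ ++ η.reverse).filterMap out = w

namespace Ctx

variable {e : ℕ} {main : ℕ → ℕ → Prop} {Q S Γ : Type} (C : Ctx e main Q S Γ)

/-- the step relation on configurations -/
def CR : StepRel (Conf Q S) Γ := conf C.SR C.M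

/-- the initial configuration -/
def c0 : Conf Q S := (C.q0, C.M.start, C.M.accept)

/-- the accepting configurations -/
def Acc : Set (Conf Q S) := {c | c.1 ∈ C.acc ∧ c.2.1 ∈ c.2.2}

/-- the words accepted by the linear automaton -/
def mem (ζ : List Γ) : Prop :=
  ∃ (ξ η : List Γ) (q : Q), ζ = ξ ++ η.reverse ∧ C.SR.rel C.q0 ξ η q ∧ q ∈ C.acc

end Ctx

/-- what follows from `S_= ∉ T(B)` -/
def OffEq {Γ : Type} (mem : List Γ → Prop) : Prop :=
  ∀ X0 Y0 X1 Y1 X2 : List Γ, (∀ r, mem (X0 ++ rep Y0 r ++ X1 ++ rep Y1 r ++ X2)) →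
    ∃ r s, r ≠ s ∧ mem (X0 ++ rep Y0 r ++ X1 ++ rep Y1 s ++ X2)

/-- what follows from `S_≤ ∉ T(B)` -/
def OffLe {Γ : Type} (mem : List Γ → Prop) : Prop :=
  ∀ X0 Y0 X1 Y1 X2 : List Γ, (∀ r, mem (X0 ++ rep Y0 r ++ X1 ++ rep Y1 r ++ X2)) →
    ∃ r, ∀ s0, ∃ s, s0 ≤ s ∧ mem (X0 ++ rep Y0 r ++ X1 ++ rep Y1 s ++ X2)

/-! ### Periods -/

/-- `w` leads from the position `t` of the periodic word `π π π ⋯` to a position congruent to `t'`:
`(π.take t) ++ w = π^c ++ (π.take t')` for some `c`. -/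
def Per {Γ : Type} (π : List Γ) (t : ℕ) (w : List Γ) (t' : ℕ) : Prop :=
  t < π.length ∧ t' < π.length ∧ ∃ c, π.take t ++ w = rep π c ++ π.take t'

/-! ### Nested loops -/

section Nest

variable {e : ℕ} {main : ℕ → ℕ → Prop} {Q S Γ : Type} (C : Ctx e main Q S Γ)

/-- a balanced loop of level `i`: the left word outputs letters `≤ g_i` only, at least one `g_i`, the
right word outputs letters `c` only, as many as the left word outputs letters `g`. -/
def NW (i : ℕ) (c : Conf Q S) (V G : List Γ) : Prop :=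
  C.CR.rel c V G c ∧ (∀ a ∈ gl C.out V, (a : ℕ) ≤ i) ∧ (∃ a ∈ gl C.out V, (a : ℕ) = i) ∧
    yb C.out V = 0 ∧ pc C.out V = 0 ∧ gl C.out G = [] ∧ yb C.out G = 0 ∧
    pc C.out G = (gl C.out V).length

/-- nested loops: the loop of level `i + 1` contains `m` copies of a loop of level `i`; `cb` is the
configuration of the innermost loop (level `0`). -/
def Nest (m : ℕ) (cb : Conf Q S) : ℕ → Conf Q S → List Γ → List Γ → Prop
  | 0, c, V, G => c = cb ∧ NW C 0 c V G
  | i + 1, c, V, G => NW C (i + 1) c V G ∧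
      ∃ (c' : Conf Q S) (X Xr V' G' Z Zr : List Γ), V = X ++ rep V' m ++ Z ∧
        G = Xr ++ rep G' m ++ Zr ∧ C.CR.rel c X Xr c' ∧ C.CR.rel c' Z Zr c ∧ Nest m cb i c' V' G'

/-- the part of `Nest` which concerns the left words only -/
def LNest {Γ S : Type} {e : ℕ} (out : Γ → Option (Al e)) (M : DFA Γ S) (m : ℕ) (σ0 : S) :
    ℕ → S → List Γ → Prop
  | 0, σ, V => σ = σ0 ∧ M.evalFrom σ V = σ ∧ (∀ a ∈ gl out V, (a : ℕ) ≤ 0) ∧
      (∃ a ∈ gl out V, (a : ℕ) = 0) ∧ yb out V = 0 ∧ pc out V = 0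
  | i + 1, σ, V => (M.evalFrom σ V = σ ∧ (∀ a ∈ gl out V, (a : ℕ) ≤ i + 1) ∧
      (∃ a ∈ gl out V, (a : ℕ) = i + 1) ∧ yb out V = 0 ∧ pc out V = 0) ∧
      ∃ (σ' : S) (X V' Z : List Γ), V = X ++ rep V' m ++ Z ∧ M.evalFrom σ X = σ' ∧
        M.evalFrom σ' Z = σ ∧ LNest out M m σ0 i σ' V'

end Nest

end LNC
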