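import Pool.Agent.LNC.Defs

/-!
# Squad LNC: the data which are passed between the steps
-/

namespace LNC

open RCone

/-- The nested words `U_0 = g_0`, `U_{i+1} = U_i^n g_{i+1}`. -/
def Uw (e : ℕ) [NeZero e] (n : ℕ) : ℕ → List (Fin e)
  | 0 => [Fin.ofNat e 0]
  | i + 1 => rep (Uw e n i) n ++ [Fin.ofNat e (i + 1)]

section

variable {e : ℕ} {main : ℕ → ℕ → Prop} {Q S Γ : Type} (C : Ctx e main Q S Γ)

/-- The loop `(βl | βr)` at the configuration `cβ` outputs letters `b` only; `(nl | nr)` leads from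
`cβ` to the accepting configuration `cf`. -/
structure BetaData (cβ cf : Conf Q S) (βl βr nl nr : List Γ) : Prop where
  hβ : C.CR.rel cβ βl βr cβ
  hn : C.CR.rel cβ nl nr cf
  acc : cf ∈ C.Acc
  glβl : gl C.out βl = []
  glβr : gl C.out βr = []
  pcβl : pc C.out βl = 0
  pcβr : pc C.out βr = 0
  ybβ : 1 ≤ yb C.out βl + yb C.out βr

/-- The data of level `j`: `(ℓ | h)` leads from the initial configuration to `c`, `(V | G)` is a
nested loop of level `j` at `c`, `(mm | mr)` leads from `c` to `cβ`. The total number of the output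
letters `g` without `V` equals the total number of the output letters `c` without `G`. -/
structure Lev (m j : ℕ) (cb cβ : Conf Q S) (βl nl nr : List Γ) (c : Conf Q S)
    (ℓ h V G mm mr : List Γ) : Prop where
  h1 : C.CR.rel C.c0 ℓ h c
  nest : Nest C m cb j c V G
  h2 : C.CR.rel c mm mr cβ
  glh : gl C.out h = []
  glmr : gl C.out mr = []
  gln : 1 ≤ yb C.out βl → gl C.out nl = [] ∧ gl C.out nr = []
  bal : (gl C.out ℓ).length + (gl C.out mm).length + (gl C.out nl).length + (gl C.out nr).length =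
    pc C.out ℓ + pc C.out h + pc C.out mm + pc C.out mr + pc C.out nl + pc C.out nr

/-- The pattern word `ℓ v mm βl^t1 nl · rev (h G^s mr βr^t2 nr)`. -/
def pat (βl βr nl nr ℓ h G mm mr v : List Γ) (t1 t2 s : ℕ) : List Γ :=
  ℓ ++ v ++ mm ++ rep βl t1 ++ nl ++ (h ++ rep G s ++ mr ++ rep βr t2 ++ nr).reverse

/-- The period word of the right head in the `b`-zone: `rev βl` if `βl` outputs a letter `b`, and
`βr` otherwise. -/
def piW (βl βr : List Γ) : List Γ := if 1 ≤ yb C.out βl then βl.reverse else βr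

/-- The loop which is found for level `j` in the `b`-zone. `π` is the period word of the right head,
`σ` the state of `M` at the loop `V`. -/
structure LoopData (σ : S) (V π : List Γ) where
  ℓ : List Γ
  m : List Γ
  n : ℕ → List Γ
  q : Q
  qf : Q
  p0 : Q
  t : ℕ
  k : ℕ
  r1 : ℕ
  r2 : ℕ
  t0 : ℕ
  x0 : List Γ
  x1 : List Γ
  x2 : List Γ
  y0 : List Γ
  y2 : List Γ
  Y : List Γ
  w : List Γ
  hk : 1 ≤ k
  hqf : qf ∈ C.acc
  hn : ∀ i, C.SR.rel C.q0 x0 (n i).reverse p0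
  h1 : C.SR.rel p0 x1 y0 q
  per1 : Per π 0 y0 t
  e1 : x0 ++ x1 = ℓ ++ rep V r1
  h2 : C.SR.rel q (rep V k) w q
  per2 : Per π t w t
  yw : 1 ≤ yb C.out w
  h3 : C.SR.rel q x2 (y2 ++ Y) qf
  per3 : Per π t y2 0
  e3 : x2 ++ Y.reverse = rep V r2 ++ m ++ rep π.reverse t0
  hσ : C.M.evalFrom σ V = σ
  hVp : pc C.out V = 0
  hR : ∀ (v : List Γ) (i j : ℕ), C.M.evalFrom σ v = σ →
    ℓ ++ v ++ m ++ rep π.reverse i ++ n j ∈ C.M.accepts
  glπ : gl C.out π = []
  pcπ : pc C.out π = 0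
  gln : ∀ i, gl C.out (n i) = []
  hfail : ∃ L0, ∀ N, L0 ≤ N → ∃ i, ¬ main N (pc C.out ℓ + pc C.out m + pc C.out (n i))

end

/-- `B = {x · rev y : (x, y) ∈ θ}` for a rational relation `θ`, i.e. `B` is linear. -/
def IsLin {Y : Type} (B : Language Y) : Prop :=
  ∃ R : Language (Option Y × Option Y), R.IsRegular ∧
    ∀ w, w ∈ B ↔ ∃ z ∈ R, w = p1 z ++ (p2 z).reverse

/-- `B` as a member of a cone -/
abbrev mk {n : ℕ} (B : Language (Fin n)) : Σ n : ℕ, Language (Fin n) := ⟨n, B⟩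

end LNC
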