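import Pool.Agent.LNC.Defs2
import Pool.Agent.RC.Cone

/-!
# LNC, module Enc: the language `F` over the alphabet `Fin (e + 2)`

Proof. The word map `w ↦ w.map (enc e)` is a bijection of words with inverse `w ↦ w.map (enc e).symm`.
`→`: if `FF e main = im τ B`, compose `τ` with the letter map `(enc e).symm` (`IsRational.letterMap`,
`IsRational.comp`). `←`: compose with the letter map `enc e`.
`ff_im`: if `σ` is a rational relation from `(Fin (e+2))*`, then `σ` composed with the letter map
`enc e` in front has the same image: `im σ' (Fl e main) = im σ (FF e main)`.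
-/

namespace LNC

open RCone

/-- numbering of the letters -/
def enc (e : ℕ) : Al e ≃ Fin (e + 2) :=
  (Equiv.sumCongr (Equiv.refl (Fin e)) finTwoEquiv.symm).trans finSumFinEquiv

/-- `F` over the alphabet `Fin (e + 2)` -/
def FF (e : ℕ) (main : ℕ → ℕ → Prop) : Language (Fin (e + 2)) :=
  {w | ∃ v ∈ Fl e main, w = v.map (enc e)}

private theorem Enc_map_symm {e : ℕ} (v : List (Al e)) : (v.map (enc e)).map (enc e).symm = v := by
  rw [List.map_map]
  simp

theorem ff_mem {X : Type} {e : ℕ} {main : ℕ → ℕ → Prop} (B : Language X) :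
    mk (FF e main) ∈ T B ↔ ∃ ρ : Set (List X × List (Al e)), IsRational ρ ∧ im ρ B = Fl e main := by
  constructor
  · rintro ⟨τ, hτ, h⟩
    refine ⟨_, IsRational.comp hτ (IsRational.letterMap (enc e).symm), ?_⟩
    have h' : FF e main = im τ B := h
    ext w
    constructor
    · rintro ⟨u, hu, v, h1, h2⟩
      have h3 : v ∈ FF e main := by
        rw [h']
        exact ⟨u, hu, h1⟩
      obtain ⟨x, hx, rfl⟩ := h3
      have h4 : w = (x.map (enc e)).map (enc e).symm := h2
      rw [Enc_map_symm] at h4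
      exact h4 ▸ hx
    · intro hw
      have h3 : w.map (enc e) ∈ im τ B := by
        rw [← h']
        exact ⟨w, hw, rfl⟩
      obtain ⟨u, hu, h1⟩ := h3
      exact ⟨u, hu, w.map (enc e), h1, (Enc_map_symm w).symm⟩
  · rintro ⟨ρ, hρ, h⟩
    refine ⟨_, IsRational.comp hρ (IsRational.letterMap (enc e)), ?_⟩
    show FF e main = _
    ext w
    constructor
    · rintro ⟨v, hv, rfl⟩
      rw [← h] at hv
      obtain ⟨u, hu, h1⟩ := hv
      exact ⟨u, hu, v, h1, rfl⟩
    · rintro ⟨u, hu, v, h1, h2⟩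
      refine ⟨v, ?_, h2⟩
      rw [← h]
      exact ⟨u, hu, h1⟩

theorem ff_im {Y : Type} {e : ℕ} {main : ℕ → ℕ → Prop}
    (σ : Set (List (Fin (e + 2)) × List Y)) (hσ : IsRational σ) :
    ∃ σ' : Set (List (Al e) × List Y), IsRational σ' ∧ im σ' (Fl e main) = im σ (FF e main) := by
  refine ⟨_, IsRational.comp (IsRational.letterMap (enc e)) hσ, ?_⟩
  ext w
  constructor
  · rintro ⟨u, hu, v, h1, h2⟩
    exact ⟨v, ⟨u, hu, h1⟩, h2⟩
  · rintro ⟨v, ⟨u, hu, rfl⟩, h2⟩
    exact ⟨u, hu, u.map (enc e), rfl, h2⟩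

end LNC
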