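import Pool.Agent.LNC.Cnt

/-!
# LNC, module PerL: positions modulo a period

`Per π t w t'`: `t, t' < |π|` and `π.take t ++ w = rep π c ++ π.take t'` for some `c`.

Proofs.
* `nil`: `c = 0`. `of_rep`: `π.take 0 = []`.
* `append`: `π.take t ++ w ++ w' = rep π c ++ π.take t' ++ w' = rep π c ++ rep π c' ++ π.take t''`
  (`rep_add`).
* `split`: let `π.take t ++ w ++ w' = rep π c ++ π.take t''`. This word is a prefix of
  `rep π (c+1)`. Let `|π.take t ++ w| = c₁ |π| + t'` with `t' < |π|` (`Nat.div_add_mod`). Then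
  `c₁ ≤ c` (compare lengths) and `π.take t ++ w = (rep π (c+1)).take (c₁ |π| + t') =
  rep π c₁ ++ π.take t'` (write `c + 1 = c₁ + (1 + (c - c₁))`, `rep_add`, `List.take_append`…).
  Cancelling `rep π c₁` gives `π.take t' ++ w' = rep π (c - c₁) ++ π.take t''`.
* `loop`: compare lengths and `countP` in `π.take t ++ w = rep π c ++ π.take t`.
* `zero`: `π.take 0 = []`.
* `perRel`: the product of `SR` with `Per`.
-/

namespace LNC

open RCone

variable {Q Γ : Type}

private theorem PerL_countP (u : List Γ) (P : Γ → Bool) (n : ℕ) :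
    (rep u n).countP P = n * u.countP P := by
  induction n with
  | zero => simp
  | succ n ih => rw [rep_succ, List.countP_append, ih]; ring

theorem Per.nil {π : List Γ} {t : ℕ} (h : t < π.length) : Per π t [] t :=
  ⟨h, h, 0, by rw [rep_zero, List.append_nil, List.nil_append]⟩

theorem Per.of_rep {π : List Γ} (h : 0 < π.length) (c : ℕ) : Per π 0 (rep π c) 0 :=
  ⟨h, h, c, by simp⟩

theorem Per.append {π w w' : List Γ} {t t' t'' : ℕ} (h : Per π t w t') (h' : Per π t' w' t'') :
    Per π t (w ++ w') t'' := by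
  obtain ⟨h1, h2, c, hc⟩ := h
  obtain ⟨h3, h4, c', hc'⟩ := h'
  refine ⟨h1, h4, c + c', ?_⟩
  rw [← List.append_assoc, hc, List.append_assoc, hc', ← List.append_assoc, rep_add]

theorem Per.split {π w w' : List Γ} {t t'' : ℕ} (h : Per π t (w ++ w') t'') :
    ∃ t', Per π t w t' ∧ Per π t' w' t'' := by
  obtain ⟨h1, h2, c, hc⟩ := h
  have hL : 0 < π.length := by omega
  rw [← List.append_assoc] at hc
  set W := π.take t ++ w with hW
  set N := W.length with hN
  have hdm := Nat.div_add_mod N π.length
  have hml := Nat.mod_lt N hL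
  set c₁ := N / π.length with hc₁
  set t' := N % π.length with ht'
  have hlen : N + w'.length = c * π.length + min t'' π.length := by
    have h3 : (W ++ w').length = W.length + w'.length := List.length_append
    have h4 : (rep π c ++ π.take t'').length = c * π.length + min t'' π.length := by
      rw [List.length_append, length_rep, List.length_take]
    rw [hN, ← h3, hc, h4]
  have hcc : c₁ ≤ c := by
    by_contra hcon
    have h3 : c + 1 ≤ c₁ := by omega
    have h4 : (c + 1) * π.length ≤ c₁ * π.length := Nat.mul_le_mul_right _ h3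
    have h5 : π.length * c₁ = c₁ * π.length := Nat.mul_comm _ _
    have h6 : (c + 1) * π.length = c * π.length + π.length := by ring
    have h7 : min t'' π.length ≤ t'' := Nat.min_le_left _ _
    omega
  have hWeq : W = rep π c₁ ++ π.take t' := by
    have p1 : W <+: rep π (c + 1) := by
      refine (List.prefix_append W w').trans ?_
      rw [hc, rep_succ']
      exact (List.prefix_append_right_inj _).mpr (List.take_prefix _ _)
    have p2 : rep π c₁ ++ π.take t' <+: rep π (c + 1) := by
      have h3 : c + 1 = (c₁ + 1) + (c - c₁) := by omega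
      rw [h3, rep_add, rep_succ']
      refine List.IsPrefix.trans ?_ (List.prefix_append _ _)
      exact (List.prefix_append_right_inj _).mpr (List.take_prefix _ _)
    have hl : W.length = (rep π c₁ ++ π.take t').length := by
      have h3 : (rep π c₁ ++ π.take t').length = c₁ * π.length + t' := by
        rw [List.length_append, length_rep, List.length_take, Nat.min_eq_left hml.le]
      have h5 : π.length * c₁ = c₁ * π.length := Nat.mul_comm _ _
      rw [h3, ← hN]
      omega
    exact (List.prefix_of_prefix_length_le p1 p2 hl.le).eq_of_length hl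
  refine ⟨t', ⟨h1, hml, c₁, hWeq⟩, ⟨hml, h2, c - c₁, ?_⟩⟩
  have h3 : rep π c₁ ++ (π.take t' ++ w') = rep π c₁ ++ (rep π (c - c₁) ++ π.take t'') := by
    rw [← List.append_assoc, ← hWeq, hc, ← List.append_assoc, ← rep_add]
    have h4 : c₁ + (c - c₁) = c := by omega
    rw [h4]
  exact List.append_cancel_left h3

theorem Per.loop {π w : List Γ} {t : ℕ} (h : Per π t w t) :
    ∃ c, w.length = c * π.length ∧ ∀ P : Γ → Bool, w.countP P = c * π.countP P := by
  obtain ⟨h1, h2, c, hc⟩ := h
  refine ⟨c, ?_, fun P => ?_⟩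
  · have hlen := congrArg List.length hc
    rw [List.length_append, List.length_append, length_rep] at hlen
    omega
  · have hlen := congrArg (List.countP P) hc
    rw [List.countP_append, List.countP_append, PerL_countP] at hlen
    omega

theorem Per.zero {π w : List Γ} (h : Per π 0 w 0) : ∃ c, w = rep π c := by
  obtain ⟨h1, h2, c, hc⟩ := h
  refine ⟨c, ?_⟩
  simpa using hc

theorem Per.rep {π w : List Γ} {t : ℕ} (h : Per π t w t) (k : ℕ) : Per π t (rep w k) t := by
  induction k with
  | zero => rw [rep_zero]; exact Per.nil h.1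
  | succ k ih => rw [rep_succ]; exact h.append ih

/-- the step relation `SR` together with the position of the right head modulo `π` -/
def StepRel.per (SR : StepRel Q Γ) (π : List Γ) : StepRel (Q × Fin π.length) Γ where
  rel c ξ η c' := SR.rel c.1 ξ η c'.1 ∧ Per π c.2 η c'.2
  nil c := ⟨SR.nil c.1, Per.nil c.2.2⟩
  append := by
    rintro c c' c'' ξ ξ' η η' ⟨h1, h2⟩ ⟨h3, h4⟩
    exact ⟨SR.append h1 h3, h2.append h4⟩
  splitL := by
    rintro c c'' ξ ξ' η ⟨h1, h2⟩
    obtain ⟨η₁, η₂, q', rfl, h3, h4⟩ := SR.splitL h1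
    obtain ⟨t', h5, h6⟩ := h2.split
    exact ⟨η₁, η₂, (q', ⟨t', h5.2.1⟩), rfl, ⟨h3, h5⟩, ⟨h4, h6⟩⟩
  splitR := by
    rintro c c'' ξ η η' ⟨h1, h2⟩
    obtain ⟨ξ₁, ξ₂, q', rfl, h3, h4⟩ := SR.splitR h1
    obtain ⟨t', h5, h6⟩ := h2.split
    exact ⟨ξ₁, ξ₂, (q', ⟨t', h5.2.1⟩), rfl, ⟨h3, h5⟩, ⟨h4, h6⟩⟩

end LNC
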