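import Pool.Agent.LNC.Defs2

/-!
# LNC, module SR: chains of steps of a two-head step relation

`cat X i j = X i ++ X (i+1) ++ ⋯ ++ X (j-1)` (empty for `j ≤ i`).

Proofs.
* `cat_*`: `List.range'` lemmas (`List.range'_append`, `List.range'_1_concat`, ...).
* `StepRel.cat`: induction on `j` with `StepRel.append`.
* `StepRel.rep`: induction on `k` (`rep_succ` of `RCone`), `nil`, `append`.
* `chainL`: induction on `n` (generalising `R`). `n = 0`: `Yr = η`. Step: `cat X 0 (n+1) ++ R =
  cat X 0 n ++ (X n ++ R)`; apply the induction hypothesis with the remainder `X n ++ R`, then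
  `splitL` to the last part; change `c` at `n + 1` and `Y` at `n` (`Function.update` or `if`).
* `chainR`: the same with `splitR`.
* `chainU`: first the case `ξ.length ≤ 1` by induction on `η` (for `η = []` one step; for
  `η = y :: η'` use `splitR` with `[y] ++ η'`; both parts of `ξ` have length `≤ 1`), then induction on
  `ξ` with `splitL` for `[x] ++ ξ'`; chains are glued (`c i = if i ≤ n₁ then c₁ i else c₂ (i - n₁)`).
-/

namespace LNC

open RCone

variable {Q Γ : Type}

theorem cat_self {α : Type} (X : ℕ → List α) (i : ℕ) : cat X i i = [] := by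
  simp [cat]

theorem cat_append {α : Type} (X : ℕ → List α) {i j k : ℕ} (hij : i ≤ j) (hjk : j ≤ k) :
    cat X i j ++ cat X j k = cat X i k := by
  obtain ⟨a, rfl⟩ := Nat.exists_eq_add_of_le hij
  obtain ⟨b, rfl⟩ := Nat.exists_eq_add_of_le hjk
  unfold cat
  have e1 : i + a - i = a := by omega
  have e2 : i + a + b - (i + a) = b := by omega
  have e3 : i + a + b - i = a + b := by omega
  rw [e1, e2, e3, ← List.flatten_append, ← List.map_append, List.range'_append_1]

theorem cat_succ {α : Type} (X : ℕ → List α) {i j : ℕ} (h : i ≤ j) :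
    cat X i (j + 1) = cat X i j ++ X j := by
  rw [← cat_append X h (Nat.le_succ j)]
  congr 1
  simp [cat]

theorem cat_const {α : Type} (V : List α) (i j : ℕ) : cat (fun _ => V) i j = rep V (j - i) := by
  simp [cat, rep]

private theorem sr_congr {α : Type} {X Y : ℕ → List α} {i j : ℕ} (hij : i ≤ j)
    (h : ∀ k, k < j → X k = Y k) : cat X i j = cat Y i j := by
  induction j, hij using Nat.le_induction with
  | base => rw [cat_self, cat_self]
  | succ j hj ih =>
    rw [cat_succ _ hj, cat_succ _ hj, ih (fun k hk => h k (by omega)), h j (by omega)]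

private theorem sr_shift {α : Type} (X : ℕ → List α) (n : ℕ) :
    cat X 0 (n + 1) = X 0 ++ cat (fun i => X (i + 1)) 0 n := by
  induction n with
  | zero => rw [cat_succ _ le_rfl, cat_self, cat_self]; simp
  | succ n ih =>
    rw [cat_succ _ (Nat.zero_le _), ih, cat_succ _ (Nat.zero_le _), List.append_assoc]

theorem StepRel.cat (SR : StepRel Q Γ) {c : ℕ → Q} {X Y : ℕ → List Γ} {n : ℕ}
    (h : ∀ i < n, SR.rel (c i) (X i) (Y i) (c (i + 1))) {i j : ℕ} (hij : i ≤ j) (hj : j ≤ n) :
    SR.rel (c i) (cat X i j) (cat Y i j) (c j) := by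
  induction j, hij using Nat.le_induction with
  | base => rw [cat_self, cat_self]; exact SR.nil _
  | succ j hij' ih =>
    rw [cat_succ _ hij', cat_succ _ hij']
    exact SR.append (ih (by omega)) (h j (by omega))

theorem StepRel.rep (SR : StepRel Q Γ) {q : Q} {ξ η : List Γ} (h : SR.rel q ξ η q) (k : ℕ) :
    SR.rel q (rep ξ k) (rep η k) q := by
  induction k with
  | zero => rw [rep_zero, rep_zero]; exact SR.nil _
  | succ k ih => rw [rep_succ, rep_succ]; exact SR.append h ih

theorem StepRel.chainL (SR : StepRel Q Γ) {X : ℕ → List Γ} {n : ℕ} {R : List Γ} {q q' : Q}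
    {η : List Γ} (h : SR.rel q (LNC.cat X 0 n ++ R) η q') :
    ∃ (c : ℕ → Q) (Y : ℕ → List Γ) (Yr : List Γ), c 0 = q ∧ η = LNC.cat Y 0 n ++ Yr ∧
      (∀ i < n, SR.rel (c i) (X i) (Y i) (c (i + 1))) ∧ SR.rel (c n) R Yr q' := by
  induction n generalizing R with
  | zero =>
    refine ⟨fun _ => q, fun _ => [], η, rfl, by rw [cat_self]; rfl, by simp, ?_⟩
    rwa [cat_self, List.nil_append] at h
  | succ n ih =>
    rw [cat_succ _ (Nat.zero_le n), List.append_assoc] at h
    obtain ⟨c, Y, Yr, hc, hη, hs, hr⟩ := ih h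
    obtain ⟨y1, y2, q1, hYr, h1, h2⟩ := SR.splitL hr
    refine ⟨fun i => if i ≤ n then c i else q1, fun i => if i < n then Y i else y1, y2, ?_, ?_,
      ?_, ?_⟩
    · simpa using hc
    · rw [cat_succ _ (Nat.zero_le n), sr_congr (Y := Y) (Nat.zero_le n)
        (fun k hk => by simp only [hk, if_true])]
      simp only [lt_irrefl, if_false]
      rw [List.append_assoc, ← hYr, hη]
    · intro i hi
      rcases Nat.lt_or_ge i n with h3 | h3
      · have e1 : i ≤ n := h3.le
        have e2 : i + 1 ≤ n := h3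
        simp only [e1, e2, h3, if_true]
        exact hs i h3
      · have e0 : i = n := by omega
        subst e0
        simp only [le_rfl, lt_irrefl, if_true, if_false, Nat.not_succ_le_self]
        exact h1
    · simp only [Nat.not_succ_le_self, if_false]
      exact h2

theorem StepRel.chainR (SR : StepRel Q Γ) {Y : ℕ → List Γ} {n : ℕ} {R : List Γ} {q q' : Q}
    {ξ : List Γ} (h : SR.rel q ξ (LNC.cat Y 0 n ++ R) q') :
    ∃ (c : ℕ → Q) (X : ℕ → List Γ) (Xr : List Γ), c 0 = q ∧ ξ = LNC.cat X 0 n ++ Xr ∧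
      (∀ i < n, SR.rel (c i) (X i) (Y i) (c (i + 1))) ∧ SR.rel (c n) Xr R q' := by
  induction n generalizing R with
  | zero =>
    refine ⟨fun _ => q, fun _ => [], ξ, rfl, by rw [cat_self]; rfl, by simp, ?_⟩
    rwa [cat_self, List.nil_append] at h
  | succ n ih =>
    rw [cat_succ _ (Nat.zero_le n), List.append_assoc] at h
    obtain ⟨c, X, Xr, hc, hη, hs, hr⟩ := ih h
    obtain ⟨y1, y2, q1, hYr, h1, h2⟩ := SR.splitR hr
    refine ⟨fun i => if i ≤ n then c i else q1, fun i => if i < n then X i else y1, y2, ?_, ?_,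
      ?_, ?_⟩
    · simpa using hc
    · rw [cat_succ _ (Nat.zero_le n), sr_congr (Y := X) (Nat.zero_le n)
        (fun k hk => by simp only [hk, if_true])]
      simp only [lt_irrefl, if_false]
      rw [List.append_assoc, ← hYr, hη]
    · intro i hi
      rcases Nat.lt_or_ge i n with h3 | h3
      · have e1 : i ≤ n := h3.le
        have e2 : i + 1 ≤ n := h3
        simp only [e1, e2, h3, if_true]
        exact hs i h3
      · have e0 : i = n := by omega
        subst e0
        simp only [le_rfl, lt_irrefl, if_true, if_false, Nat.not_succ_le_self]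
        exact h1
    · simp only [Nat.not_succ_le_self, if_false]
      exact h2

private inductive SrCh (SR : StepRel Q Γ) : Q → List Γ → List Γ → Q → Prop
  | nil (q : Q) : SrCh SR q [] [] q
  | cons {q q1 q' : Q} {x y ξ η : List Γ} : SR.rel q x y q1 → x.length ≤ 1 → y.length ≤ 1 →
      SrCh SR q1 ξ η q' → SrCh SR q (x ++ ξ) (y ++ η) q'

private theorem SrCh.app {SR : StepRel Q Γ} {q q' q'' : Q} {ξ η ξ' η' : List Γ}
    (h : SrCh SR q ξ η q') (h' : SrCh SR q' ξ' η' q'') : SrCh SR q (ξ ++ ξ') (η ++ η') q'' := by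
  induction h with
  | nil q => exact h'
  | cons h1 h2 h3 _ ih =>
    rw [List.append_assoc, List.append_assoc]
    exact SrCh.cons h1 h2 h3 (ih h')

private theorem srCh_small (SR : StepRel Q Γ) (η : List Γ) : ∀ (q q' : Q) (ξ : List Γ),
    ξ.length ≤ 1 → SR.rel q ξ η q' → SrCh SR q ξ η q' := by
  induction η with
  | nil =>
    intro q q' ξ hξ h
    have := SrCh.cons h hξ (by simp) (SrCh.nil q')
    simpa using this
  | cons y η ih =>
    intro q q' ξ hξ h
    rw [← List.singleton_append] at h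
    obtain ⟨ξ1, ξ2, q1, rfl, h1, h2⟩ := SR.splitR h
    rw [List.length_append] at hξ
    rw [← List.singleton_append]
    exact SrCh.cons h1 (by omega) (by simp) (ih q1 q' ξ2 (by omega) h2)

private theorem srCh_all (SR : StepRel Q Γ) (ξ : List Γ) : ∀ (q q' : Q) (η : List Γ),
    SR.rel q ξ η q' → SrCh SR q ξ η q' := by
  induction ξ with
  | nil => intro q q' η h; exact srCh_small SR η q q' [] (by simp) h
  | cons x ξ ih =>
    intro q q' η h
    rw [← List.singleton_append] at h
    obtain ⟨η1, η2, q1, rfl, h1, h2⟩ := SR.splitL h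
    rw [← List.singleton_append]
    exact (srCh_small SR η1 q q1 [x] (by simp) h1).app (ih q1 q' η2 h2)

private theorem SrCh.toSeq {SR : StepRel Q Γ} {q q' : Q} {ξ η : List Γ} (h : SrCh SR q ξ η q') :
    ∃ (n : ℕ) (c : ℕ → Q) (X Y : ℕ → List Γ), c 0 = q ∧ c n = q' ∧ ξ = LNC.cat X 0 n ∧
      η = LNC.cat Y 0 n ∧ ∀ i < n, SR.rel (c i) (X i) (Y i) (c (i + 1)) ∧ (X i).length ≤ 1 ∧
        (Y i).length ≤ 1 := by
  induction h with
  | nil q =>
    exact ⟨0, fun _ => q, fun _ => [], fun _ => [], rfl, rfl, by rw [cat_self], by rw [cat_self],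
      by simp⟩
  | @cons q q1 q' x y ξ η h1 h2 h3 _ ih =>
    obtain ⟨n, c, X, Y, hc0, hcn, hX, hY, hs⟩ := ih
    refine ⟨n + 1, fun i => Nat.casesOn i q c, fun i => Nat.casesOn i x X,
      fun i => Nat.casesOn i y Y, rfl, hcn, ?_, ?_, ?_⟩
    · rw [sr_shift, hX]; rfl
    · rw [sr_shift, hY]; rfl
    · intro i hi
      cases i with
      | zero =>
        refine ⟨?_, h2, h3⟩
        have : SR.rel q x y (c 0) := by rw [hc0]; exact h1
        exact this
      | succ i => exact hs i (by omega)

theorem StepRel.chainU (SR : StepRel Q Γ) {q q' : Q} {ξ η : List Γ} (h : SR.rel q ξ η q') :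
    ∃ (n : ℕ) (c : ℕ → Q) (X Y : ℕ → List Γ), c 0 = q ∧ c n = q' ∧ ξ = LNC.cat X 0 n ∧
      η = LNC.cat Y 0 n ∧ ∀ i < n, SR.rel (c i) (X i) (Y i) (c (i + 1)) ∧ (X i).length ≤ 1 ∧
        (Y i).length ≤ 1 :=
  (srCh_all SR ξ q q' η h).toSeq

end LNC
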