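import Pool.Agent.LNC.Contr
import Pool.Agent.LNC.PerL
import Pool.Agent.LNC.ConfL
import Pool.Agent.LNC.SR

/-!
# LNC, module Fin: the final contradiction

`L : LoopData C σ V π`; `(E | wE)` leads from `L.q` to `c`, `(E' | wE')` back; at `c` there are the
loops `(A1 A0^a A2 | w_a)` with at least `a` letters `b` on the right, and `(Cw | wC)`. The right words
are compatible with the period `π`.

Proof. Let `a` be large, `Bk = A1 ++ rep A0 a ++ A2 ++ Cw`, `wB = w_a ++ wC`,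
`v' = E ++ rep Bk a ++ E'`, `w' = wE ++ rep wB a ++ wE'`. Then `C.SR.rel L.q v' w' L.q`
(`StepRel.append`, `StepRel.rep`), `Per π L.t w' L.t` (`Per.append`, `Per.rep`),
`C.M.evalFrom σ v' = σ`, `yb w' ≥ a * a`, `pc v' = 0`.
By `L.hfail` there is `L0`; take `a ≥ K0` (`contr` with `α = gl ℓ ++ rep (gl V) r1 ++ gl E`,
`α' = gl E' ++ rep (gl V) r2 ++ gl m`, the words `gl A0, …`) and `a ≥ L0`, and let
`ξ = x0 ++ x1 ++ v' ++ x2`, `η = (n i).reverse ++ (y0 ++ w' ++ y2) ++ Y`. `C.SR.rel q0 ξ η qf` by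
`L.hn i`, `L.h1`, the loop, `L.h3` (mind the brackets). `Per π 0 (y0 ++ w' ++ y2) 0`, so
`y0 ++ w' ++ y2 = rep π M'` (`Per.zero`) and
`ξ ++ η.reverse = x0 ++ x1 ++ v' ++ x2 ++ Y.reverse ++ rep π.reverse M' ++ n i
  = ℓ ++ (rep V r1 ++ v' ++ rep V r2) ++ m ++ rep π.reverse (t0 + M') ++ n i` by `L.e1`, `L.e3`
(`rep_reverse`, `rep_add`). It is accepted by `M` by `L.hR` (`evalFrom_append'`, `L.hσ`). So
`Ctx.cnt_mem` applies to `ζ = ξ ++ η.reverse`: `gl ζ = α ++ rep (gl Bk) a ++ α'` (`L.glπ`, `L.gln`),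
`yb ζ ≥ yb w' ≥ a * a`, `pc ζ = pc ℓ + pc m + pc (n i)` (`L.hVp`, `L.pcπ`, `pc v' = 0`).
`Kill` is impossible by `contr` and `Kill.mono`. The length `N = |gl ζ|` does not depend on `i` and
`N ≥ a ≥ L0` since `gl Cw ≠ []`; choose `i` by `L.hfail` for this `N` (before applying `cnt_mem`), so
`main N (pc …)` fails.
-/

namespace LNC

open RCone

private theorem Fin_eval {Γ S : Type} (M : DFA Γ S) {s : S} {u : List Γ}
    (h : M.evalFrom s u = s) (n : ℕ) : M.evalFrom s (rep u n) = s := by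
  induction n with
  | zero => rfl
  | succ n ih => rw [rep_succ, evalFrom_append', h, ih]

variable {e : ℕ} {main : ℕ → ℕ → Prop} {Q S Γ : Type} (C : Ctx e main Q S Γ)

theorem fin' {σ : S} {V π : List Γ} (L : LoopData C σ V π) {c : Q} {t' hh : ℕ} {τ τ1 : S}
    {E E' A0 A1 A2 Cw wE wE' wC : List Γ}
    (hE : C.SR.rel L.q E wE c) (pE : Per π L.t wE t')
    (hA : ∀ a, ∃ w, C.SR.rel c (A1 ++ rep A0 a ++ A2) w c ∧ Per π t' w t' ∧ a ≤ yb C.out w)
    (hC : C.SR.rel c Cw wC c) (pC : Per π t' wC t')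
    (hE' : C.SR.rel c E' wE' L.q) (pE' : Per π t' wE' L.t)
    (m1 : C.M.evalFrom σ E = τ) (m2 : C.M.evalFrom τ A1 = τ1) (m3 : C.M.evalFrom τ1 A0 = τ1)
    (m4 : C.M.evalFrom τ1 A2 = τ) (m5 : C.M.evalFrom τ Cw = τ) (m6 : C.M.evalFrom τ E' = σ)
    (g0 : ∀ x ∈ gl C.out A0, (x : ℕ) ≤ hh) (g1 : ∀ x ∈ gl C.out A1, (x : ℕ) ≤ hh)
    (g2 : ∀ x ∈ gl C.out A2, (x : ℕ) ≤ hh) (g3 : ∃ x ∈ gl C.out Cw, hh < (x : ℕ))
    (p0 : pc C.out A0 = 0) (p1 : pc C.out A1 = 0) (p2 : pc C.out A2 = 0) (p3 : pc C.out Cw = 0)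
    (p4 : pc C.out E = 0) (p5 : pc C.out E' = 0) : False := by
  obtain ⟨K0, hK⟩ := contr (gl C.out L.ℓ ++ rep (gl C.out V) L.r1 ++ gl C.out E)
    (gl C.out E' ++ rep (gl C.out V) L.r2 ++ gl C.out L.m) (gl C.out A0) (gl C.out A1)
    (gl C.out A2) (gl C.out Cw) hh g0 g1 g2 g3
  obtain ⟨L0, hL0⟩ := L.hfail
  obtain ⟨a, haK, haL⟩ : ∃ a, K0 ≤ a ∧ L0 ≤ a := ⟨max K0 L0, le_max_left _ _, le_max_right _ _⟩
  obtain ⟨wa, ha1, ha2, ha3⟩ := hA a
  have relB : C.SR.rel c (A1 ++ rep A0 a ++ A2 ++ Cw) (wa ++ wC) c := C.SR.append ha1 hC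
  have perB : Per π t' (wa ++ wC) t' := ha2.append pC
  have evB : C.M.evalFrom τ (A1 ++ rep A0 a ++ A2 ++ Cw) = τ := by
    rw [evalFrom_append', evalFrom_append', evalFrom_append', m2, Fin_eval C.M m3, m4, m5]
  have ybB : a ≤ yb C.out (wa ++ wC) := by
    rw [yb_append]
    omega
  have pcB : pc C.out (A1 ++ rep A0 a ++ A2 ++ Cw) = 0 := by
    rw [pc_append, pc_append, pc_append, pc_rep, p0, p1, p2, p3]
    simp
  have glB : gl C.out (A1 ++ rep A0 a ++ A2 ++ Cw) =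
      gl C.out A1 ++ rep (gl C.out A0) a ++ gl C.out A2 ++ gl C.out Cw := by
    rw [gl_append, gl_append, gl_append, gl_rep]
  have hlenB : 1 ≤ (gl C.out (A1 ++ rep A0 a ++ A2 ++ Cw)).length := by
    obtain ⟨x, hx, -⟩ := g3
    rw [glB]
    exact List.length_pos_of_mem (List.mem_append_right _ hx)
  have hKa := hK a haK
  rw [← glB] at hKa
  clear glB
  generalize A1 ++ rep A0 a ++ A2 ++ Cw = Bk at relB evB pcB hlenB hKa
  generalize wa ++ wC = wB at relB perB ybB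
  have relv : C.SR.rel L.q (E ++ rep Bk a ++ E') (wE ++ rep wB a ++ wE') L.q :=
    C.SR.append (C.SR.append hE (C.SR.rep relB a)) hE'
  have perw : Per π L.t (wE ++ rep wB a ++ wE') L.t := (pE.append (perB.rep a)).append pE'
  have evv : C.M.evalFrom σ (E ++ rep Bk a ++ E') = σ := by
    rw [evalFrom_append', evalFrom_append', m1, Fin_eval C.M evB, m6]
  have ybw : a * a ≤ yb C.out (wE ++ rep wB a ++ wE') := by
    rw [yb_append, yb_append, yb_rep]
    have := Nat.mul_le_mul_left a ybB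
    omega
  have pcv : pc C.out (E ++ rep Bk a ++ E') = 0 := by
    rw [pc_append, pc_append, pc_rep, p4, p5, pcB]
    simp
  have glv : gl C.out (E ++ rep Bk a ++ E') =
      gl C.out E ++ rep (gl C.out Bk) a ++ gl C.out E' := by
    rw [gl_append, gl_append, gl_rep]
  generalize E ++ rep Bk a ++ E' = v' at relv evv pcv glv
  generalize wE ++ rep wB a ++ wE' = w' at relv perw ybw
  set N := (gl C.out L.ℓ ++ rep (gl C.out V) L.r1 ++ gl C.out E ++ rep (gl C.out Bk) a ++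
    (gl C.out E' ++ rep (gl C.out V) L.r2 ++ gl C.out L.m)).length with hN
  have hNL : L0 ≤ N := by
    have h1 : a ≤ N := by
      rw [hN, List.length_append, List.length_append, length_rep]
      have := Nat.mul_le_mul_left a hlenB
      omega
    omega
  obtain ⟨i, hi⟩ := hL0 N hNL
  have hrel : C.SR.rel C.q0 (L.x0 ++ (L.x1 ++ (v' ++ L.x2)))
      ((L.n i).reverse ++ (L.y0 ++ (w' ++ (L.y2 ++ L.Y)))) L.qf :=
    C.SR.append (L.hn i) (C.SR.append L.h1 (C.SR.append relv L.h3))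
  obtain ⟨M', hM'⟩ := Per.zero ((L.per1.append perw).append L.per3)
  have hζ : L.x0 ++ (L.x1 ++ (v' ++ L.x2)) ++
      ((L.n i).reverse ++ (L.y0 ++ (w' ++ (L.y2 ++ L.Y)))).reverse =
      L.ℓ ++ (rep V L.r1 ++ v' ++ rep V L.r2) ++ L.m ++ rep π.reverse (L.t0 + M') ++ L.n i := by
    have e1 : (L.n i).reverse ++ (L.y0 ++ (w' ++ (L.y2 ++ L.Y))) =
        (L.n i).reverse ++ (rep π M' ++ L.Y) := by
      rw [← hM']
      simp only [List.append_assoc]
    have e2 : ((L.n i).reverse ++ (rep π M' ++ L.Y)).reverse =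
        L.Y.reverse ++ (rep π.reverse M' ++ L.n i) := by
      rw [List.reverse_append, List.reverse_append, List.reverse_reverse, rep_reverse,
        List.append_assoc]
    rw [e1, e2, rep_add]
    calc L.x0 ++ (L.x1 ++ (v' ++ L.x2)) ++ (L.Y.reverse ++ (rep π.reverse M' ++ L.n i))
        = (L.x0 ++ L.x1) ++ v' ++ (L.x2 ++ L.Y.reverse) ++ (rep π.reverse M' ++ L.n i) := by
          simp only [List.append_assoc]
      _ = _ := by
          rw [L.e1, L.e3]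
          simp only [List.append_assoc]
  have hmem : C.mem (L.ℓ ++ (rep V L.r1 ++ v' ++ rep V L.r2) ++ L.m ++
      rep π.reverse (L.t0 + M') ++ L.n i) := ⟨_, _, L.qf, hζ.symm, hrel, L.hqf⟩
  have hacc : L.ℓ ++ (rep V L.r1 ++ v' ++ rep V L.r2) ++ L.m ++
      rep π.reverse (L.t0 + M') ++ L.n i ∈ C.M.accepts := by
    refine L.hR _ _ _ ?_
    rw [evalFrom_append', evalFrom_append', Fin_eval C.M L.hσ, evv, Fin_eval C.M L.hσ]
  have hgl : gl C.out (L.ℓ ++ (rep V L.r1 ++ v' ++ rep V L.r2) ++ L.m ++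
      rep π.reverse (L.t0 + M') ++ L.n i) =
      gl C.out L.ℓ ++ rep (gl C.out V) L.r1 ++ gl C.out E ++ rep (gl C.out Bk) a ++
      (gl C.out E' ++ rep (gl C.out V) L.r2 ++ gl C.out L.m) := by
    simp only [gl_append, gl_rep, gl_reverse, L.glπ, L.gln, glv, List.reverse_nil, rep_nil,
      List.append_nil, List.append_assoc]
  have hyb : a * a ≤ yb C.out (L.ℓ ++ (rep V L.r1 ++ v' ++ rep V L.r2) ++ L.m ++
      rep π.reverse (L.t0 + M') ++ L.n i) := by
    rw [← hζ]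
    simp only [yb_append, yb_reverse]
    omega
  have hpc : pc C.out (L.ℓ ++ (rep V L.r1 ++ v' ++ rep V L.r2) ++ L.m ++
      rep π.reverse (L.t0 + M') ++ L.n i) = pc C.out L.ℓ + pc C.out L.m + pc C.out (L.n i) := by
    simp only [pc_append, pc_rep, pc_reverse, L.pcπ, L.hVp, pcv, mul_zero, add_zero]
  rcases C.cnt_mem hmem hacc with h1 | h1
  · rw [hgl] at h1
    exact hKa (h1.mono hyb)
  · rw [hgl, hpc, ← hN] at h1
    exact hi h1

end LNC
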