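import Pool.Agent.LNC.Defs2
import Pool.Agent.RC.Cone

/-!
# LNC, module FlRat: `F` is a rational image of `S_main`

Proof. Let `A = Option (Fin 2) × Option (Al e)` and `g j = some (Sum.inl j)`. For `i : Fin e` let
`R_i = {(none, g j) : j}* · {(none, g j) : j ≤ i} ∪ {(some 0, g i)})* · {(none, g j) : j}* ·
{(some 1, some b)}* · {(none, some c)}*`
and `R' = {(some 0, g j) : j}* · {(none, some b)}* · {(some 1, some c)}*`. The languages
`{z | ∀ a ∈ z, P a}` are regular (`regular_forall`), products by `regular_mul`. The transduction is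
given by the union of all `R_i` and `R'` (`IsRegular.add`, finite union over `Fin e`: induction over a
`Finset` or `List.finRange`; the empty language is regular).
The relation of `R_i` is `(0^m 1^n, x f x' b^n c^p)` with the letters of `f` `≤ i` and
`m ≤ f.count i` (every letter `g_i` of `f` may or may not read a `0`; conversely for
`m ≤ f.count i` let the first `m` letters `g_i` of `f` read a `0`: induction on `f`).
The relation of `R'` is `(0^m 1^n, u b^y c^n)` with `|u| = m`.
`⊆`: `main m n` gives `n ≤ m ≤ f.count i` (`hle`), so `Kill (x ++ f ++ x') n`; or `main |u| n`.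
`⊇`: if `Kill u y` take `m = n = y` (`hrefl`); if `main |u| p` take `m = |u|`, `n = p`.
(`Kill` needs the witness `i : Fin e`; for `e = 0` there is none.)
-/

namespace LNC

open RCone

/-! ### Calculus of rational relations -/

private def mulR {X Y : Type} (τ ρ : Set (List X × List Y)) : Set (List X × List Y) :=
  {p | ∃ a ∈ τ, ∃ b ∈ ρ, p = (a.1 ++ b.1, a.2 ++ b.2)}

private theorem rat_mul {X Y : Type} {τ ρ : Set (List X × List Y)} (hτ : IsRational τ)
    (hρ : IsRational ρ) : IsRational (mulR τ ρ) := by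
  obtain ⟨R₁, r1, e1⟩ := hτ
  obtain ⟨R₂, r2, e2⟩ := hρ
  refine ⟨R₁ * R₂, regular_mul r1 r2, ?_⟩
  intro u w
  constructor
  · rintro ⟨⟨a, a'⟩, ha, ⟨b, b'⟩, hb, h⟩
    obtain ⟨z1, hz1, rfl, rfl⟩ := (e1 _ _).1 ha
    obtain ⟨z2, hz2, rfl, rfl⟩ := (e2 _ _).1 hb
    simp only [Prod.mk.injEq] at h
    obtain ⟨rfl, rfl⟩ := h
    exact ⟨z1 ++ z2, Language.mem_mul.2 ⟨z1, hz1, z2, hz2, rfl⟩, p1_append _ _, p2_append _ _⟩
  · rintro ⟨z, hz, rfl, rfl⟩
    obtain ⟨z1, hz1, z2, hz2, rfl⟩ := Language.mem_mul.1 hz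
    exact ⟨(p1 z1, p2 z1), (e1 _ _).2 ⟨z1, hz1, rfl, rfl⟩, (p1 z2, p2 z2),
      (e2 _ _).2 ⟨z2, hz2, rfl, rfl⟩, by rw [p1_append, p2_append]⟩

private theorem rat_gen {W X Y : Type} (f : W → Option X × Option Y) :
    IsRational {p : List X × List Y | ∃ a : List W, p.1 = p1 (a.map f) ∧ p.2 = p2 (a.map f)} := by
  refine ⟨_, regular_forall (fun l => ∃ a : W, f a = l), ?_⟩
  intro u w
  constructor
  · rintro ⟨a, rfl, rfl⟩
    refine ⟨a.map f, ?_, rfl, rfl⟩
    intro l hl
    obtain ⟨x, _, hx⟩ := List.mem_map.1 hl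
    exact ⟨x, hx⟩
  · rintro ⟨z, hz, rfl, rfl⟩
    have key : ∀ z : List (Option X × Option Y), (∀ l ∈ z, ∃ a : W, f a = l) →
        ∃ a : List W, z = a.map f := by
      intro z
      induction z with
      | nil => intro _; exact ⟨[], rfl⟩
      | cons l z ih =>
        intro hz
        obtain ⟨a, ha⟩ := hz l (by simp)
        obtain ⟨b, hb⟩ := ih (fun l hl => hz l (by simp [hl]))
        exact ⟨a :: b, by rw [List.map_cons, ha, hb]⟩
    obtain ⟨a, rfl⟩ := key z hz
    exact ⟨a, rfl, rfl⟩

private theorem rat_empty {X Y : Type} : IsRational (∅ : Set (List X × List Y)) := by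
  refine ⟨_, ⟨Unit, inferInstance, ⟨fun _ _ => (), (), ∅⟩, rfl⟩, ?_⟩
  intro u w
  constructor
  · intro h
    exact absurd h (Set.notMem_empty _)
  · rintro ⟨z, hz, -⟩
    rw [DFA.mem_accepts] at hz
    exact absurd hz (Set.notMem_empty _)

private theorem rat_iUnion {X Y σ : Type} [Fintype σ] (τ : σ → Set (List X × List Y))
    (h : ∀ s, IsRational (τ s)) : IsRational {p | ∃ s, p ∈ τ s} := by
  classical
  have key : ∀ F : Finset σ, IsRational {p | ∃ s ∈ F, p ∈ τ s} := by
    intro F
    induction F using Finset.induction_on with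
    | empty =>
      refine ConeA_congr rat_empty ?_
      intro p
      simp
    | insert s F hs ih =>
      refine ConeA_congr ((h s).union ih) ?_
      intro p
      constructor
      · rintro (h1 | ⟨t, ht, h1⟩)
        · exact ⟨s, by simp, h1⟩
        · exact ⟨t, by simp [ht], h1⟩
      · rintro ⟨t, ht, h1⟩
        rcases Finset.mem_insert.1 ht with rfl | ht
        · exact Or.inl h1
        · exact Or.inr ⟨t, ht, h1⟩
  refine ConeA_congr (key Finset.univ) ?_
  intro p
  constructor
  · rintro ⟨s, -, h⟩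
    exact ⟨s, h⟩
  · rintro ⟨s, h⟩
    exact ⟨s, by simp, h⟩

/-! ### The simple relations -/

/-- `([], x)` -/
private def rA (e : ℕ) : Set (List (Fin 2) × List (Al e)) :=
  {p | p.1 = [] ∧ ∃ x : List (Fin e), p.2 = x.map Sum.inl}

private theorem rat_A (e : ℕ) : IsRational (rA e) := by
  refine ConeA_congr (rat_gen (W := Fin e) (fun j => (none, some (Sum.inl j)))) ?_
  rintro ⟨u, w⟩
  simp [rA, p1, p2, List.filterMap_map]

/-- `(0^|x|, x)` -/
private def rA0 (e : ℕ) : Set (List (Fin 2) × List (Al e)) :=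
  {p | ∃ x : List (Fin e), p.1 = List.replicate x.length 0 ∧ p.2 = x.map Sum.inl}

private theorem rat_A0 (e : ℕ) : IsRational (rA0 e) := by
  refine ConeA_congr (rat_gen (W := Fin e) (fun j => (some 0, some (Sum.inl j)))) ?_
  rintro ⟨u, w⟩
  have h1 : ∀ a : List (Fin e), (p1 (a.map fun j => ((some 0 : Option (Fin 2)),
      (some (Sum.inl j) : Option (Al e))))) = List.replicate a.length 0 := by
    intro a
    induction a with
    | nil => rfl
    | cons b a ih =>
      rw [List.map_cons, List.length_cons, List.replicate_succ, ← ih]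
      rfl
  have h2 : ∀ a : List (Fin e), (p2 (a.map fun j => ((some 0 : Option (Fin 2)),
      (some (Sum.inl j) : Option (Al e))))) = a.map Sum.inl := by
    intro a
    induction a with
    | nil => rfl
    | cons b a ih =>
      rw [List.map_cons, List.map_cons, ← ih]
      rfl
  constructor
  · rintro ⟨a, h3, h4⟩
    exact ⟨a, h3.trans (h1 a), h4.trans (h2 a)⟩
  · rintro ⟨a, h3, h4⟩
    exact ⟨a, h3.trans (h1 a).symm, h4.trans (h2 a).symm⟩

/-- `(1^n, x^n)` -/
private def rB1 {e : ℕ} (x : Al e) : Set (List (Fin 2) × List (Al e)) :=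
  {p | ∃ n : ℕ, p.1 = List.replicate n 1 ∧ p.2 = List.replicate n x}

private theorem rat_B1 {e : ℕ} (x : Al e) : IsRational (rB1 x) := by
  refine ConeA_congr (rat_gen (W := Unit) (fun _ => (some 1, some x))) ?_
  rintro ⟨u, w⟩
  have h1 : ∀ a : List Unit, (p1 (a.map fun _ => ((some 1 : Option (Fin 2)), some x))) =
      List.replicate a.length 1 := by
    intro a
    induction a with
    | nil => rfl
    | cons b a ih =>
      rw [List.map_cons, List.length_cons, List.replicate_succ, ← ih]
      rfl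
  have h2 : ∀ a : List Unit, (p2 (a.map fun _ => ((some 1 : Option (Fin 2)), some x))) =
      List.replicate a.length x := by
    intro a
    induction a with
    | nil => rfl
    | cons b a ih =>
      rw [List.map_cons, List.length_cons, List.replicate_succ, ← ih]
      rfl
  constructor
  · rintro ⟨a, h3, h4⟩
    exact ⟨a.length, h3.trans (h1 a), h4.trans (h2 a)⟩
  · rintro ⟨n, h3, h4⟩
    refine ⟨List.replicate n (), h3.trans ?_, h4.trans ?_⟩
    · rw [h1, List.length_replicate]
    · rw [h2, List.length_replicate]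

/-- `([], x^n)` -/
private def rC0 {e : ℕ} (x : Al e) : Set (List (Fin 2) × List (Al e)) :=
  {p | p.1 = [] ∧ ∃ n : ℕ, p.2 = List.replicate n x}

private theorem rat_C0 {e : ℕ} (x : Al e) : IsRational (rC0 x) := by
  refine ConeA_congr (rat_gen (W := Unit) (fun _ => (none, some x))) ?_
  rintro ⟨u, w⟩
  have h1 : ∀ a : List Unit, (p1 (a.map fun _ => ((none : Option (Fin 2)), some x))) = [] := by
    intro a
    induction a with
    | nil => rfl
    | cons b a ih =>
      rw [List.map_cons]
      exact ih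
  have h2 : ∀ a : List Unit, (p2 (a.map fun _ => ((none : Option (Fin 2)), some x))) =
      List.replicate a.length x := by
    intro a
    induction a with
    | nil => rfl
    | cons b a ih =>
      rw [List.map_cons, List.length_cons, List.replicate_succ, ← ih]
      rfl
  constructor
  · rintro ⟨a, h3, h4⟩
    exact ⟨h3.trans (h1 a), a.length, h4.trans (h2 a)⟩
  · rintro ⟨h3, n, h4⟩
    refine ⟨List.replicate n (), h3.trans (h1 _).symm, h4.trans ?_⟩
    rw [h2, List.length_replicate]

/-- `(0^m, f)` with the letters of `f` at most `i` and `m ≤ f.count i` -/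
private def rK {e : ℕ} (i : Fin e) : Set (List (Fin 2) × List (Al e)) :=
  {p | ∃ (m : ℕ) (f : List (Fin e)), p.1 = List.replicate m 0 ∧ p.2 = f.map Sum.inl ∧
    (∀ a ∈ f, a ≤ i) ∧ m ≤ f.count i}

private theorem rat_K {e : ℕ} (i : Fin e) : IsRational (rK i) := by
  let g : Option {j : Fin e // j ≤ i} → Option (Fin 2) × Option (Al e) := fun x =>
    match x with
    | none => (some 0, some (Sum.inl i))
    | some j => (none, some (Sum.inl j.1))
  refine ConeA_congr (rat_gen g) ?_
  rintro ⟨u, w⟩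
  constructor
  · rintro ⟨a, h1, h2⟩
    have key : ∀ a : List (Option {j : Fin e // j ≤ i}), ∃ (m : ℕ) (f : List (Fin e)),
        p1 (a.map g) = List.replicate m 0 ∧ p2 (a.map g) = f.map Sum.inl ∧
        (∀ a ∈ f, a ≤ i) ∧ m ≤ f.count i := by
      intro a
      induction a with
      | nil => exact ⟨0, [], rfl, rfl, by simp, by simp⟩
      | cons x a ih =>
        obtain ⟨m, f, h1, h2, h3, h4⟩ := ih
        rcases x with _ | ⟨j, hj⟩
        · refine ⟨m + 1, i :: f, ?_, ?_, ?_, ?_⟩
          · rw [List.map_cons, List.replicate_succ, ← h1]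
            rfl
          · rw [List.map_cons, List.map_cons, ← h2]
            rfl
          · intro a ha
            rcases List.mem_cons.1 ha with rfl | ha
            · exact le_rfl
            · exact h3 a ha
          · rw [List.count_cons_self]
            omega
        · refine ⟨m, j :: f, ?_, ?_, ?_, ?_⟩
          · rw [List.map_cons, ← h1]
            rfl
          · rw [List.map_cons, List.map_cons, ← h2]
            rfl
          · intro a ha
            rcases List.mem_cons.1 ha with rfl | ha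
            · exact hj
            · exact h3 a ha
          · exact h4.trans (List.count_le_count_cons)
    obtain ⟨m, f, h3, h4, h5, h6⟩ := key a
    exact ⟨m, f, h1.trans h3, h2.trans h4, h5, h6⟩
  · rintro ⟨m, f, h1, h2, h3, h4⟩
    have key : ∀ (f : List (Fin e)) (m : ℕ), (∀ a ∈ f, a ≤ i) → m ≤ f.count i →
        ∃ a : List (Option {j : Fin e // j ≤ i}), List.replicate m 0 = p1 (a.map g) ∧
          f.map Sum.inl = p2 (a.map g) := by
      intro f
      induction f with
      | nil =>
        intro m _ hm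
        rw [List.count_nil, Nat.le_zero] at hm
        subst hm
        exact ⟨[], rfl, rfl⟩
      | cons b f ih =>
        intro m hf hm
        have hf' : ∀ a ∈ f, a ≤ i := fun a ha => hf a (by simp [ha])
        by_cases hb : b = i
        · subst hb
          rcases m with _ | m
          · obtain ⟨a, e1, e2⟩ := ih 0 hf' (Nat.zero_le _)
            refine ⟨some ⟨b, le_rfl⟩ :: a, ?_, ?_⟩
            · rw [e1, List.map_cons]
              rfl
            · rw [List.map_cons, e2, List.map_cons]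
              rfl
          · rw [List.count_cons_self] at hm
            obtain ⟨a, e1, e2⟩ := ih m hf' (by omega)
            refine ⟨none :: a, ?_, ?_⟩
            · rw [List.replicate_succ, e1, List.map_cons]
              rfl
            · rw [List.map_cons, e2, List.map_cons]
              rfl
        · rw [List.count_cons_of_ne hb] at hm
          obtain ⟨a, e1, e2⟩ := ih m hf' hm
          refine ⟨some ⟨b, hf b (by simp)⟩ :: a, ?_, ?_⟩
          · rw [e1, List.map_cons]
            rfl
          · rw [List.map_cons, e2, List.map_cons]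
            rfl
    obtain ⟨a, h5, h6⟩ := key f m h3 h4
    exact ⟨a, h1.trans h5, h2.trans h6⟩

private theorem FlRat_inj {m n m' n' : ℕ}
    (h : (List.replicate m 0 ++ List.replicate n 1 : List (Fin 2)) =
      List.replicate m' 0 ++ List.replicate n' 1) : m = m' ∧ n = n' := by
  have h0 := congrArg (List.count (0 : Fin 2)) h
  have h1 := congrArg (List.count (1 : Fin 2)) h
  simp [List.count_replicate] at h0 h1
  exact ⟨h0, h1⟩

theorem fl_rational (e : ℕ) : ∃ τ : Set (List (Fin 2) × List (Al e)), IsRational τ ∧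
    ∀ main : ℕ → ℕ → Prop, (∀ n, main n n) → (∀ n p, main n p → p ≤ n) →
      im τ (Pl main) = Fl e main := by
  refine ⟨_, (rat_iUnion (fun i : Fin e => mulR (mulR (mulR (mulR (rA e) (rK i)) (rA e))
      (rB1 (Sum.inr false))) (rC0 (Sum.inr true)))
      (fun i => rat_mul (rat_mul (rat_mul (rat_mul (rat_A e) (rat_K i)) (rat_A e)) (rat_B1 _))
        (rat_C0 _))).union
      (rat_mul (rat_mul (rat_A0 e) (rat_C0 (Sum.inr false))) (rat_B1 (Sum.inr true))), ?_⟩
  intro main hrefl hle
  ext w
  constructor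
  · rintro ⟨_, ⟨m, n, hmn, rfl⟩, h | h⟩
    · obtain ⟨i, ⟨_, _⟩, ⟨⟨_, _⟩, ⟨⟨_, _⟩, ⟨⟨_, _⟩, ⟨h1, x, h2⟩, ⟨_, _⟩, ⟨m', f, h3, h4, h5, h6⟩,
        h7⟩, ⟨_, _⟩, ⟨h8, x', h9⟩, h10⟩, ⟨_, _⟩, ⟨n', h11, h12⟩, h13⟩, ⟨_, _⟩, ⟨h14, p, h15⟩, h16⟩ := h
      simp only [Prod.mk.injEq] at *
      obtain ⟨rfl, rfl⟩ := h7
      obtain ⟨rfl, rfl⟩ := h10
      obtain ⟨rfl, rfl⟩ := h13
      obtain ⟨h17, rfl⟩ := h16
      subst h1 h2 h3 h4 h8 h9 h11 h12 h14 h15
      simp only [List.nil_append, List.append_nil] at h17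
      obtain ⟨rfl, rfl⟩ := FlRat_inj h17
      refine ⟨x ++ f ++ x', n, p, ?_, Or.inl ⟨i, x, f, x', rfl, h5, (hle _ _ hmn).trans h6⟩⟩
      simp only [word, List.map_append]
    · obtain ⟨⟨_, _⟩, ⟨⟨_, _⟩, ⟨x, h1, h2⟩, ⟨_, _⟩, ⟨h3, y, h4⟩, h5⟩, ⟨_, _⟩, ⟨n', h6, h7⟩, h8⟩ := h
      simp only [Prod.mk.injEq] at *
      obtain ⟨rfl, rfl⟩ := h5
      obtain ⟨h9, rfl⟩ := h8
      subst h1 h2 h3 h4 h6 h7
      simp only [List.append_nil] at h9
      obtain ⟨rfl, rfl⟩ := FlRat_inj h9
      exact ⟨x, y, n, rfl, Or.inr hmn⟩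
  · rintro ⟨u, y, p, rfl, ⟨i, x, f, x', rfl, h1, h2⟩ | h⟩
    · refine ⟨List.replicate y 0 ++ List.replicate y 1, ⟨y, y, hrefl y, rfl⟩, Or.inl ⟨i, ?_⟩⟩
      refine ⟨_, ⟨_, ⟨_, ⟨([], x.map Sum.inl), ⟨rfl, x, rfl⟩,
        (List.replicate y 0, f.map Sum.inl), ⟨y, f, rfl, rfl, h1, h2⟩, rfl⟩,
        ([], x'.map Sum.inl), ⟨rfl, x', rfl⟩, rfl⟩, (List.replicate y 1,
        List.replicate y (Sum.inr false)), ⟨y, rfl, rfl⟩, rfl⟩, ([], List.replicate p (Sum.inr true)),
        ⟨rfl, p, rfl⟩, ?_⟩
      simp [word]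
    · refine ⟨List.replicate u.length 0 ++ List.replicate p 1, ⟨u.length, p, h, rfl⟩, Or.inr ?_⟩
      refine ⟨_, ⟨(List.replicate u.length 0, u.map Sum.inl), ⟨u, rfl, rfl⟩,
        ([], List.replicate y (Sum.inr false)), ⟨rfl, y, rfl⟩, rfl⟩,
        (List.replicate p 1, List.replicate p (Sum.inr true)), ⟨p, rfl, rfl⟩, ?_⟩
      simp [word]

end LNC
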