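import Pool.Agent.LNC.Cnt

/-!
# LNC, module Fmt: the order of the output letters
-/

namespace LNC

open RCone

variable {e : ℕ} {Γ : Type} (out : Γ → Option (Al e))

theorem word_eq (u : List (Fin e)) (y p : ℕ) : word u y p =
    u.map Sum.inl ++ (List.replicate y (Sum.inr false) ++ List.replicate p (Sum.inr true)) := by
  rw [word, List.append_assoc]

/-- to the right of a letter `b` there are no letters `g` -/
theorem gl_right {A B D : List Γ} {u : List (Fin e)} {y p : ℕ}
    (h : (A ++ B ++ D).filterMap out = word u y p) (hB : 1 ≤ yb out B) : gl out D = [] := by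
  rw [List.filterMap_append, word_eq, List.append_eq_append_iff] at h
  have key : ∀ (T : List (Al e)), (∀ a ∈ T, ∀ i, a ≠ Sum.inl i) → T.filterMap Sum.getLeft? = [] := by
    intro T hT
    rw [List.filterMap_eq_nil_iff]
    intro a ha
    rcases a with i | x
    · exact absurd rfl (hT _ ha i)
    · rfl
  rw [gl_eq_filterMap]
  rcases h with ⟨as, h1, h2⟩ | ⟨bs, h1, h2⟩
  · exfalso
    have h3 : (Sum.inr false : Al e) ∈ (A ++ B).filterMap out := by
      rw [yb_eq_count] at hB
      obtain ⟨a, ha, ha'⟩ := List.countP_pos_iff.1 (Nat.lt_of_lt_of_le Nat.zero_lt_one hB)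
      rw [decide_eq_true_eq] at ha'
      subst ha'
      rw [List.filterMap_append]
      exact List.mem_append_right _ ha
    have h4 : (Sum.inr false : Al e) ∈ u.map (Sum.inl : Fin e → Al e) := by
      rw [h1]; exact List.mem_append_left _ h3
    simp at h4
  · apply key
    intro a ha i hai
    have h5 : a ∈ (List.replicate y (Sum.inr false) ++ List.replicate p (Sum.inr true) : List (Al e)) := by
      rw [h2]; exact List.mem_append_right _ ha
    rw [hai] at h5
    simp at h5

end LNC
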