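import Pool.Agent.LNC.ConfL

/-!
# LNC, module Ineq: two consequences of pumping a loop `(ξ₂ | η₂)` in an accepting computation

`loop_ineq` (tight word: as many letters `g` as letters `c`, more letters `b` than twice the letters
`g`): let `gT, pT, yT` be the total numbers of the letters `g`, `c`, `b`, and `du, dc, dy` the numbers
of the letters `g`, `c`, `b` of the loop. `gT = pT`, `2 gT < yT`.
* Insert the loop twice (`append`, `StepRel.append`; `rep` is not needed: use the words
  `ξ₁ ++ ξ₂ ++ ξ₂ ++ ξ₃`, `η₁ ++ η₂ ++ η₂ ++ η₃`). `Ctx.cnt` gives `Kill u (yT + dy)` with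
  `|u| = gT + du ≤ 2 gT < yT + dy` — impossible by `Kill.le_length` — or
  `main (gT + du) (pT + dc)`, so `dc ≤ du` by `MainOK.up`.
* If `dy = 0`, delete the loop: the words `ξ₁ ++ ξ₃`, `η₁ ++ η₃` have `gT - du` letters `g`,
  `pT - dc` letters `c`, `yT` letters `b`. `Ctx.cnt` gives `Kill u yT` with `|u| ≤ gT < yT`
  (impossible) or `main (gT - du) (gT - dc)` (here `pT = gT`), so `du ≤ dc` by `MainOK.down`.

`pump_off` (the loop outputs no `g`, at least one `b`, and `main` fails for the whole word): insert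
the loop `f = gT + 1` more times (`StepRel.rep`), where `gT` is the total number of the letters `g`.
The new word has `gT` letters `g`, at least `f > gT` letters `b`, and `pT + f dc` letters `c`.
`Ctx.cnt`: `Kill` is impossible by `Kill.le_length`, `main gT (pT + f dc)` is impossible by
`MainOK.far`.
-/

namespace LNC

open RCone

variable {e : ℕ} {main : ℕ → ℕ → Prop} {Q S Γ : Type} (C : Ctx e main Q S Γ)

private theorem ineq_rep {Q' : Type} (SR : StepRel Q' Γ) {q : Q'} {ξ η : List Γ}
    (h : SR.rel q ξ η q) (k : ℕ) : SR.rel q (rep ξ k) (rep η k) q := by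
  induction k with
  | zero => rw [rep_zero, rep_zero]; exact SR.nil q
  | succ k ih => rw [rep_succ, rep_succ]; exact SR.append h ih

theorem loop_ineq (hM : MainOK main) {c cf : Conf Q S} {ξ₁ ξ₂ ξ₃ η₁ η₂ η₃ : List Γ}
    (h1 : C.CR.rel C.c0 ξ₁ η₁ c) (h2 : C.CR.rel c ξ₂ η₂ c) (h3 : C.CR.rel c ξ₃ η₃ cf)
    (hf : cf ∈ C.Acc)
    (hbal : (gl C.out (ξ₁ ++ ξ₂ ++ ξ₃)).length + (gl C.out (η₁ ++ η₂ ++ η₃)).length =
      pc C.out (ξ₁ ++ ξ₂ ++ ξ₃) + pc C.out (η₁ ++ η₂ ++ η₃))
    (hy : 2 * ((gl C.out (ξ₁ ++ ξ₂ ++ ξ₃)).length + (gl C.out (η₁ ++ η₂ ++ η₃)).length) <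
      yb C.out (ξ₁ ++ ξ₂ ++ ξ₃) + yb C.out (η₁ ++ η₂ ++ η₃)) :
    pc C.out ξ₂ + pc C.out η₂ ≤ (gl C.out ξ₂).length + (gl C.out η₂).length ∧
    (yb C.out ξ₂ + yb C.out η₂ = 0 →
      pc C.out ξ₂ + pc C.out η₂ = (gl C.out ξ₂).length + (gl C.out η₂).length) := by
  simp only [gl_append, pc_append, yb_append, List.length_append] at hbal hy
  have hins := C.cnt (C.CR.append (C.CR.append (C.CR.append h1 h2) h2) h3) hf
  have hdel := C.cnt (C.CR.append h1 h3) hf
  simp only [gl_append, pc_append, yb_append, List.length_append] at hins hdel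
  have A : pc C.out ξ₂ + pc C.out η₂ ≤ (gl C.out ξ₂).length + (gl C.out η₂).length := by
    rcases hins with hk | hm
    · have := hk.le_length
      simp only [List.length_append, List.length_reverse] at this
      omega
    · refine hM.up ((gl C.out ξ₁).length + (gl C.out ξ₂).length + (gl C.out ξ₃).length +
        ((gl C.out η₁).length + (gl C.out η₂).length + (gl C.out η₃).length)) _ _ ?_
      convert hm using 1
      · omega
      · omega
  refine ⟨A, fun h0 => le_antisymm A ?_⟩
  rcases hdel with hk | hm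
  · have := hk.le_length
    simp only [List.length_append, List.length_reverse] at this
    omega
  · refine hM.down ((gl C.out ξ₁).length + (gl C.out ξ₂).length + (gl C.out ξ₃).length +
      ((gl C.out η₁).length + (gl C.out η₂).length + (gl C.out η₃).length)) _ _ ?_ ?_ ?_
    · omega
    · omega
    · convert hm using 1
      · omega
      · omega

theorem pump_off (hM : MainOK main) {c cf : Conf Q S} {ξ₁ ξ₂ ξ₃ η₁ η₂ η₃ : List Γ}
    (h1 : C.CR.rel C.c0 ξ₁ η₁ c) (h2 : C.CR.rel c ξ₂ η₂ c) (h3 : C.CR.rel c ξ₃ η₃ cf)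
    (hf : cf ∈ C.Acc) (hg1 : gl C.out ξ₂ = []) (hg2 : gl C.out η₂ = [])
    (hy : 1 ≤ yb C.out ξ₂ + yb C.out η₂)
    (hoff : ¬ main ((gl C.out (ξ₁ ++ ξ₂ ++ ξ₃)).length + (gl C.out (η₁ ++ η₂ ++ η₃)).length)
      (pc C.out (ξ₁ ++ ξ₂ ++ ξ₃) + pc C.out (η₁ ++ η₂ ++ η₃))) : False := by
  simp only [gl_append, pc_append, hg1, hg2, List.append_nil, List.length_append] at hoff
  set f := (gl C.out ξ₁).length + (gl C.out ξ₃).length +
    ((gl C.out η₁).length + (gl C.out η₃).length) + 1 with hfd
  have hins := C.cnt (C.CR.append (C.CR.append (C.CR.append h1 h2) (ineq_rep C.CR h2 f)) h3) hf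
  simp only [gl_append, pc_append, yb_append, List.length_append, gl_rep, yb_rep, pc_rep, hg1,
    hg2, rep_nil, List.append_nil] at hins
  have hmul : f ≤ f * yb C.out ξ₂ + f * yb C.out η₂ := by
    rw [← Nat.mul_add]
    exact Nat.le_mul_of_pos_right f hy
  rcases hins with hk | hm
  · have := hk.le_length
    simp only [List.length_append, List.length_reverse] at this
    omega
  · refine hM.far _ _ (pc C.out ξ₂ + pc C.out η₂) f hoff (by omega) ?_
    convert hm using 1
    rw [Nat.mul_add]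
    omega

end LNC
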