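import Pool.Agent.LNC.P2a
import Pool.Agent.LNC.PerL

/-!
# LNC, module P2b: the loop of `p2a` rotated to a `V`-boundary

Proof. Take the data of `p2a`; `V = V' ++ V''` with `V' = V.take t'`, `V'' = V.drop t'`, `π = W.reverse`.
From the two equations: `V' ++ xb = rep V k ++ V'` (cancel `ℓ ++ rep V a`, `rep_add`), so
`xb = V'' ++ rep V (k-1) ++ V'` (`rep V k = V ++ rep V (k-1)`, cancel `V'`).
`splitL` of `C.CR.rel c xb (rep π i2) c`: `rep π i2 = z1 ++ z2`, `C.CR.rel c V'' z1 c'`,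
`C.CR.rel c' (rep V (k-1) ++ V') z2 c`. The configuration of the conclusion is `c'`.
* `x1 = xa ++ V''`, `y0 = rep π i1 ++ z1`, `r1 = a + 1`:
  `x0 ++ x1 = ℓ ++ rep V a ++ V' ++ V'' = ℓ ++ rep V (a+1)`.
* `Per.of_rep` for `rep π i2 = z1 ++ z2` and `Per.split`: `t` with `Per π 0 z1 t`, `Per π t z2 0`;
  `Per π 0 y0 t` by `Per.of_rep`, `Per.append`. (`0 < |π|` since `yb W ≥ 1`.)
* `w = z2 ++ z1`: `C.CR.rel c' (rep V (k-1) ++ V' ++ V'') (z2 ++ z1) c'`, and the left word is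
  `rep V k`; `Per π t w t`; `yb w = yb (rep π i2) = i2 * yb W ≥ 1`.
* `x2 = rep V (k-1) ++ V' ++ xc`, `y2 = z2 ++ rep π i3`: `C.CR.rel c' x2 (z2 ++ (rep π i3 ++ Y)) cf`,
  `Per π t y2 0`; from the last equation of `p2a`, cancelling `ℓ ++ rep V a ++ V' ++ V''`
  (`r = (a + 1) + (r - a - 1)`): `x2 ++ Y.reverse = rep V (r - a - 1) ++ m ++ rep W t0`.
-/

namespace LNC

open RCone

variable {e : ℕ} {main : ℕ → ℕ → Prop} {Q S Γ : Type} (C : Ctx e main Q S Γ)

theorem p2b [Fintype Q] [Fintype S] (hM : MainOK main) {ℓ V m W n : List Γ} {r T : ℕ}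
    (hV : V ≠ []) (hWg : gl C.out W = []) (hWy : 1 ≤ yb C.out W) (hn : gl C.out n = [])
    (hmem : C.mem (ℓ ++ rep V r ++ m ++ rep W T ++ n))
    (hacc : ℓ ++ rep V r ++ m ++ rep W T ++ n ∈ C.M.accepts)
    (hoff : ¬ main (gl C.out (ℓ ++ rep V r ++ m ++ rep W T ++ n)).length
      (pc C.out (ℓ ++ rep V r ++ m ++ rep W T ++ n)))
    (hT : Fintype.card (Conf Q S) * (ℓ.length + V.length + (gl C.out m).length + 2) ≤ T) :
    ∃ (d c cf : Conf Q S) (x0 x1 x2 y0 y2 Y w : List Γ) (t k r1 r2 t0 : ℕ),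
      C.CR.rel C.c0 x0 n.reverse d ∧ C.CR.rel d x1 y0 c ∧ Per W.reverse 0 y0 t ∧
      x0 ++ x1 = ℓ ++ rep V r1 ∧ r1 ≤ r ∧ 1 ≤ k ∧
      C.CR.rel c (rep V k) w c ∧ Per W.reverse t w t ∧ 1 ≤ yb C.out w ∧
      C.CR.rel c x2 (y2 ++ Y) cf ∧ cf ∈ C.Acc ∧ Per W.reverse t y2 0 ∧
      x2 ++ Y.reverse = rep V r2 ++ m ++ rep W t0 := by
  obtain ⟨d, c, cf, x0, xa, xb, xc, Y, a, k, t', t0, i1, i2, i3, h0, h1, h2, h3, hf, hi2, hk, ht',
    hak, e1, e2, e3⟩ := p2a C hM hV hWg hWy hn hmem hacc hoff hT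
  set π := W.reverse with hπ
  set V' := V.take t' with hV'
  set V'' := V.drop t' with hV''
  have hVV : V = V' ++ V'' := (List.take_append_drop t' V).symm
  have hπy : 1 ≤ yb C.out π := by rw [hπ, yb_reverse]; exact hWy
  have hπl : 0 < π.length := by
    rcases Nat.eq_zero_or_pos π.length with h | h
    · rw [List.length_eq_zero_iff.1 h] at hπy
      simp at hπy
    · exact h
  obtain ⟨k', rfl⟩ : ∃ k', k = k' + 1 := ⟨k - 1, by omega⟩
  -- `xb = V'' V^k' V'`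
  have hxb : xb = V'' ++ rep V k' ++ V' := by
    have h5 : ℓ ++ rep V a ++ V' ++ xb = ℓ ++ rep V (a + (k' + 1)) ++ V' := by
      rw [← e1, ← e2]
    have h6 : ℓ ++ rep V (a + (k' + 1)) ++ V' = ℓ ++ rep V a ++ V' ++ (V'' ++ rep V k' ++ V') := by
      rw [rep_add, rep_succ]
      conv_lhs => rw [hVV]
      simp only [List.append_assoc]
      rw [← hVV]
    rw [h6] at h5
    exact List.append_cancel_left h5
  subst hxb
  have h2' := h2
  rw [List.append_assoc] at h2'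
  obtain ⟨z1, z2, c', hz, r1, r2⟩ := C.CR.splitL h2'
  have hper : Per π 0 (z1 ++ z2) 0 := by
    rw [← hz]
    exact Per.of_rep hπl i2
  obtain ⟨t, p1, p2⟩ := hper.split
  have hloop : C.CR.rel c' (rep V (k' + 1)) (z2 ++ z1) c' := by
    have := C.CR.append r2 r1
    have e4 : rep V k' ++ V' ++ V'' = rep V (k' + 1) := by
      rw [List.append_assoc, ← hVV, ← rep_succ']
    rwa [e4] at this
  refine ⟨d, c', cf, x0, xa ++ V'', rep V k' ++ V' ++ xc, rep π i1 ++ z1, z2 ++ rep π i3, Y,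
    z2 ++ z1, t, k' + 1, a + 1, r - (a + 1), t0, h0, C.CR.append h1 r1,
    (Per.of_rep hπl i1).append p1, ?_, by omega, by omega, hloop, p2.append p1, ?_, ?_, hf,
    p2.append (Per.of_rep hπl i3), ?_⟩
  · rw [← List.append_assoc, e1, rep_succ']
    conv_rhs => rw [hVV]
    simp only [List.append_assoc]
    rw [← hVV]
  · rw [yb_append]
    have h7 : yb C.out (z1 ++ z2) = i2 * yb C.out π := by rw [← hz, yb_rep]
    rw [yb_append] at h7
    have : 1 ≤ i2 * yb C.out π := Nat.mul_pos hi2 hπy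
    omega
  · rw [List.append_assoc z2]
    exact C.CR.append r2 h3
  · have h8 : r = (a + 1) + (r - (a + 1)) := by omega
    have h9 : ℓ ++ rep V r ++ m ++ rep W t0 =
        ℓ ++ rep V a ++ V' ++ V'' ++ (rep V (r - (a + 1)) ++ m ++ rep W t0) := by
      conv_lhs => rw [h8, rep_add, rep_succ']
      conv_lhs => rw [hVV]
      simp only [List.append_assoc]
      rw [← hVV]
    rw [h9, e1] at e3
    have h10 : ℓ ++ rep V a ++ V' ++ V'' ++ ((rep V k' ++ V' ++ xc) ++ Y.reverse) =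
        ℓ ++ rep V a ++ V' ++ V'' ++ (rep V (r - (a + 1)) ++ m ++ rep W t0) := by
      rw [← e3]
      simp only [List.append_assoc]
    exact List.append_cancel_left h10

end LNC
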