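import Pool.Agent.LNC.Pat
import Pool.Agent.LNC.P2b

/-!
# LNC, module LDcore: from an off word to the loop in the `b`-zone

Let `π = piW C βl βr`, `σ = c.2.1`. The word `pat … (rep V r) T T s` is in `C.mem`, `main` fails for its
counts, and `T ≥ D (|ℓ| + |V| + |gl mm| + |gl nl| + |gl nr| + 2)`.

Proof. By `pat_accepts` (with `v = rep V r`; `C.M.evalFrom σ V = σ` is the second component of
`(Nest.nw C L.nest).1`) the word is accepted by `M`.

Case 1: `1 ≤ yb βl`. Then `π = βl.reverse`, `W := π.reverse = βl`. The pattern word is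
`ℓ ++ rep V r ++ mm ++ rep W T ++ n` with `n = nl ++ (h ++ rep G s ++ mr ++ rep βr T ++ nr).reverse`,
`gl n = []` by `L.gln`, `L.glh`, `L.glmr`, `gl G = []` (`Nest.nw`), `B.glβr`. Apply `p2b` with `m := mm`.
`n.reverse = h ++ rep G s ++ n'` with `n' = mr ++ rep βr T ++ nr ++ nl.reverse`. For the acceptance:
`ℓ ++ v ++ mm ++ rep βl i ++ (h ++ rep G s' ++ n').reverse = pat … v i T s'` (`pat_accepts`).

Case 2: `yb βl = 0`, so `1 ≤ yb βr` (`B.ybβ`), `π = βr`, `W := βr.reverse`. The pattern word is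
`ℓ ++ rep V r ++ m ++ rep W T ++ n` with `m = mm ++ rep βl T ++ nl ++ nr.reverse`,
`n = (h ++ rep G s ++ mr).reverse` (`rep_reverse`), `gl n = []`, `|gl m| = |gl mm| + |gl nl| + |gl nr|`
(`B.glβl`). Apply `p2b`; `n' = mr`. For the acceptance:
`ℓ ++ v ++ m ++ rep βr.reverse i ++ (h ++ rep G s' ++ mr).reverse = pat … v T i s'`.

In both cases `|x0| ≤ |x0 ++ x1| = |ℓ| + r1 |V| ≤ |ℓ| + r |V|`; the first components of the relations
`C.CR.rel` are relations of `C.SR`; `V ≠ []` as `gl V ≠ []`; `cf ∈ C.Acc` gives `cf.1 ∈ C.acc`.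
-/

namespace LNC

open RCone

variable {e : ℕ} {main : ℕ → ℕ → Prop} {Q S Γ : Type} (C : Ctx e main Q S Γ)

theorem evalFrom_rep'' {Γ S : Type} {M : DFA Γ S} {s : S} {u : List Γ} (h : M.evalFrom s u = s)
    (n : ℕ) : M.evalFrom s (rep u n) = s := by
  induction n with
  | zero => simp
  | succ n ih => rw [rep_succ, evalFrom_append', h, ih]

theorem ldcore [Fintype Q] [Fintype S] (hM : MainOK main) {mr' j : ℕ}
    {cb cβ cf c : Conf Q S} {βl βr nl nr ℓ h V G mm mr : List Γ}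
    (B : BetaData C cβ cf βl βr nl nr) (L : Lev C mr' j cb cβ βl nl nr c ℓ h V G mm mr)
    {r s T : ℕ}
    (hT : Fintype.card (Conf Q S) * (ℓ.length + V.length + ((gl C.out mm).length +
      (gl C.out nl).length + (gl C.out nr).length) + 2) ≤ T)
    (hmem : C.mem (pat βl βr nl nr ℓ h G mm mr (rep V r) T T s))
    (hoff : ¬ main (gl C.out (pat βl βr nl nr ℓ h G mm mr (rep V r) T T s)).length
      (pc C.out (pat βl βr nl nr ℓ h G mm mr (rep V r) T T s))) :
    ∃ (m n' x0 x1 x2 y0 y2 Y w : List Γ) (q qf p0 : Q) (t k r1 r2 t0 : ℕ),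
      x0.length ≤ ℓ.length + r * V.length ∧ 1 ≤ k ∧ qf ∈ C.acc ∧
      C.SR.rel C.q0 x0 (h ++ rep G s ++ n') p0 ∧ C.SR.rel p0 x1 y0 q ∧
      Per (piW C βl βr) 0 y0 t ∧ x0 ++ x1 = ℓ ++ rep V r1 ∧ C.SR.rel q (rep V k) w q ∧
      Per (piW C βl βr) t w t ∧ 1 ≤ yb C.out w ∧ C.SR.rel q x2 (y2 ++ Y) qf ∧
      Per (piW C βl βr) t y2 0 ∧
      x2 ++ Y.reverse = rep V r2 ++ m ++ rep (piW C βl βr).reverse t0 ∧
      (∀ (v : List Γ) (i s' : ℕ), C.M.evalFrom c.2.1 v = c.2.1 →
        ℓ ++ v ++ m ++ rep (piW C βl βr).reverse i ++ (h ++ rep G s' ++ n').reverse ∈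
          C.M.accepts) ∧
      gl C.out (piW C βl βr) = [] ∧ pc C.out (piW C βl βr) = 0 ∧ gl C.out n' = [] := by
  obtain ⟨⟨-, hσ, -⟩, -, ⟨av, hav, -⟩, -, hpV, hgG, -, -⟩ := Nest.nw C L.nest
  have hV : V ≠ [] := by
    rintro rfl
    simp at hav
  have hacc := pat_accepts C B L (v := rep V r) (evalFrom_rep'' hσ r) T T s
  have hx0 : ∀ (x0 x1 : List Γ) (r1 : ℕ), x0 ++ x1 = ℓ ++ rep V r1 → r1 ≤ r →
      x0.length ≤ ℓ.length + r * V.length := by
    intro x0 x1 r1 h1 h2
    have h3 := congrArg List.length h1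
    rw [List.length_append, List.length_append, length_rep] at h3
    have h4 : r1 * V.length ≤ r * V.length := Nat.mul_le_mul_right _ h2
    omega
  by_cases hy : 1 ≤ yb C.out βl
  · -- case 1
    have hπ : piW C βl βr = βl.reverse := if_pos hy
    obtain ⟨gnl, gnr⟩ := L.gln hy
    have hform : ∀ (v : List Γ) (i s' : ℕ), pat βl βr nl nr ℓ h G mm mr v i T s' =
        ℓ ++ v ++ mm ++ rep βl i ++ (nl ++ (h ++ rep G s' ++ mr ++ rep βr T ++ nr).reverse) := by
      intro v i s'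
      simp only [pat, List.append_assoc]
    rw [hform] at hmem hoff hacc
    obtain ⟨d, c', cf', x0, x1, x2, y0, y2, Y, w, t, k, r1, r2, t0, f1, f2, f3, f4, f5, f6, f7, f8,
      f9, f10, f11, f12, f13⟩ := p2b C hM hV B.glβl hy (by
        simp [gnl, gnr, L.glh, L.glmr, hgG, B.glβr]) hmem hacc hoff (by
        refine le_trans (Nat.mul_le_mul_left _ ?_) hT
        omega)
    have hrev : (nl ++ (h ++ rep G s ++ mr ++ rep βr T ++ nr).reverse).reverse =
        h ++ rep G s ++ (mr ++ rep βr T ++ nr ++ nl.reverse) := by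
      simp only [List.reverse_append, List.reverse_reverse, List.append_assoc]
    rw [hrev] at f1
    refine ⟨mm, mr ++ rep βr T ++ nr ++ nl.reverse, x0, x1, x2, y0, y2, Y, w, c'.1, cf'.1, d.1, t, k,
      r1, r2, t0, hx0 _ _ _ f4 f5, f6, f11.1, f1.1, f2.1, ?_, f4, f7.1, ?_, f9, f10.1, ?_, ?_, ?_,
      ?_, ?_, ?_⟩
    · rw [hπ]; exact f3
    · rw [hπ]; exact f8
    · rw [hπ]; exact f12
    · rw [hπ, List.reverse_reverse]; exact f13
    · intro v i s' hv
      have := pat_accepts C B L (v := v) hv i T s'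
      rw [hform] at this
      rw [hπ, List.reverse_reverse]
      have e1 : (h ++ rep G s' ++ (mr ++ rep βr T ++ nr ++ nl.reverse)).reverse =
          nl ++ (h ++ rep G s' ++ mr ++ rep βr T ++ nr).reverse := by
        simp only [List.reverse_append, List.reverse_reverse, List.append_assoc]
      rw [e1]
      exact this
    · rw [hπ, gl_reverse, B.glβl]; rfl
    · rw [hπ, pc_reverse, B.pcβl]
    · simp [gnl, gnr, L.glmr, B.glβr]
  · -- case 2
    have hπ : piW C βl βr = βr := if_neg hy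
    have hy' : 1 ≤ yb C.out βr := by
      have := B.ybβ
      omega
    have hform : ∀ (v : List Γ) (i s' : ℕ), pat βl βr nl nr ℓ h G mm mr v T i s' =
        ℓ ++ v ++ (mm ++ rep βl T ++ nl ++ nr.reverse) ++ rep βr.reverse i ++
          (h ++ rep G s' ++ mr).reverse := by
      intro v i s'
      simp only [pat, List.reverse_append, rep_reverse, List.append_assoc]
    rw [hform] at hmem hoff hacc
    obtain ⟨d, c', cf', x0, x1, x2, y0, y2, Y, w, t, k, r1, r2, t0, f1, f2, f3, f4, f5, f6, f7, f8,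
      f9, f10, f11, f12, f13⟩ := p2b C hM hV (W := βr.reverse) (by rw [gl_reverse, B.glβr]; rfl)
        (by rw [yb_reverse]; exact hy') (by
        simp [L.glh, L.glmr, hgG]) hmem hacc hoff (by
        refine le_trans (Nat.mul_le_mul_left _ ?_) hT
        simp [B.glβl]
        omega)
    rw [List.reverse_reverse] at f1 f3 f8 f12
    refine ⟨mm ++ rep βl T ++ nl ++ nr.reverse, mr, x0, x1, x2, y0, y2, Y, w, c'.1, cf'.1, d.1, t, k,
      r1, r2, t0, hx0 _ _ _ f4 f5, f6, f11.1, f1.1, f2.1, ?_, f4, f7.1, ?_, f9, f10.1, ?_, ?_, ?_,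
      ?_, ?_, L.glmr⟩
    · rw [hπ]; exact f3
    · rw [hπ]; exact f8
    · rw [hπ]; exact f12
    · rw [hπ]; exact f13
    · intro v i s' hv
      have := pat_accepts C B L (v := v) hv T i s'
      rw [hform] at this
      rw [hπ]
      exact this
    · rw [hπ]; exact B.glβr
    · rw [hπ]; exact B.pcβr

end LNC
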