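import Pool.Agent.LNC.Defs2
import Pool.Agent.RC.Cone

/-!
# LNC, module Mirror: reversal

`mge m n := m ≤ n`, so `Pl mge = {0^m 1^n : m ≤ n}`.

Proofs.
* `mem_T_reverse`: if `K = im τ L` and `τ` is given by the regular language `R`, then
  `K.reverse = im τ' L.reverse` where `τ'` is given by `R.reverse` (`Language.IsRegular.reverse`):
  `p1 z.reverse = (p1 z).reverse` (`List.filterMap_reverse`).
* `Pal_reverse`: `(v ++ v.reverse).reverse = v ++ v.reverse`.
* `ge_iff`: `(Pl mge).reverse = {1^n 0^m : m ≤ n}`, and the letter map `Equiv.swap 0 1` sends it onto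
  `Pl mle` (`0^n 1^m`, `m ≤ n`), and back (`IsRational.letterMap`, `IsRational.comp`). So
  `mk (Pl mge) ∈ T A ↔ mk (Pl mge).reverse ∈ T A.reverse` (`mem_T_reverse` in both directions,
  `Language.reverse_reverse`) `↔ mk (Pl mle) ∈ T A.reverse`.
-/

namespace LNC

open RCone

/-- `main` of the language `S_≥ = {0^m 1^n : m ≤ n}` -/
def mge (m n : ℕ) : Prop := m ≤ n

theorem mem_T_reverse {X : Type} {n : ℕ} {L : Language X} {K : Language (Fin n)}
    (h : mk K ∈ T L) : mk K.reverse ∈ T L.reverse := by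
  obtain ⟨τ, ⟨R, hR, hτ⟩, hK⟩ := h
  have hr1 : ∀ z : List (Option X × Option (Fin n)), p1 z.reverse = (p1 z).reverse := fun z => by
    unfold p1; exact List.filterMap_reverse
  have hr2 : ∀ z : List (Option X × Option (Fin n)), p2 z.reverse = (p2 z).reverse := fun z => by
    unfold p2; exact List.filterMap_reverse
  refine ⟨{p | (p.1.reverse, p.2.reverse) ∈ τ}, ⟨R.reverse, hR.reverse, ?_⟩, ?_⟩
  · intro u w
    constructor
    · intro h
      obtain ⟨z, hz, h1, h2⟩ := (hτ _ _).1 h
      refine ⟨z.reverse, ?_, ?_, ?_⟩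
      · rw [Language.mem_reverse, List.reverse_reverse]; exact hz
      · rw [hr1, h1, List.reverse_reverse]
      · rw [hr2, h2, List.reverse_reverse]
    · rintro ⟨z, hz, rfl, rfl⟩
      show ((p1 z).reverse, (p2 z).reverse) ∈ τ
      rw [hτ]
      exact ⟨z.reverse, hz, hr1 z, hr2 z⟩
  · have hK' : K = im τ L := hK
    show K.reverse = _
    ext w
    rw [Language.mem_reverse, hK']
    constructor
    · rintro ⟨u, hu, h⟩
      refine ⟨u.reverse, ?_, ?_⟩
      · rw [Language.mem_reverse, List.reverse_reverse]; exact hu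
      · show (u.reverse.reverse, w.reverse) ∈ τ
        rw [List.reverse_reverse]; exact h
    · rintro ⟨u, hu, h⟩
      exact ⟨u.reverse, hu, h⟩

theorem Pal_reverse : Pal.reverse = Pal := by
  ext w
  rw [Language.mem_reverse]
  constructor
  · rintro ⟨v, hv⟩
    refine ⟨v, ?_⟩
    have := congrArg List.reverse hv
    rw [List.reverse_reverse, List.reverse_append, List.reverse_reverse] at this
    exact this
  · rintro ⟨v, hv⟩
    refine ⟨v, ?_⟩
    rw [hv, List.reverse_append, List.reverse_reverse]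

private theorem Mirror_swap {k : ℕ} {L : Language (Fin 2)} {B : Language (Fin k)}
    (h : mk L ∈ T B) (K : Language (Fin 2))
    (hK : ∀ w, w ∈ K ↔ w.map (Equiv.swap (0 : Fin 2) 1) ∈ L) : mk K ∈ T B := by
  refine T_subset h ⟨_, IsRational.letterMap (Equiv.swap (0 : Fin 2) 1), ?_⟩
  show K = _
  ext w
  rw [hK]
  have hs : ∀ v : List (Fin 2), (v.map (Equiv.swap (0 : Fin 2) 1)).map (Equiv.swap (0 : Fin 2) 1) =
      v := by
    intro v
    rw [List.map_map]
    conv_rhs => rw [← List.map_id v]
    congr 1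
    funext x
    simp
  constructor
  · intro h
    exact ⟨_, h, (hs w).symm⟩
  · rintro ⟨u, hu, h⟩
    have h' : w = u.map (Equiv.swap (0 : Fin 2) 1) := h
    rw [h', hs]
    exact hu

theorem ge_iff {m : ℕ} (A : Language (Fin m)) :
    mk (Pl mge) ∈ T A ↔ mk (Pl mle) ∈ T A.reverse := by
  have key1 : ∀ w, w ∈ Pl mle ↔ w.map (Equiv.swap (0 : Fin 2) 1) ∈ (Pl mge).reverse := by
    intro w
    rw [Language.mem_reverse]
    constructor
    · rintro ⟨a, b, h, rfl⟩
      refine ⟨b, a, h, ?_⟩
      simp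
    · rintro ⟨a, b, h, hw⟩
      refine ⟨b, a, h, ?_⟩
      have h1 := congrArg (fun l => (l.reverse).map (Equiv.swap (0 : Fin 2) 1)) hw
      simp only [List.reverse_reverse, List.map_map] at h1
      have h2 : ((Equiv.swap (0 : Fin 2) 1 : Fin 2 → Fin 2) ∘ (Equiv.swap (0 : Fin 2) 1)) = id := by
        funext x
        simp
      rw [h2, List.map_id] at h1
      rw [h1]
      simp
  have key2 : ∀ w, w ∈ Pl mge ↔ w.map (Equiv.swap (0 : Fin 2) 1) ∈ (Pl mle).reverse := by
    intro w
    rw [Language.mem_reverse]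
    constructor
    · rintro ⟨a, b, h, rfl⟩
      refine ⟨b, a, h, ?_⟩
      simp
    · rintro ⟨a, b, h, hw⟩
      refine ⟨b, a, h, ?_⟩
      have h1 := congrArg (fun l => (l.reverse).map (Equiv.swap (0 : Fin 2) 1)) hw
      simp only [List.reverse_reverse, List.map_map] at h1
      have h2 : ((Equiv.swap (0 : Fin 2) 1 : Fin 2 → Fin 2) ∘ (Equiv.swap (0 : Fin 2) 1)) = id := by
        funext x
        simp
      rw [h2, List.map_id] at h1
      rw [h1]
      simp
  constructor
  · intro h
    exact Mirror_swap (mem_T_reverse h) _ key1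
  · intro h
    have h1 := mem_T_reverse h
    rw [Language.reverse_reverse] at h1
    exact Mirror_swap h1 _ key2

end LNC
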