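import Pool.Agent.LNC.OneStep
import Pool.Agent.LNC.Mirror

/-!
# LNC, module Main (assembly)
-/

namespace LNC

open RCone

theorem T_subset_iff {m n : ℕ} (K : Language (Fin m)) (L : Language (Fin n)) :
    T K ⊆ T L ↔ mk K ∈ T L :=
  ⟨fun h => h (mem_T_self K), fun h => T_subset h⟩

theorem T_ssubset_iff {m n : ℕ} (K : Language (Fin m)) (L : Language (Fin n)) :
    T K ⊂ T L ↔ mk K ∈ T L ∧ mk L ∉ T K := by
  rw [Set.ssubset_def, T_subset_iff, T_subset_iff]

/-- the conclusion of the main theorem -/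
def Concl {m : ℕ} (B : Language (Fin m)) (P : Language (Fin 2)) : Prop :=
  ∃ (n : ℕ → ℕ) (C : ∀ k, Language (Fin (n k))), (∀ k, ∃ w, w ∈ C k) ∧ (∀ k, mk (C k) ∈ T Pal) ∧
    T B ⊂ T (C 0) ∧ (∀ k, T (C k) ⊂ T (C (k + 1))) ∧
    ∀ (k l : ℕ) (A : Language (Fin l)), mk B ∈ T A → mk P ∈ T A → T (C k) ⊂ T A

theorem chain {main : ℕ → ℕ → Prop} (h : main = meq ∨ main = mle) {m : ℕ}
    (B : Language (Fin m)) (hne : ∃ w, w ∈ B) (hlin : mk B ∈ T Pal) (hP : mk (Pl main) ∉ T B) :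
    Concl B (Pl main) := by
  classical
  let St := {p : Σ n : ℕ, Language (Fin n) // (∃ w, w ∈ p.2) ∧ mk p.2 ∈ T Pal ∧
    mk (Pl main) ∉ T p.2}
  have hnext : ∀ p : St, ∃ q : St, mk p.1.2 ∈ T q.1.2 ∧ mk q.1.2 ∉ T p.1.2 ∧
      ∀ (l : ℕ) (A : Language (Fin l)), mk p.1.2 ∈ T A → mk (Pl main) ∈ T A → mk q.1.2 ∈ T A := by
    rintro ⟨⟨n, D⟩, h1, h2, h3⟩
    obtain ⟨n', C, c1, c2, c3, c4, c5, c6⟩ := one_step h D h1 h2 h3
    exact ⟨⟨⟨n', C⟩, c1, c2, c3⟩, c4, c5, c6⟩
  choose next hn1 hn2 hn3 using hnext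
  let p0 : St := ⟨⟨m, B⟩, hne, hlin, hP⟩
  let s : ℕ → St := fun k => Nat.rec (next p0) (fun _ q => next q) k
  have hs : ∀ k, s (k + 1) = next (s k) := fun k => rfl
  refine ⟨fun k => (s k).1.1, fun k => (s k).1.2, fun k => (s k).2.1, fun k => (s k).2.2.1, ?_,
    fun k => ?_, ?_⟩
  · rw [T_ssubset_iff]
    exact ⟨hn1 p0, hn2 p0⟩
  · rw [T_ssubset_iff]
    exact ⟨hn1 (s k), hn2 (s k)⟩
  · intro k l A hB hPA
    have hmem : mk (s k).1.2 ∈ T A := by
      induction k with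
      | zero => exact hn3 p0 l A hB hPA
      | succ k ih => exact hn3 (s k) l A ih hPA
    exact (T_ssubset_iff _ _).2 ⟨hmem, fun hA => (s k).2.2.2 (T_subset hA hPA)⟩

theorem mem_T_reverse_iff {m n : ℕ} (K : Language (Fin n)) (L : Language (Fin m)) :
    mk K.reverse ∈ T L.reverse ↔ mk K ∈ T L := by
  constructor
  · intro h
    have := mem_T_reverse h
    rwa [Language.reverse_reverse, Language.reverse_reverse] at this
  · exact mem_T_reverse

theorem chain_ge {m : ℕ} (B : Language (Fin m)) (hne : ∃ w, w ∈ B) (hlin : mk B ∈ T Pal)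
    (hP : mk (Pl mge) ∉ T B) : Concl B (Pl mge) := by
  have hlin' : mk B.reverse ∈ T Pal := by
    have := mem_T_reverse hlin
    rwa [Pal_reverse] at this
  have hne' : ∃ w, w ∈ B.reverse := by
    obtain ⟨w, hw⟩ := hne
    exact ⟨w.reverse, by rw [Language.mem_reverse, List.reverse_reverse]; exact hw⟩
  have hP' : mk (Pl mle) ∉ T B.reverse := fun h => hP ((ge_iff B).2 h)
  obtain ⟨n, C, h1, h2, h3, h4, h5⟩ := chain (Or.inr rfl) B.reverse hne' hlin' hP'
  refine ⟨n, fun k => (C k).reverse, fun k => ?_, fun k => ?_, ?_, fun k => ?_, ?_⟩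
  · obtain ⟨w, hw⟩ := h1 k
    exact ⟨w.reverse, by rw [Language.mem_reverse, List.reverse_reverse]; exact hw⟩
  · have := mem_T_reverse (h2 k)
    rwa [Pal_reverse] at this
  · rw [T_ssubset_iff] at h3 ⊢
    refine ⟨?_, fun h => h3.2 ?_⟩
    · have := mem_T_reverse h3.1
      rwa [Language.reverse_reverse] at this
    · have := mem_T_reverse h
      rwa [Language.reverse_reverse] at this
  · have := h4 k
    rw [T_ssubset_iff] at this ⊢
    rw [mem_T_reverse_iff, mem_T_reverse_iff]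
    exact this
  · intro k l A hB hPA
    have := h5 k l A.reverse (mem_T_reverse hB) ((ge_iff A).1 hPA)
    rw [T_ssubset_iff] at this ⊢
    refine ⟨?_, fun h => this.2 ?_⟩
    · have h6 := mem_T_reverse this.1
      rwa [Language.reverse_reverse] at h6
    · have h6 := mem_T_reverse h
      rwa [Language.reverse_reverse] at h6

/-- The main theorem. -/
theorem main {m : ℕ} (B : Language (Fin m)) (hne : ∃ w, w ∈ B) (hlin : mk B ∈ T Pal)
    (P : Language (Fin 2)) (hPP : P = Pl meq ∨ P = Pl mle ∨ P = Pl mge) (hP : mk P ∉ T B) :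
    Concl B P := by
  rcases hPP with rfl | rfl | rfl
  · exact chain (Or.inl rfl) B hne hlin hP
  · exact chain (Or.inr rfl) B hne hlin hP
  · exact chain_ge B hne hlin hP

end LNC
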