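import Pool.Agent.LNC.Cnt
import Pool.Agent.LNC.SR

/-!
# LNC, module NestD: nested loops of lower level, composite loops, the left part of a nested loop

* `Nest.nw`: a nested loop is a balanced loop (both cases of the definition).
* `Nest.down`: induction on `i`. If `j = i` take `X = Xr = Z = Zr = []`. If `j < i = i' + 1`: the
  definition gives `V = X ++ V' ++ Z` (`rep V' 1 = V'`), and the induction hypothesis for `V'`.
* `Nest.comp`: induction on `i`. `i = 0`: the same words. `i + 1`: from `V = X ++ V' ++ Z`,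
  `G = Xr ++ G' ++ Zr` and `Nest m cb i c' V'' G''` (induction hypothesis) take
  `X ++ rep V'' m ++ Z`, `Xr ++ rep G'' m ++ Zr`. It is a loop at `c` (`StepRel.rep`,
  `StepRel.append`). The letters of `gl X`, `gl Z` are `≤ i + 1` and one of them equals `i + 1`,
  because those of `gl V'` are `≤ i`; `yb`, `pc` of `X`, `Z` are `0`; `gl`, `yb` of `Xr`, `Zr` are
  empty resp. `0`; `pc Xr + pc Zr = |gl X| + |gl Z|` since both `V | G` and `V' | G'` are balanced.
* `Nest.left`: induction on `i`; `c.2.1` is the state of `M`, use the second component of `C.CR.rel`.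
-/

namespace LNC

open RCone

variable {e : ℕ} {main : ℕ → ℕ → Prop} {Q S Γ : Type} (C : Ctx e main Q S Γ)

theorem Nest.nw {m : ℕ} {cb : Conf Q S} {i : ℕ} {c : Conf Q S} {V G : List Γ}
    (h : Nest C m cb i c V G) : NW C i c V G := by
  cases i with
  | zero => exact h.2
  | succ i => exact h.1

theorem Nest.down {cb : Conf Q S} : ∀ (i : ℕ) (c : Conf Q S) (V G : List Γ),
    Nest C 1 cb i c V G → ∀ j ≤ i, ∃ (c' : Conf Q S) (X Xr V' G' Z Zr : List Γ),
      V = X ++ V' ++ Z ∧ G = Xr ++ G' ++ Zr ∧ C.CR.rel c X Xr c' ∧ C.CR.rel c' Z Zr c ∧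
      Nest C 1 cb j c' V' G' := by
  intro i
  induction i with
  | zero =>
    intro c V G h j hj
    obtain rfl : j = 0 := by omega
    exact ⟨c, [], [], V, G, [], [], by simp, by simp, C.CR.nil c, C.CR.nil c, h⟩
  | succ i ih =>
    intro c V G h j hj
    rcases Nat.lt_or_ge i j with hij | hij
    · obtain rfl : j = i + 1 := by omega
      exact ⟨c, [], [], V, G, [], [], by simp, by simp, C.CR.nil c, C.CR.nil c, h⟩
    · obtain ⟨-, c', X, Xr, V', G', Z, Zr, hV, hG, h1, h2, h3⟩ := h
      obtain ⟨c'', X', Xr', V'', G'', Z', Zr', hV', hG', h1', h2', h3'⟩ := ih c' V' G' h3 j hij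
      refine ⟨c'', X ++ X', Xr ++ Xr', V'', G'', Z' ++ Z, Zr' ++ Zr, ?_, ?_, C.CR.append h1 h1',
        C.CR.append h2' h2, h3'⟩
      · rw [hV, hV', rep_succ, rep_zero]
        simp only [List.append_assoc, List.append_nil]
      · rw [hG, hG', rep_succ, rep_zero]
        simp only [List.append_assoc, List.append_nil]

theorem Nest.comp {cb : Conf Q S} (m : ℕ) : ∀ (i : ℕ) (c : Conf Q S) (V G : List Γ),
    Nest C 1 cb i c V G → ∃ V' G' : List Γ, Nest C m cb i c V' G' := by
  intro i
  induction i with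
  | zero =>
    intro c V G h
    exact ⟨V, G, h⟩
  | succ i ih =>
    intro c V G h
    obtain ⟨hnw, c', X, Xr, V', G', Z, Zr, hV, hG, h1, h2, h3⟩ := h
    obtain ⟨V'', G'', h4⟩ := ih c' V' G' h3
    have hw' := Nest.nw C h3
    have hw'' := Nest.nw C h4
    obtain ⟨-, a1, ⟨a, ha, hai⟩, a3, a4, a5, a6, a7⟩ := hnw
    obtain ⟨-, b1, -, b3, b4, b5, b6, b7⟩ := hw'
    obtain ⟨d0, d1, -, d3, d4, d5, d6, d7⟩ := hw''
    rw [rep_succ, rep_zero, List.append_nil] at hV hG
    subst hV
    subst hG
    simp only [gl_append, yb_append, pc_append, List.append_eq_nil_iff, List.length_append,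
      List.mem_append] at a1 ha a3 a4 a5 a6 a7
    refine ⟨X ++ rep V'' m ++ Z, Xr ++ rep G'' m ++ Zr, ?_, c', X, Xr, V'', G'', Z, Zr, rfl, rfl,
      h1, h2, h4⟩
    refine ⟨C.CR.append (C.CR.append h1 (C.CR.rep d0 m)) h2, ?_, ⟨a, ?_, hai⟩, ?_, ?_, ?_, ?_, ?_⟩
    · intro x hx
      rw [gl_append, gl_append, List.mem_append, List.mem_append, gl_rep] at hx
      rcases hx with (hx | hx) | hx
      · exact a1 x (Or.inl (Or.inl hx))
      · exact (d1 x (mem_of_mem_rep hx)).trans (Nat.le_succ i)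
      · exact a1 x (Or.inr hx)
    · rw [gl_append, gl_append, List.mem_append, List.mem_append]
      rcases ha with (ha | ha) | ha
      · exact Or.inl (Or.inl ha)
      · have := b1 a ha
        omega
      · exact Or.inr ha
    · rw [yb_append, yb_append, yb_rep, d3]
      omega
    · rw [pc_append, pc_append, pc_rep, d4]
      omega
    · rw [gl_append, gl_append, gl_rep, d5, a5.1.1, a5.2, rep_nil]
      rfl
    · rw [yb_append, yb_append, yb_rep, d6]
      omega
    · rw [pc_append, pc_append, pc_rep, gl_append, gl_append, gl_rep, List.length_append,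
        List.length_append, length_rep, d7]
      omega

theorem Nest.left {m : ℕ} {cb : Conf Q S} : ∀ (i : ℕ) (c : Conf Q S) (V G : List Γ),
    Nest C m cb i c V G → LNest C.out C.M m cb.2.1 i c.2.1 V := by
  intro i
  induction i with
  | zero =>
    intro c V G h
    obtain ⟨rfl, h0, h1, h2, h3, h4, -⟩ := h
    exact ⟨rfl, h0.2.1, h1, h2, h3, h4⟩
  | succ i ih =>
    intro c V G h
    obtain ⟨⟨h0, a1, a2, a3, a4, -⟩, c', X, Xr, V', G', Z, Zr, hV, hG, h1, h2, h3⟩ := h
    exact ⟨⟨h0.2.1, a1, a2, a3, a4⟩, c'.2.1, X, V', Z, hV, h1.2.1, h2.2.1, ih c' V' G' h3⟩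

end LNC
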