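import Pool.Agent.LNC.Cnt
import Pool.Agent.LNC.Loop

/-!
# LNC, module NestEx: existence of nested loops

`D = card (Conf Q S)`. If `(ξ | η)` leads from `c` to `c'`, the left word outputs `(U_i)^D`, the right
word outputs letters `c` only, and every loop inside `(ξ | η)` is balanced, then there is a nested
loop (`Nest` with `m = 1`) of level `i` inside `(ξ | η)`.

Proof by induction on `i`. Since `ξ.filterMap out = (rep U_i D).map inl`, the word `ξ` is a product
`cat X 0 D ++ R` with `(X t).filterMap out = U_i.map inl` and `R.filterMap out = []` (induction on the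
number of copies with `List.filterMap_eq_append_iff`; one can take `R = []` for `D ≥ 1` or keep it).
`StepRel.loopL` (`m = D`): `a < b ≤ D`, a configuration `c₁`, `η = η₁ ++ η₂ ++ η₃`,
`rel c (cat X 0 a) η₁ c₁`, `rel c₁ (cat X a b) η₂ c₁`, `rel c₁ (cat X b D ++ R) η₃ c'`.
The loop `V = cat X a b`, `G = η₂` satisfies `NW C i c₁ V G`: `V.filterMap out` consists of `b - a ≥ 1`
copies of `U_i.map inl` (`Uw_le`, `Uw_mem`), the right word has `gl = []`, `yb = 0` as a factor of `η`,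
and `pc G = (gl V).length` by the hypothesis on balanced loops.
`i = 0`: take `cb = c₁`.
`i + 1`: `V = X a ++ cat X (a+1) b`, `(X a).filterMap out = (rep U_i n ++ [g_{i+1}]).map inl`, and
`D ≤ n`, so `X a = X' ++ X''` with `X'.filterMap out = (rep U_i D).map inl`. `splitL` for
`V = X' ++ (X'' ++ cat X (a+1) b)`: `η₂ = θ' ++ θ''`, `rel c₁ X' θ' d`, `rel d (X'' ++ …) θ'' c₁`. The
induction hypothesis for `(X' | θ')` (every loop inside it is a loop inside `(ξ | η)`) gives
`X' = ζ₁ ++ V' ++ ζ₃`, `θ' = θ₁ ++ G' ++ θ₃` and a nested loop of level `i` at `c₂`. Take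
`X := ζ₁`, `Xr := θ₁`, `Z := ζ₃ ++ X'' ++ cat X (a+1) b`, `Zr := θ₃ ++ θ''`; `rep V' 1 = V'`.
-/

namespace LNC

open RCone

variable {e : ℕ} {main : ℕ → ℕ → Prop} {Q S Γ : Type} (C : Ctx e main Q S Γ)

/-- every loop inside `(ξ | η)` is balanced -/
def Bal (c : Conf Q S) (ξ η : List Γ) (c' : Conf Q S) : Prop :=
  ∀ (c₁ : Conf Q S) (ξ₁ ξ₂ ξ₃ η₁ η₂ η₃ : List Γ), ξ = ξ₁ ++ ξ₂ ++ ξ₃ → η = η₁ ++ η₂ ++ η₃ →
    C.CR.rel c ξ₁ η₁ c₁ → C.CR.rel c₁ ξ₂ η₂ c₁ → C.CR.rel c₁ ξ₃ η₃ c' →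
    pc C.out η₂ = (gl C.out ξ₂).length

private theorem NestEx_cat_congr {α : Type} {X Y : ℕ → List α} {m : ℕ}
    (h : ∀ t < m, X t = Y t) : cat X 0 m = cat Y 0 m := by
  unfold cat
  congr 1
  refine List.map_congr_left fun t ht => h t ?_
  rw [List.mem_range'_1] at ht
  omega

/-- decomposition of a word with output `W^m` -/
private theorem NestEx_dec {α β : Type} (f : α → Option β) (W : List β) :
    ∀ (m : ℕ) (ξ : List α), ξ.filterMap f = rep W m →
      ∃ (X : ℕ → List α) (R : List α), ξ = cat X 0 m ++ R ∧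
        (∀ t < m, (X t).filterMap f = W) := by
  intro m
  induction m with
  | zero =>
    intro ξ _
    refine ⟨fun _ => [], ξ, ?_, fun t ht => absurd ht (by omega)⟩
    rw [cat_self, List.nil_append]
  | succ m ih =>
    intro ξ h
    rw [rep_succ', List.filterMap_eq_append_iff] at h
    obtain ⟨ξ₁, ξ₂, rfl, h1, h2⟩ := h
    obtain ⟨X, R, rfl, hX⟩ := ih ξ₁ h1
    have hR : R.filterMap f = [] := by
      rw [List.filterMap_append] at h1
      have h3 : (cat X 0 m).filterMap f = rep W m := by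
        clear h1 ih
        induction m with
        | zero => rw [cat_self]; simp
        | succ m ih =>
          rw [cat_succ X (Nat.zero_le m), List.filterMap_append,
            ih (fun t ht => hX t (by omega)), hX m (by omega), rep_succ']
      rw [h3] at h1
      exact List.append_right_eq_self.1 h1
    refine ⟨fun t => if t = m then R ++ ξ₂ else X t, [], ?_, ?_⟩
    · have hc : cat (fun t => if t = m then R ++ ξ₂ else X t) 0 m = cat X 0 m :=
        NestEx_cat_congr fun t ht => if_neg (Nat.ne_of_lt ht)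
      rw [cat_succ _ (Nat.zero_le m), hc]
      simp
    · intro t ht
      by_cases hc : t = m
      · simp only [hc, if_true]
        rw [List.filterMap_append, hR, h2, List.nil_append]
      · simp only [hc, if_false]
        exact hX t (by omega)

private theorem NestEx_cat_out {α β : Type} {f : α → Option β} {W : List β} {X : ℕ → List α}
    {m : ℕ} (hX : ∀ t < m, (X t).filterMap f = W) {a b : ℕ} (hab : a ≤ b) (hb : b ≤ m) :
    (cat X a b).filterMap f = rep W (b - a) := by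
  induction b, hab using Nat.le_induction with
  | base => rw [cat_self, Nat.sub_self]; simp
  | succ b hab ih =>
    rw [cat_succ X hab, List.filterMap_append, ih (by omega), hX b (by omega),
      Nat.sub_add_comm hab, rep_succ']

private theorem NestEx_map_rep {α β : Type} (f : α → β) (u : List α) (k : ℕ) :
    rep (u.map f) k = (rep u k).map f := by
  induction k with
  | zero => simp
  | succ k ih => rw [rep_succ, rep_succ, ih, List.map_append]

private theorem NestEx_word (u : List (Fin e)) : word u 0 0 = u.map Sum.inl := by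
  simp [word]

theorem nest_exists [Fintype Q] [Fintype S] [NeZero e] (n : ℕ)
    (hn : Fintype.card (Conf Q S) ≤ n) : ∀ i, i < e → ∀ (c c' : Conf Q S) (ξ η : List Γ),
      C.CR.rel c ξ η c' →
      ξ.filterMap C.out = (rep (Uw e n i) (Fintype.card (Conf Q S))).map Sum.inl →
      gl C.out η = [] → yb C.out η = 0 → Bal C c ξ η c' →
      ∃ (cb c₁ : Conf Q S) (ξ₁ V ξ₃ η₁ G η₃ : List Γ), ξ = ξ₁ ++ V ++ ξ₃ ∧ η = η₁ ++ G ++ η₃ ∧
        C.CR.rel c ξ₁ η₁ c₁ ∧ Nest C 1 cb i c₁ V G ∧ C.CR.rel c₁ ξ₃ η₃ c' := by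
  intro i
  -- the outer loop
  have outer : ∀ i, i < e → ∀ (c c' : Conf Q S) (ξ η : List Γ),
      C.CR.rel c ξ η c' →
      ξ.filterMap C.out = (rep (Uw e n i) (Fintype.card (Conf Q S))).map Sum.inl →
      gl C.out η = [] → yb C.out η = 0 → Bal C c ξ η c' →
      ∃ (c₁ : Conf Q S) (ξ₁ X0 V' ξ₃ η₁ G η₃ : List Γ), ξ = ξ₁ ++ (X0 ++ V') ++ ξ₃ ∧
        η = η₁ ++ G ++ η₃ ∧ C.CR.rel c ξ₁ η₁ c₁ ∧ NW C i c₁ (X0 ++ V') G ∧
        C.CR.rel c₁ ξ₃ η₃ c' ∧ X0.filterMap C.out = (Uw e n i).map Sum.inl := by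
    intro i hi c c' ξ η hr hξ hgl hyb hbal
    rw [← NestEx_map_rep] at hξ
    obtain ⟨X, R, rfl, hX⟩ := NestEx_dec C.out _ _ _ hξ
    obtain ⟨a, b, c₁, η₁, η₂, η₃, hab, hbD, rfl, r1, r2, r3⟩ := C.CR.loopL le_rfl hr
    have hsplit : cat X a b = X a ++ cat X (a + 1) b := by
      rw [← cat_append X (Nat.le_succ a) hab, cat_succ X le_rfl, cat_self, List.nil_append]
    have hfull : cat X 0 (Fintype.card (Conf Q S)) ++ R =
        cat X 0 a ++ cat X a b ++ (cat X b (Fintype.card (Conf Q S)) ++ R) := by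
      rw [cat_append X (Nat.zero_le a) hab.le, ← List.append_assoc,
        cat_append X (Nat.zero_le b) hbD]
    have hVout : (cat X a b).filterMap C.out = word (rep (Uw e n i) (b - a)) 0 0 := by
      rw [NestEx_cat_out hX hab.le hbD, NestEx_map_rep, NestEx_word]
    obtain ⟨v1, v2, v3⟩ := cnt_of_word C.out hVout
    have hba : b - a = (b - a - 1) + 1 := by omega
    have hpc : pc C.out η₂ = (gl C.out (cat X a b)).length :=
      hbal c₁ _ _ _ η₁ η₂ η₃ hfull rfl r1 r2 r3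
    simp only [gl_append, List.append_eq_nil_iff] at hgl
    simp only [yb_append] at hyb
    refine ⟨c₁, cat X 0 a, X a, cat X (a + 1) b, cat X b (Fintype.card (Conf Q S)) ++ R, η₁, η₂,
      η₃, ?_, rfl, r1, ?_, r3, hX a (by omega)⟩
    · rw [← hsplit, hfull]
    · rw [← hsplit]
      refine ⟨r2, ?_, ?_, v2, v3, hgl.1.2, by omega, hpc⟩
      · rw [v1]
        intro x hx
        exact Uw_le n hi x (mem_of_mem_rep hx)
      · rw [v1]
        obtain ⟨x, hx, hx'⟩ := Uw_mem (e := e) n hi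
        refine ⟨x, ?_, hx'⟩
        rw [hba, rep_succ, List.mem_append]
        exact Or.inl hx
  induction i with
  | zero =>
    intro hi c c' ξ η hr hξ hgl hyb hbal
    obtain ⟨c₁, ξ₁, X0, V', ξ₃, η₁, G, η₃, e1, e2, r1, hNW, r3, -⟩ :=
      outer 0 hi c c' ξ η hr hξ hgl hyb hbal
    exact ⟨c₁, c₁, ξ₁, X0 ++ V', ξ₃, η₁, G, η₃, e1, e2, r1, ⟨rfl, hNW⟩, r3⟩
  | succ i ih =>
    intro hi c c' ξ η hr hξ hgl hyb hbal
    obtain ⟨c₁, ξ₁, X0, Vr, ξ₃, η₁, G, η₃, e1, e2, r1, hNW, r3, hX0⟩ :=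
      outer (i + 1) hi c c' ξ η hr hξ hgl hyb hbal
    have hrepn : rep (Uw e n i) n = rep (Uw e n i) (Fintype.card (Conf Q S)) ++
        rep (Uw e n i) (n - Fintype.card (Conf Q S)) := by
      rw [← rep_add]
      congr 1
      omega
    have hX1 : X0.filterMap C.out = (rep (Uw e n i) (Fintype.card (Conf Q S))).map Sum.inl ++
        (rep (Uw e n i) (n - Fintype.card (Conf Q S)) ++ [Fin.ofNat e (i + 1)]).map Sum.inl := by
      rw [hX0, Uw, hrepn, ← List.map_append, List.append_assoc]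
    rw [List.filterMap_eq_append_iff] at hX1
    obtain ⟨X', X'', rfl, hX', -⟩ := hX1
    obtain ⟨n1, n2, n3, n4, n5, n6, n7, n8⟩ := hNW
    have n1' : C.CR.rel c₁ (X' ++ (X'' ++ Vr)) G c₁ := by
      rw [← List.append_assoc]; exact n1
    obtain ⟨θ', θ'', d, rfl, s1, s2⟩ := C.CR.splitL n1'
    simp only [gl_append, List.append_eq_nil_iff] at n6
    simp only [yb_append] at n7
    have hbal' : Bal C c₁ X' θ' d := by
      intro c₂ ζ₁ ζ₂ ζ₃ ρ₁ ρ₂ ρ₃ f1 f2 t1 t2 t3
      refine hbal c₂ (ξ₁ ++ ζ₁) ζ₂ (ζ₃ ++ (X'' ++ Vr) ++ ξ₃) (η₁ ++ ρ₁) ρ₂ (ρ₃ ++ θ'' ++ η₃)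
        ?_ ?_ (C.CR.append r1 t1) t2 (C.CR.append (C.CR.append t3 s2) r3)
      · rw [e1, f1]
        simp only [List.append_assoc]
      · rw [e2, f2]
        simp only [List.append_assoc]
    obtain ⟨cb, c₂, ζ₁, V', ζ₃, θ₁, G', θ₃, f1, f2, t1, hN, t3⟩ :=
      ih (by omega) c₁ d X' θ' s1 hX' n6.1 (by omega) hbal'
    refine ⟨cb, c₁, ξ₁, X' ++ X'' ++ Vr, ξ₃, η₁, θ' ++ θ'', η₃, e1, e2, r1,
      ⟨⟨n1, n2, n3, n4, n5, ?_, ?_, n8⟩, c₂, ζ₁, θ₁, V', G', ζ₃ ++ (X'' ++ Vr), θ₃ ++ θ'',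
        ?_, ?_, t1, C.CR.append t3 s2, hN⟩, r3⟩
    · rw [gl_append, n6.1, n6.2, List.append_nil]
    · rw [yb_append]; exact n7
    · have h1 : rep V' 1 = V' := by rw [rep_succ, rep_zero, List.append_nil]
      rw [h1, f1]
      simp only [List.append_assoc]
    · have h1 : rep G' 1 = G' := by rw [rep_succ, rep_zero, List.append_nil]
      rw [h1, f2]
      simp only [List.append_assoc]

end LNC
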