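import Pool.Agent.LNC.Defs2
import Pool.Agent.RC.Cone

/-!
# LNC, module PalLin: the languages in `T(Pal)` are linear

`IsLin B` : there is a regular `R ⊆ (Option Y × Option Y)*` with
`B = {p1 z ++ (p2 z).reverse : z ∈ R}`.

Proof. `B = im φ Pal`, `φ` given by the regular language `R` (accepted by a finite `DFA M` with states
`σ`) over `Option (Fin 2) × Option Y`. A word of `B` is `p2 z` with `z ∈ R`, `p1 z = v ++ v.reverse`.
Write `z = z1 ++ z2` with `p1 z1 = v`, `p1 z2 = v.reverse` (`List.filterMap_eq_append_iff`) and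
`z3 = z2.reverse`; then `p1 z3 = v`, `p2 z = p2 z1 ++ (p2 z3).reverse`. With `s = M.eval z1`:
`z1 ∈ L_s := {z | M.eval z = s}`, `z3 ∈ L'_s := {z | M.evalFrom s z.reverse ∈ M.accept}`. Both are
regular (`L_s` is accepted by `M` with accepting set `{s}`; `L'_s` is the reversal of the language of
`M` with start `s`, `Language.IsRegular.reverse`). Conversely, if `z1 ∈ L_s`, `z3 ∈ L'_s` and
`p1 z1 = p1 z3`, then `z1 ++ z3.reverse ∈ R` and `p2 z1 ++ (p2 z3).reverse ∈ B`.
So `B = {x ++ y.reverse : (x, y) ∈ θ}`, `θ = ⋃_s {(x, y) : ∃ v, (x, v) ∈ α_s⁻¹, (v, y) ∈ γ_s}` with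
`α_s⁻¹ = {(p2 z, p1 z) : z ∈ L_s}`, `γ_s = {(p1 z, p2 z) : z ∈ L'_s}`. `IsRational α_s⁻¹`: swap the
letters, use `regular_map Prod.swap` (or `regular_preimage`). `IsRational.comp` for each `s`; the union
over the finite set `σ` is rational: `IsRational.union` and induction over a `Finset` (the empty
relation is rational: `R = ∅`, e.g. `regular_singleton` intersected with its complement, or
`Language.IsRegular` of `0`); or directly: the language `⋃_s R_s` is regular (`IsRegular.add`).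
Finally `IsRational θ` gives the regular language of `IsLin`.
-/

namespace LNC

open RCone

theorem PalLin_empty {X Y : Type} : IsRational (∅ : Set (List X × List Y)) := by
  refine ⟨_, ⟨Unit, inferInstance, ⟨fun _ _ => (), (), ∅⟩, rfl⟩, ?_⟩
  intro u w
  constructor
  · intro h
    exact absurd h (Set.notMem_empty _)
  · rintro ⟨z, hz, -⟩
    rw [DFA.mem_accepts] at hz
    exact absurd hz (Set.notMem_empty _)

theorem PalLin_iUnion {X Y σ : Type} [Finite σ] (τ : σ → Set (List X × List Y))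
    (h : ∀ s, IsRational (τ s)) : IsRational {p | ∃ s, p ∈ τ s} := by
  classical
  haveI := Fintype.ofFinite σ
  have key : ∀ F : Finset σ, IsRational {p | ∃ s ∈ F, p ∈ τ s} := by
    intro F
    induction F using Finset.induction_on with
    | empty =>
      refine ConeA_congr PalLin_empty ?_
      intro p
      simp
    | insert s F hs ih =>
      refine ConeA_congr ((h s).union ih) ?_
      intro p
      constructor
      · rintro (h1 | ⟨t, ht, h1⟩)
        · exact ⟨s, by simp, h1⟩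
        · exact ⟨t, by simp [ht], h1⟩
      · rintro ⟨t, ht, h1⟩
        rcases Finset.mem_insert.1 ht with rfl | ht
        · exact Or.inl h1
        · exact Or.inr ⟨t, ht, h1⟩
  refine ConeA_congr (key Finset.univ) ?_
  intro p
  constructor
  · rintro ⟨s, -, h⟩
    exact ⟨s, h⟩
  · rintro ⟨s, h⟩
    exact ⟨s, by simp, h⟩

private theorem p1_swap {X Y : Type} (z : List (Option X × Option Y)) :
    p1 (z.map Prod.swap) = p2 z := by
  simp only [p1, p2, List.filterMap_map]
  rfl

private theorem p2_swap {X Y : Type} (z : List (Option X × Option Y)) :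
    p2 (z.map Prod.swap) = p1 z := by
  simp only [p1, p2, List.filterMap_map]
  rfl

theorem isLin_of_mem {m : ℕ} {B : Language (Fin m)} (h : mk B ∈ T Pal) : IsLin B := by
  obtain ⟨φ, ⟨R, ⟨σ, _, M, rfl⟩, hR⟩, hB⟩ := h
  dsimp only [mk] at φ hR hB
  -- the two halves
  have reg1 : ∀ s : σ, Language.IsRegular (T := Option (Fin 2) × Option (Fin m))
      {z | M.evalFrom M.start z = s} := by
    intro s
    exact ⟨σ, inferInstance, ⟨M.step, M.start, {s}⟩, rfl⟩
  have reg2 : ∀ s : σ, Language.IsRegular (T := Option (Fin 2) × Option (Fin m))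
      {z | M.evalFrom s z.reverse ∈ M.accept} := by
    intro s
    have h1 : Language.IsRegular (T := Option (Fin 2) × Option (Fin m))
        {z | M.evalFrom s z ∈ M.accept} := ⟨σ, inferInstance, ⟨M.step, s, M.accept⟩, rfl⟩
    exact h1.reverse
  have ratA : ∀ s : σ, IsRational {p : List (Fin m) × List (Fin 2) |
      ∃ z : List (Option (Fin 2) × Option (Fin m)), M.evalFrom M.start z = s ∧ p2 z = p.1 ∧
        p1 z = p.2} := by
    intro s
    refine ⟨_, regular_map Prod.swap (reg1 s), ?_⟩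
    intro u w
    constructor
    · rintro ⟨z, h1, h2, h3⟩
      refine ⟨z.map Prod.swap, ⟨z, h1, rfl⟩, ?_, ?_⟩
      · rw [p1_swap]; exact h2
      · rw [p2_swap]; exact h3
    · rintro ⟨_, ⟨z, h1, rfl⟩, h2, h3⟩
      rw [p1_swap] at h2
      rw [p2_swap] at h3
      exact ⟨z, h1, h2, h3⟩
  have ratC : ∀ s : σ, IsRational {p : List (Fin 2) × List (Fin m) |
      ∃ z : List (Option (Fin 2) × Option (Fin m)), M.evalFrom s z.reverse ∈ M.accept ∧
        p1 z = p.1 ∧ p2 z = p.2} := by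
    intro s
    exact ⟨_, reg2 s, fun u w => Iff.rfl⟩
  obtain ⟨Q, hQ, hθ⟩ := PalLin_iUnion _ (fun s => (ratA s).comp (ratC s))
  refine ⟨Q, hQ, ?_⟩
  intro w
  have hw : w ∈ B ↔ ∃ z ∈ M.accepts, (∃ v : List (Fin 2), p1 z = v ++ v.reverse) ∧ p2 z = w := by
    rw [hB]
    constructor
    · rintro ⟨u, ⟨v, rfl⟩, h1⟩
      obtain ⟨z, hz, h2, h3⟩ := (hR _ _).1 h1
      exact ⟨z, hz, ⟨v, h2⟩, h3⟩
    · rintro ⟨z, hz, ⟨v, h1⟩, h2⟩
      exact ⟨v ++ v.reverse, ⟨v, rfl⟩, (hR _ _).2 ⟨z, hz, h1, h2⟩⟩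
  rw [hw]
  constructor
  · rintro ⟨z, hz, ⟨v, h1⟩, rfl⟩
    rw [p1, List.filterMap_eq_append_iff] at h1
    obtain ⟨z1, z2, rfl, h2, h3⟩ := h1
    have h4 : (p2 z1, p2 z2.reverse) ∈ ({p | ∃ s, p ∈ {q : List (Fin m) × List (Fin m) |
        ∃ v, (q.1, v) ∈ {p : List (Fin m) × List (Fin 2) |
          ∃ z : List (Option (Fin 2) × Option (Fin m)), M.evalFrom M.start z = s ∧ p2 z = p.1 ∧
            p1 z = p.2} ∧ (v, q.2) ∈ {p : List (Fin 2) × List (Fin m) |
          ∃ z : List (Option (Fin 2) × Option (Fin m)), M.evalFrom s z.reverse ∈ M.accept ∧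
            p1 z = p.1 ∧ p2 z = p.2}}} : Set (List (Fin m) × List (Fin m))) := by
      refine ⟨M.evalFrom M.start z1, v, ⟨z1, rfl, rfl, h2⟩, ⟨z2.reverse, ?_, ?_, rfl⟩⟩
      · rw [List.reverse_reverse, ← evalFrom_append']
        exact hz
      · show p1 z2.reverse = v
        rw [p1, List.filterMap_reverse, h3, List.reverse_reverse]
    obtain ⟨y, hy, h5, h6⟩ := (hθ _ _).1 h4
    refine ⟨y, hy, ?_⟩
    rw [h5, h6, p2_append]
    congr 1
    rw [p2, p2, List.filterMap_reverse, List.reverse_reverse]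
  · rintro ⟨y, hy, rfl⟩
    obtain ⟨s, v, ⟨z1, h1, h2, h3⟩, z3, h4, h5, h6⟩ := (hθ _ _).2 ⟨y, hy, rfl, rfl⟩
    dsimp only at h2 h3 h5 h6
    refine ⟨z1 ++ z3.reverse, ?_, ⟨v, ?_⟩, ?_⟩
    · rw [DFA.mem_accepts, DFA.eval, evalFrom_append', h1]
      exact h4
    · rw [p1_append, h3, ← h5, p1, p1, List.filterMap_reverse]
    · rw [p2_append, h2, ← h6, p2, p2, List.filterMap_reverse]

end LNC
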