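import Pool.Agent.LNC.Defs2

/-!
# LNC, module Parikh: the additive image of a regular language is semilinear

Proof. Let `M` be a finite DFA with states `S`. For a finite set `X` of states let
`P X p q = {(z.map f).sum : M.evalFrom p z = q, all proper intermediate states in X}` — it is simpler to
define it inductively (Kleene): `P ∅ p q = {0 if p = q} ∪ {f a : M.step p a = q}` (finite sets, the
alphabet is finite) and
`P (insert x X) p q = P X p q ∪ (P X p x + closure (P X x x) + P X x q)` (pointwise sums,
`AddSubmonoid.closure`). All of them are semilinear (`IsSemilinearSet.of_finite`, `union`, `add`,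
`closure`). Claim: with `X` = all states (take a list `l` of states and recursion on `l`),
`P X p q = {(z.map f).sum : M.evalFrom p z = q}`. Prove: (a) soundness: every element of `P l p q` is
`(z.map f).sum` for some `z` with `M.evalFrom p z = q` (induction on `l`; for the closure
`AddSubmonoid.closure_induction`); (b) completeness: if `M.evalFrom p z = q` and the states after the
proper non-empty prefixes of `z` are in `l`, then `(z.map f).sum ∈ P l p q`. Induction on `l`; for
`x :: l` use strong induction on `|z|`: if `x` does not occur as an intermediate state use the induction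
hypothesis for `l`; otherwise cut `z` at the first and the last occurrence of `x`; the middle part
`x → x` is cut at the occurrences of `x` into parts in `P l x x` (again by strong induction, the middle
part is in the closure).
Alternative (maybe shorter): the vectors of a run are a path in a finite graph. Any other proof is fine.
Finally the language of `M` is the finite union over `q ∈ M.accept` (`IsSemilinearSet.iUnion` /
`biUnion`).
The monoid is `Fin 2 → ℕ`; any additive commutative monoid works for this module.
-/

namespace LNC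

open RCone
open scoped Pointwise

/-- Kleene's recursion for the sums of the runs with intermediate states in `l` -/
private def parikhP {α S : Type} (M : DFA α S) (f : α → (Fin 2 → ℕ)) :
    List S → S → S → Set (Fin 2 → ℕ)
  | [], p, q => {v | (p = q ∧ v = 0) ∨ ∃ a, M.step p a = q ∧ v = f a}
  | x :: l, p, q => parikhP M f l p q ∪
      (parikhP M f l p x + (AddSubmonoid.closure (parikhP M f l x x) : Set (Fin 2 → ℕ)) +
        parikhP M f l x q)

private theorem parikh_semi {α S : Type} [Finite α] (M : DFA α S) (f : α → (Fin 2 → ℕ))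
    (l : List S) : ∀ p q, IsSemilinearSet (parikhP M f l p q) := by
  induction l with
  | nil =>
    intro p q
    refine IsSemilinearSet.of_finite ?_
    refine Set.Finite.subset (s := insert 0 (Set.range f)) ((Set.finite_range f).insert 0) ?_
    rintro v (⟨_, rfl⟩ | ⟨a, _, rfl⟩)
    · exact Or.inl rfl
    · exact Or.inr ⟨a, rfl⟩
  | cons x l ih =>
    intro p q
    exact (ih p q).union (((ih p x).add (ih x x).closure).add (ih x q))

private theorem parikh_sound {α S : Type} (M : DFA α S) (f : α → (Fin 2 → ℕ)) (l : List S) :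
    ∀ p q, ∀ v ∈ parikhP M f l p q, ∃ z : List α, M.evalFrom p z = q ∧ v = (z.map f).sum := by
  induction l with
  | nil =>
    rintro p q v (⟨h, rfl⟩ | ⟨a, h, rfl⟩)
    · exact ⟨[], h, by simp⟩
    · exact ⟨[a], by simpa using h, by simp⟩
  | cons x l ih =>
    rintro p q v (h | h)
    · exact ih p q v h
    · obtain ⟨w, hw, b, hb, rfl⟩ := Set.mem_add.1 h
      obtain ⟨a, ha, c, hc, rfl⟩ := Set.mem_add.1 hw
      obtain ⟨z1, h1, rfl⟩ := ih _ _ a ha
      obtain ⟨z3, h3, rfl⟩ := ih _ _ b hb
      have hcl : ∃ z : List α, M.evalFrom x z = x ∧ c = (z.map f).sum := by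
        refine AddSubmonoid.closure_induction (motive := fun c _ => ∃ z : List α,
          M.evalFrom x z = x ∧ c = (z.map f).sum) ?_ ?_ ?_ hc
        · intro y hy
          exact ih _ _ y hy
        · exact ⟨[], rfl, by simp⟩
        · rintro y y' _ _ ⟨z, e1, rfl⟩ ⟨z', e2, rfl⟩
          refine ⟨z ++ z', ?_, ?_⟩
          · rw [evalFrom_append', e1, e2]
          · rw [List.map_append, List.sum_append]
      obtain ⟨z2, h2, rfl⟩ := hcl
      refine ⟨z1 ++ z2 ++ z3, ?_, ?_⟩
      · rw [evalFrom_append', evalFrom_append', h1, h2, h3]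
      · simp only [List.map_append, List.sum_append]

private theorem parikh_trans {α S : Type} (M : DFA α S) (f : α → (Fin 2 → ℕ)) (l : List S) :
    ∀ q ∈ l, ∀ p r, ∀ u ∈ parikhP M f l p q, ∀ v ∈ parikhP M f l q r,
      u + v ∈ parikhP M f l p r := by
  induction l with
  | nil => intro q hq; simp at hq
  | cons x l ih =>
    intro q hq p r u hu v hv
    have hsub : parikhP M f l x x ⊆ (AddSubmonoid.closure (parikhP M f l x x) : Set _) :=
      AddSubmonoid.subset_closure
    by_cases hx : q = x
    · subst hx
      have hu' : ∃ a ∈ parikhP M f l p q, ∃ c ∈ AddSubmonoid.closure (parikhP M f l q q),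
          a + c = u := by
        rcases hu with hu | hu
        · exact ⟨u, hu, 0, zero_mem _, add_zero _⟩
        · obtain ⟨w, hw, b, hb, rfl⟩ := Set.mem_add.1 hu
          obtain ⟨a, ha, c, hc, rfl⟩ := Set.mem_add.1 hw
          exact ⟨a, ha, c + b, add_mem hc (hsub hb), (add_assoc _ _ _).symm⟩
      have hv' : ∃ c ∈ AddSubmonoid.closure (parikhP M f l q q), ∃ b ∈ parikhP M f l q r,
          c + b = v := by
        rcases hv with hv | hv
        · exact ⟨0, zero_mem _, v, hv, zero_add _⟩
        · obtain ⟨w, hw, b, hb, rfl⟩ := Set.mem_add.1 hv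
          obtain ⟨a, ha, c, hc, rfl⟩ := Set.mem_add.1 hw
          exact ⟨a + c, add_mem (hsub ha) hc, b, hb, rfl⟩
      obtain ⟨a, ha, c, hc, rfl⟩ := hu'
      obtain ⟨c', hc', b, hb, rfl⟩ := hv'
      refine Or.inr (Set.mem_add.2 ⟨a + (c + c'), Set.mem_add.2 ⟨a, ha, c + c', add_mem hc hc', rfl⟩,
        b, hb, ?_⟩)
      simp only [add_assoc]
    · have hq' : q ∈ l := by
        rcases List.mem_cons.1 hq with h | h
        · exact absurd h hx
        · exact h
      rcases hu with hu | hu
      · rcases hv with hv | hv
        · exact Or.inl (ih q hq' p r u hu v hv)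
        · obtain ⟨w, hw, b, hb, rfl⟩ := Set.mem_add.1 hv
          obtain ⟨a, ha, c, hc, rfl⟩ := Set.mem_add.1 hw
          refine Or.inr (Set.mem_add.2 ⟨u + a + c, Set.mem_add.2 ⟨u + a, ih q hq' p x u hu a ha,
            c, hc, rfl⟩, b, hb, ?_⟩)
          simp only [add_assoc]
      · obtain ⟨w, hw, b, hb, rfl⟩ := Set.mem_add.1 hu
        obtain ⟨a, ha, c, hc, rfl⟩ := Set.mem_add.1 hw
        rcases hv with hv | hv
        · refine Or.inr (Set.mem_add.2 ⟨a + c, Set.mem_add.2 ⟨a, ha, c, hc, rfl⟩, b + v,
            ih q hq' x r b hb v hv, ?_⟩)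
          simp only [add_assoc]
        · obtain ⟨w', hw', b', hb', rfl⟩ := Set.mem_add.1 hv
          obtain ⟨a', ha', c', hc', rfl⟩ := Set.mem_add.1 hw'
          refine Or.inr (Set.mem_add.2 ⟨a + (c + (b + a') + c'), Set.mem_add.2 ⟨a, ha,
            c + (b + a') + c', add_mem (add_mem hc (hsub (ih q hq' x x b hb a' ha'))) hc', rfl⟩,
            b', hb', ?_⟩)
          simp only [add_assoc]

private theorem parikh_mono {α S : Type} (M : DFA α S) (f : α → (Fin 2 → ℕ)) (l : List S)
    (p q : S) : parikhP M f [] p q ⊆ parikhP M f l p q := by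
  induction l with
  | nil => exact subset_rfl
  | cons x l ih => exact ih.trans Set.subset_union_left

theorem parikh {α : Type} [Finite α] (L : Language α) (hL : L.IsRegular) (f : α → (Fin 2 → ℕ)) :
    IsSemilinearSet {v : Fin 2 → ℕ | ∃ z ∈ L, v = (z.map f).sum} := by
  obtain ⟨S, _, M, rfl⟩ := hL
  have hcomp : ∀ (z : List α) (p : S), (z.map f).sum ∈
      parikhP M f (Finset.univ : Finset S).toList p (M.evalFrom p z) := by
    intro z
    induction z with
    | nil =>
      intro p
      exact parikh_mono M f _ _ _ (Or.inl ⟨rfl, by simp⟩)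
    | cons a z ih =>
      intro p
      rw [List.map_cons, List.sum_cons, DFA.evalFrom_cons]
      exact parikh_trans M f _ (M.step p a) (by simp) _ _ _
        (parikh_mono M f _ _ _ (Or.inr ⟨a, rfl, rfl⟩)) _ (ih _)
  have heq : {v : Fin 2 → ℕ | ∃ z ∈ M.accepts, v = (z.map f).sum} =
      ⋃ q ∈ M.accept, parikhP M f (Finset.univ : Finset S).toList M.start q := by
    ext v
    simp only [Set.mem_ofPred_eq, Set.mem_iUnion, exists_prop]
    constructor
    · rintro ⟨z, hz, rfl⟩
      exact ⟨M.eval z, hz, hcomp z M.start⟩
    · rintro ⟨q, hq, hv⟩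
      obtain ⟨z, h1, rfl⟩ := parikh_sound M f _ _ _ v hv
      refine ⟨z, ?_, rfl⟩
      rw [DFA.mem_accepts, DFA.eval, h1]
      exact hq
  rw [heq]
  exact IsSemilinearSet.biUnion (Set.toFinite _) (fun q _ => parikh_semi M f _ _ _)

end LNC
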