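import Mathlib

/-!
# LNC, module Slope: a semilinear staircase contains a scaled copy of `{(i, n) : n ≤ i}`

`A ⊆ ℕ²` is semilinear, closed under increasing the first and under decreasing the second coordinate,
contains the diagonal, and is bounded in the second coordinate for every first coordinate.

Proof. Let `f r = max {s : (r, s) ∈ A}` (`hbd`, `hdiag`): `(r, s) ∈ A ↔ s ≤ f r`, `r ≤ f r`. The graph
`G = {v ∈ A : v + (0, 1) ∉ A}` of `f` is semilinear: `G = A \ A'` with `A' = {v : v + (0,1) ∈ A}`,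
`A'` is the projection/preimage: e.g. `A' = {v | ∃ w ∈ A, w = v + (0,1)}`; use
`IsSemilinearSet.preimage`-type lemmas of `Mathlib.ModelTheory.Arithmetic.Presburger.Semilinear.Basic`
(`IsSemilinearSet.diff`, `inter`, `compl`, `proj`, …), see that file. (Or avoid `A'`: `A` minus the set
`{v + w : v ∈ …}`; or `A \ B` with `B = {v : v + (0,1) ∈ A}` where `B + (0,1) = A ∩ {v : v 1 ≥ 1}`.)
`G` is infinite (it contains `(r, f r)` for all `r`), so one of its finitely many linear pieces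
`a +ᵥ closure t` is infinite, hence has a period `(P, Q) ≠ 0` in `t` (if all elements of `t` are `0` the
piece is `{a}`). Let `a = (r0, s0)`. Then `(r0 + i P, s0 + i Q) ∈ G`, i.e. `f (r0 + i P) = s0 + i Q` for
all `i`. `P ≥ 1`: otherwise `f r0` has several values. `Q ≥ 1`: `s0 + i Q = f (r0 + i P) ≥ r0 + i P ≥ i`
for all `i`. Finally `(r0 + P i, s0 + Q n) ∈ A ↔ s0 + Q n ≤ s0 + Q i ↔ n ≤ i`.
-/

namespace LNC

open Set Pointwise

private theorem slope_aux (v : Fin 2 → ℕ) : v = ![v 0, v 1] := by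
  funext i
  fin_cases i <;> rfl

theorem slope (A : Set (Fin 2 → ℕ)) (hA : IsSemilinearSet A)
    (hmono : ∀ r s r' s' : ℕ, ![r, s] ∈ A → r ≤ r' → s' ≤ s → ![r', s'] ∈ A)
    (hdiag : ∀ r : ℕ, ![r, r] ∈ A) (hbd : ∀ r : ℕ, ∃ N, ∀ s : ℕ, ![r, s] ∈ A → s ≤ N) :
    ∃ r0 s0 P Q : ℕ, 1 ≤ P ∧ 1 ≤ Q ∧ ∀ i n : ℕ, ![r0 + P * i, s0 + Q * n] ∈ A ↔ n ≤ i := by
  classical
  have hH : IsSemilinearSet (((![0, 1] : Fin 2 → ℕ) +ᵥ A) \ A) := (hA.vadd _).sdiff hA
  -- elements of H
  have hel : ∀ v ∈ (((![0, 1] : Fin 2 → ℕ) +ᵥ A) \ A), 1 ≤ v 1 ∧ ![v 0, v 1 - 1] ∈ A ∧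
      ![v 0, v 1] ∉ A := by
    intro v hv
    obtain ⟨⟨a, ha, hav⟩, hv2⟩ := hv
    have h0 : v 0 = a 0 := by
      rw [← hav]; simp [vadd_eq_add]
    have h1 : v 1 = 1 + a 1 := by
      rw [← hav]; simp [vadd_eq_add]
    refine ⟨by omega, ?_, ?_⟩
    · rw [h0, h1]
      have : 1 + a 1 - 1 = a 1 := by omega
      rw [this, ← slope_aux a]
      exact ha
    · rw [← slope_aux v]
      exact hv2
  have hinf : (((![0, 1] : Fin 2 → ℕ) +ᵥ A) \ A).Infinite := by
    have hex : ∀ r : ℕ, ∃ s, ![r, s] ∈ A ∧ ![r, s + 1] ∉ A := by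
      intro r
      obtain ⟨N, hN⟩ := hbd r
      by_contra hcon
      push Not at hcon
      have : ∀ k, ![r, r + k] ∈ A := by
        intro k
        induction k with
        | zero => exact hdiag r
        | succ k ih => exact hcon _ ih
      have h1 := hN _ (this (N + 1))
      omega
    choose f hf1 hf2 using hex
    have hinj : Function.Injective (fun r : ℕ => (![r, f r + 1] : Fin 2 → ℕ)) := by
      intro r r' h
      have := congrFun h 0
      simpa using this
    refine Set.infinite_of_injective_forall_mem hinj ?_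
    intro r
    refine ⟨⟨![r, f r], hf1 r, ?_⟩, hf2 r⟩
    show (![0, 1] : Fin 2 → ℕ) +ᵥ ![r, f r] = ![r, f r + 1]
    funext i
    fin_cases i
    · simp [vadd_eq_add]
    · simp [vadd_eq_add, add_comm]
  obtain ⟨S, hS, hlin, hSU⟩ := hH
  have hexinf : ∃ t ∈ S, t.Infinite := by
    by_contra hcon
    push Not at hcon
    apply hinf
    rw [hSU]
    exact hS.sUnion fun t ht => by
      have := hcon t ht
      simpa using this
  obtain ⟨t, htS, htinf⟩ := hexinf
  obtain ⟨a, T, hT, rfl⟩ := hlin t htS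
  have hsub : (a +ᵥ (AddSubmonoid.closure T : Set (Fin 2 → ℕ))) ⊆
      (((![0, 1] : Fin 2 → ℕ) +ᵥ A) \ A) := by
    rw [hSU]
    exact Set.subset_sUnion_of_mem htS
  have hp : ∃ p ∈ T, p ≠ 0 := by
    by_contra hcon
    push Not at hcon
    apply htinf
    have h1 : AddSubmonoid.closure T = ⊥ := by
      rw [eq_bot_iff, AddSubmonoid.closure_le]
      intro x hx
      exact hcon x hx
    rw [h1]
    simp
  obtain ⟨p, hpT, hp0⟩ := hp
  have hmem : ∀ i : ℕ, a + i • p ∈ (((![0, 1] : Fin 2 → ℕ) +ᵥ A) \ A) := by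
    intro i
    apply hsub
    exact ⟨i • p, (AddSubmonoid.closure T).nsmul_mem (AddSubmonoid.subset_closure hpT) i, rfl⟩
  have h0 := hel a (by simpa using hmem 0)
  obtain ⟨ha1, ha2, ha3⟩ := h0
  have key : ∀ i : ℕ, ![a 0 + i * p 0, a 1 - 1 + i * p 1] ∈ A ∧
      ![a 0 + i * p 0, a 1 - 1 + i * p 1 + 1] ∉ A := by
    intro i
    obtain ⟨h1, h2, h3⟩ := hel _ (hmem i)
    simp only [Pi.add_apply, Pi.smul_apply, smul_eq_mul] at h1 h2 h3
    constructor
    · have : a 1 + i * p 1 - 1 = a 1 - 1 + i * p 1 := by omega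
      rw [this] at h2
      exact h2
    · have : a 1 - 1 + i * p 1 + 1 = a 1 + i * p 1 := by omega
      rw [this]
      exact h3
  have hpne : p 0 ≠ 0 ∨ p 1 ≠ 0 := by
    by_contra hcon
    push Not at hcon
    apply hp0
    funext i
    fin_cases i
    · exact hcon.1
    · exact hcon.2
  have hP : 1 ≤ p 0 := by
    by_contra hcon
    have hp00 : p 0 = 0 := by omega
    have hp1 : 1 ≤ p 1 := by
      rcases hpne with h | h
      · exact absurd hp00 h
      · omega
    obtain ⟨N, hN⟩ := hbd (a 0)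
    have h1 := (key (N + 1)).1
    rw [hp00, Nat.mul_zero, Nat.add_zero] at h1
    have h2 := hN _ h1
    nlinarith
  have hQ : 1 ≤ p 1 := by
    by_contra hcon
    have hp10 : p 1 = 0 := by omega
    have h1 := (key (a 1)).2
    rw [hp10, Nat.mul_zero, Nat.add_zero] at h1
    apply h1
    refine hmono _ _ _ _ (hdiag (a 0 + a 1 * p 0)) le_rfl ?_
    have : a 1 ≤ a 1 * p 0 := Nat.le_mul_of_pos_right _ hP
    omega
  refine ⟨a 0, a 1 - 1, p 0, p 1, hP, hQ, ?_⟩
  intro i n
  constructor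
  · intro h
    by_contra hcon
    have hin : i + 1 ≤ n := by omega
    apply (key i).2
    rw [Nat.mul_comm i (p 0)]
    refine hmono _ _ _ _ h le_rfl ?_
    have : p 1 * (i + 1) ≤ p 1 * n := Nat.mul_le_mul_left _ hin
    have h2 : p 1 * (i + 1) = i * p 1 + p 1 := by ring
    omega
  · intro h
    have h1 := (key i).1
    rw [Nat.mul_comm i (p 0)] at h1
    refine hmono _ _ _ _ h1 le_rfl ?_
    have : p 1 * n ≤ p 1 * i := Nat.mul_le_mul_left _ h
    have h2 : p 1 * i = i * p 1 := by ring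
    omega

end LNC
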