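import Pool.Agent.LNC.CtxB
import Pool.Agent.LNC.Parikh
import Pool.Agent.LNC.Slope
import Pool.Agent.LNC.PalLin

/-!
# LNC, module OffLeB: the property `OffLe` of a linear language

Proof. Let `X0, Y0, X1, Y1, X2` be given, `(r, s) ∈ 𝒮 :↔ X0 Y0^r X1 Y1^s X2 ∈ B`, `(r, r) ∈ 𝒮`. Suppose
the conclusion fails: for every `r` there is `s0 r` such that `(r, s) ∈ 𝒮 → s < s0 r`.
1. `L = {0^r 1^s : (r, s) ∈ 𝒮} ∈ T(B)` (`patIm`). `L' = {0^r 1^s : ∃ r' ≤ r, ∃ s' ≥ s, (r', s') ∈ 𝒮}` is the
image of `L` under the transduction given by the regular language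
`{(some 0, some 0), (none, some 0)}* · {(some 1, some 1), (some 1, none)}*` (pairs
`(0^r' 1^s', 0^r 1^s)` with `r' ≤ r`, `s ≤ s'`; other pairs have the same shape; for a pair of this
relation: the number of `0`'s increases, the number of `1`'s decreases; conversely
`(some 0, some 0)^r' (none, some 0)^(r-r') (some 1, some 1)^s (some 1, none)^(s'-s)`).
So `mk L' ∈ T B ⊆ T Pal` (`T_subset`, `IsRational.comp`), and `IsLin L'` (`isLin_of_mem`).
2. `A = {![r, s] : (∃ r' ≤ r, ∃ s' ≥ s, (r', s') ∈ 𝒮)}` is semilinear: `IsLin L'` gives a regular `R`;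
`A = {(z.map f).sum : z ∈ R}` where `f a i` counts how many of the two components of `a` are `some i`;
indeed `(z.map f).sum = ![number of 0's, number of 1's]` of `p1 z ++ (p2 z).reverse ∈ L'` (`parikh`).
3. `slope` for `A`: `hbd`: the bound `N = max_{r' ≤ r} s0 r'`.
4. `Pl mle = {0^i 1^n : n ≤ i} = {0^i 1^n : 0^(r0 + P i) 1^(s0 + Q n) ∈ L'}` (`rep01_inj`) is in `T(L')` by
`patIm` (`U0 = 0^r0`, `u = 0^P`, `U1 = 1^s0`, `v = 1^Q`, `U2 = []`), hence in `T(B)`: contradiction.
-/

namespace LNC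

open RCone

/-! ### Calculus of rational relations -/

private def mulR {X Y : Type} (τ ρ : Set (List X × List Y)) : Set (List X × List Y) :=
  {p | ∃ a ∈ τ, ∃ b ∈ ρ, p = (a.1 ++ b.1, a.2 ++ b.2)}

private theorem rat_mul {X Y : Type} {τ ρ : Set (List X × List Y)} (hτ : IsRational τ)
    (hρ : IsRational ρ) : IsRational (mulR τ ρ) := by
  obtain ⟨R₁, r1, e1⟩ := hτ
  obtain ⟨R₂, r2, e2⟩ := hρ
  refine ⟨R₁ * R₂, regular_mul r1 r2, ?_⟩
  intro u w
  constructor
  · rintro ⟨⟨a, a'⟩, ha, ⟨b, b'⟩, hb, h⟩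
    obtain ⟨z1, hz1, rfl, rfl⟩ := (e1 _ _).1 ha
    obtain ⟨z2, hz2, rfl, rfl⟩ := (e2 _ _).1 hb
    simp only [Prod.mk.injEq] at h
    obtain ⟨rfl, rfl⟩ := h
    exact ⟨z1 ++ z2, Language.mem_mul.2 ⟨z1, hz1, z2, hz2, rfl⟩, p1_append _ _, p2_append _ _⟩
  · rintro ⟨z, hz, rfl, rfl⟩
    obtain ⟨z1, hz1, z2, hz2, rfl⟩ := Language.mem_mul.1 hz
    exact ⟨(p1 z1, p2 z1), (e1 _ _).2 ⟨z1, hz1, rfl, rfl⟩, (p1 z2, p2 z2),
      (e2 _ _).2 ⟨z2, hz2, rfl, rfl⟩, by rw [p1_append, p2_append]⟩

private theorem rat_gen {W X Y : Type} (f : W → Option X × Option Y) :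
    IsRational {p : List X × List Y | ∃ a : List W, p.1 = p1 (a.map f) ∧ p.2 = p2 (a.map f)} := by
  refine ⟨_, regular_forall (fun l => ∃ a : W, f a = l), ?_⟩
  intro u w
  constructor
  · rintro ⟨a, rfl, rfl⟩
    refine ⟨a.map f, ?_, rfl, rfl⟩
    intro l hl
    obtain ⟨x, _, hx⟩ := List.mem_map.1 hl
    exact ⟨x, hx⟩
  · rintro ⟨z, hz, rfl, rfl⟩
    have key : ∀ z : List (Option X × Option Y), (∀ l ∈ z, ∃ a : W, f a = l) →
        ∃ a : List W, z = a.map f := by
      intro z
      induction z with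
      | nil => intro _; exact ⟨[], rfl⟩
      | cons l z ih =>
        intro hz
        obtain ⟨a, ha⟩ := hz l (by simp)
        obtain ⟨b, hb⟩ := ih (fun l hl => hz l (by simp [hl]))
        exact ⟨a :: b, by rw [List.map_cons, ha, hb]⟩
    obtain ⟨a, rfl⟩ := key z hz
    exact ⟨a, rfl, rfl⟩

/-- the pairs `(0^r', 0^r)` with `r' ≤ r` -/
private def rD0 : Set (List (Fin 2) × List (Fin 2)) :=
  {p | ∃ r' r : ℕ, r' ≤ r ∧ p.1 = List.replicate r' 0 ∧ p.2 = List.replicate r 0}

/-- the pairs `(1^s', 1^s)` with `s ≤ s'` -/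
private def rD1 : Set (List (Fin 2) × List (Fin 2)) :=
  {p | ∃ s' s : ℕ, s ≤ s' ∧ p.1 = List.replicate s' 1 ∧ p.2 = List.replicate s 1}

private theorem rat_D0 : IsRational rD0 := by
  let g : Bool → Option (Fin 2) × Option (Fin 2) := fun x => (if x then some 0 else none, some 0)
  refine ConeA_congr (rat_gen g) ?_
  rintro ⟨u, w⟩
  constructor
  · rintro ⟨a, h1, h2⟩
    have key : ∀ a : List Bool, ∃ r' r : ℕ, r' ≤ r ∧ p1 (a.map g) = List.replicate r' 0 ∧
        p2 (a.map g) = List.replicate r 0 := by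
      intro a
      induction a with
      | nil => exact ⟨0, 0, le_rfl, rfl, rfl⟩
      | cons x a ih =>
        obtain ⟨r', r, h, e1, e2⟩ := ih
        cases x with
        | true =>
          refine ⟨r' + 1, r + 1, by omega, ?_, ?_⟩
          · rw [List.map_cons, List.replicate_succ, ← e1]
            rfl
          · rw [List.map_cons, List.replicate_succ, ← e2]
            rfl
        | false =>
          refine ⟨r', r + 1, by omega, ?_, ?_⟩
          · rw [List.map_cons, ← e1]
            rfl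
          · rw [List.map_cons, List.replicate_succ, ← e2]
            rfl
    obtain ⟨r', r, h, e1, e2⟩ := key a
    exact ⟨r', r, h, h1.trans e1, h2.trans e2⟩
  · rintro ⟨r', r, h, h1, h2⟩
    have key : ∀ r r' : ℕ, r' ≤ r → ∃ a : List Bool, List.replicate r' 0 = p1 (a.map g) ∧
        List.replicate r 0 = p2 (a.map g) := by
      intro r
      induction r with
      | zero =>
        intro r' hr
        obtain rfl : r' = 0 := by omega
        exact ⟨[], rfl, rfl⟩
      | succ r ih =>
        intro r' hr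
        rcases r' with _ | r'
        · obtain ⟨a, e1, e2⟩ := ih 0 (by omega)
          refine ⟨false :: a, ?_, ?_⟩
          · rw [e1, List.map_cons]
            rfl
          · rw [List.replicate_succ, e2, List.map_cons]
            rfl
        · obtain ⟨a, e1, e2⟩ := ih r' (by omega)
          refine ⟨true :: a, ?_, ?_⟩
          · rw [List.replicate_succ, e1, List.map_cons]
            rfl
          · rw [List.replicate_succ, e2, List.map_cons]
            rfl
    obtain ⟨a, e1, e2⟩ := key r r' h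
    exact ⟨a, h1.trans e1, h2.trans e2⟩

private theorem rat_D1 : IsRational rD1 := by
  let g : Bool → Option (Fin 2) × Option (Fin 2) := fun x => (some 1, if x then some 1 else none)
  refine ConeA_congr (rat_gen g) ?_
  rintro ⟨u, w⟩
  constructor
  · rintro ⟨a, h1, h2⟩
    have key : ∀ a : List Bool, ∃ s' s : ℕ, s ≤ s' ∧ p1 (a.map g) = List.replicate s' 1 ∧
        p2 (a.map g) = List.replicate s 1 := by
      intro a
      induction a with
      | nil => exact ⟨0, 0, le_rfl, rfl, rfl⟩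
      | cons x a ih =>
        obtain ⟨s', s, h, e1, e2⟩ := ih
        cases x with
        | true =>
          refine ⟨s' + 1, s + 1, by omega, ?_, ?_⟩
          · rw [List.map_cons, List.replicate_succ, ← e1]
            rfl
          · rw [List.map_cons, List.replicate_succ, ← e2]
            rfl
        | false =>
          refine ⟨s' + 1, s, by omega, ?_, ?_⟩
          · rw [List.map_cons, List.replicate_succ, ← e1]
            rfl
          · rw [List.map_cons, ← e2]
            rfl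
    obtain ⟨s', s, h, e1, e2⟩ := key a
    exact ⟨s', s, h, h1.trans e1, h2.trans e2⟩
  · rintro ⟨s', s, h, h1, h2⟩
    have key : ∀ s' s : ℕ, s ≤ s' → ∃ a : List Bool, List.replicate s' 1 = p1 (a.map g) ∧
        List.replicate s 1 = p2 (a.map g) := by
      intro s'
      induction s' with
      | zero =>
        intro s hs
        obtain rfl : s = 0 := by omega
        exact ⟨[], rfl, rfl⟩
      | succ s' ih =>
        intro s hs
        rcases s with _ | s
        · obtain ⟨a, e1, e2⟩ := ih 0 (by omega)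
          refine ⟨false :: a, ?_, ?_⟩
          · rw [List.replicate_succ, e1, List.map_cons]
            rfl
          · rw [e2, List.map_cons]
            rfl
        · obtain ⟨a, e1, e2⟩ := ih s (by omega)
          refine ⟨true :: a, ?_, ?_⟩
          · rw [List.replicate_succ, e1, List.map_cons]
            rfl
          · rw [List.replicate_succ, e2, List.map_cons]
            rfl
    obtain ⟨a, e1, e2⟩ := key s' s h
    exact ⟨a, h1.trans e1, h2.trans e2⟩

private theorem rep_replicate {α : Type} (a : α) (P t : ℕ) :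
    rep (List.replicate P a) t = List.replicate (P * t) a := by
  rw [← rep_singleton, rep_rep, rep_singleton]

/-! ### The count of the letters -/

private def cntF (a : Option (Fin 2) × Option (Fin 2)) : Fin 2 → ℕ :=
  fun i => (if a.1 = some i then 1 else 0) + (if a.2 = some i then 1 else 0)

private theorem cntF_sum (z : List (Option (Fin 2) × Option (Fin 2))) :
    (z.map cntF).sum = fun i => (p1 z ++ (p2 z).reverse).count i := by
  induction z with
  | nil => rfl
  | cons a z ih =>
    rw [List.map_cons, List.sum_cons, ih]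
    funext i
    obtain ⟨x, y⟩ := a
    have h1 : (p1 ((x, y) :: z)).count i = (if x = some i then 1 else 0) + (p1 z).count i := by
      cases x with
      | none => simp [p1]
      | some x =>
        simp only [p1, List.filterMap_cons]
        rw [List.count_cons]
        simp [add_comm]
    have h2 : (p2 ((x, y) :: z)).count i = (if y = some i then 1 else 0) + (p2 z).count i := by
      cases y with
      | none => simp [p2]
      | some y =>
        simp only [p2, List.filterMap_cons]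
        rw [List.count_cons]
        simp [add_comm]
    simp only [Pi.add_apply, cntF, List.count_append, List.count_reverse]
    rw [h1, h2]
    ring

theorem offLe_of {m : ℕ} (B : Language (Fin m)) (hB : mk B ∈ T Pal) (h : mk (Pl mle) ∉ T B) :
    OffLe (fun w => w ∈ B) := by
  intro X0 Y0 X1 Y1 X2 hd
  by_contra hcon
  push Not at hcon
  choose s0 hs0 using hcon
  dsimp only at hd hs0
  obtain ⟨τ1, hτ1, e1⟩ := patIm B X0 Y0 X1 Y1 X2
  -- the languages
  have hL : mk ({w | ∃ t1 t2 : ℕ, w = List.replicate t1 0 ++ List.replicate t2 1 ∧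
        X0 ++ rep Y0 t1 ++ X1 ++ rep Y1 t2 ++ X2 ∈ B} : Language (Fin 2)) ∈ T B :=
    ⟨τ1, hτ1, e1.symm⟩
  obtain ⟨L', hL'⟩ : ∃ L' : Language (Fin 2), L' = {w | ∃ r s : ℕ,
      w = List.replicate r 0 ++ List.replicate s 1 ∧ ∃ r' s' : ℕ, r' ≤ r ∧ s ≤ s' ∧
        X0 ++ rep Y0 r' ++ X1 ++ rep Y1 s' ++ X2 ∈ B} := ⟨_, rfl⟩
  have hmemL' : ∀ r s : ℕ, (List.replicate r 0 ++ List.replicate s 1 : List (Fin 2)) ∈ L' ↔
      ∃ r' s' : ℕ, r' ≤ r ∧ s ≤ s' ∧ X0 ++ rep Y0 r' ++ X1 ++ rep Y1 s' ++ X2 ∈ B := by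
    intro r s
    rw [hL']
    constructor
    · rintro ⟨r1, s1, h1, h2⟩
      obtain ⟨rfl, rfl⟩ := rep01_inj h1
      exact h2
    · intro h2
      exact ⟨r, s, rfl, h2⟩
  have hform : ∀ w ∈ L', ∃ r s : ℕ, w = List.replicate r 0 ++ List.replicate s 1 := by
    intro w hw
    rw [hL'] at hw
    obtain ⟨r, s, h1, -⟩ := hw
    exact ⟨r, s, h1⟩
  have hL'T : mk L' ∈ T B := by
    refine T_subset hL ⟨_, rat_mul rat_D0 rat_D1, ?_⟩
    show L' = _
    ext w
    constructor
    · intro hw
      obtain ⟨r, s, rfl⟩ := hform w hw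
      obtain ⟨r', s', h1, h2, h3⟩ := (hmemL' r s).1 hw
      exact ⟨List.replicate r' 0 ++ List.replicate s' 1, ⟨r', s', rfl, h3⟩,
        (List.replicate r' 0, List.replicate r 0), ⟨r', r, h1, rfl, rfl⟩,
        (List.replicate s' 1, List.replicate s 1), ⟨s', s, h2, rfl, rfl⟩, rfl⟩
    · rintro ⟨_, ⟨t1, t2, rfl, h3⟩, ⟨_, _⟩, ⟨r', r, h1, h4, h5⟩, ⟨_, _⟩, ⟨s', s, h2, h6, h7⟩, h8⟩
      simp only [Prod.mk.injEq] at h4 h5 h6 h7 h8
      subst h4 h5 h6 h7
      obtain ⟨h9, rfl⟩ := h8
      obtain ⟨rfl, rfl⟩ := rep01_inj h9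
      exact (hmemL' r s).2 ⟨t1, t2, h1, h2, h3⟩
  obtain ⟨R, hR, hRL⟩ := isLin_of_mem (T_subset hB hL'T)
  -- the semilinear set
  have hA := parikh R hR cntF
  have hAmem : ∀ r s : ℕ, ![r, s] ∈ {v : Fin 2 → ℕ | ∃ z ∈ R, v = (z.map cntF).sum} ↔
      ∃ r' s' : ℕ, r' ≤ r ∧ s ≤ s' ∧ X0 ++ rep Y0 r' ++ X1 ++ rep Y1 s' ++ X2 ∈ B := by
    intro r s
    rw [← hmemL' r s]
    constructor
    · rintro ⟨z, hz, h1⟩
      have h2 : p1 z ++ (p2 z).reverse ∈ L' := (hRL _).2 ⟨z, hz, rfl⟩
      rw [cntF_sum] at h1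
      obtain ⟨r1, s1, h3⟩ := hform _ h2
      rw [h3] at h1 h2
      have h4 := congrFun h1 0
      have h5 := congrFun h1 1
      simp [List.count_append, List.count_replicate] at h4 h5
      subst h4 h5
      exact h2
    · intro h2
      obtain ⟨z, hz, h3⟩ := (hRL _).1 h2
      refine ⟨z, hz, ?_⟩
      rw [cntF_sum, ← h3]
      funext i
      fin_cases i <;> simp [List.count_append, List.count_replicate]
  obtain ⟨r0, s1, P, Q, hP, hQ, hPQ⟩ := slope _ hA
    (by
      intro r s r' s' h1 hr hs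
      rw [hAmem] at h1 ⊢
      obtain ⟨a, b, h2, h3, h4⟩ := h1
      exact ⟨a, b, h2.trans hr, hs.trans h3, h4⟩)
    (by
      intro r
      rw [hAmem]
      exact ⟨r, r, le_rfl, le_rfl, hd r⟩)
    (by
      intro r
      refine ⟨(Finset.range (r + 1)).sup s0, ?_⟩
      intro s hs
      rw [hAmem] at hs
      obtain ⟨a, b, h2, h3, h4⟩ := hs
      have h5 : b < s0 a := by
        by_contra h6
        exact hs0 a b (not_lt.1 h6) h4
      have h6 : s0 a ≤ (Finset.range (r + 1)).sup s0 :=
        Finset.le_sup (f := s0) (Finset.mem_range.2 (by omega))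
      omega)
  -- the contradiction
  apply h
  obtain ⟨τ3, hτ3, e3⟩ := patIm L' (List.replicate r0 0) (List.replicate P 0)
    (List.replicate s1 1) (List.replicate Q 1) []
  refine T_subset hL'T ⟨τ3, hτ3, ?_⟩
  show Pl mle = im τ3 L'
  rw [e3]
  have hword : ∀ t1 t2 : ℕ, (List.replicate r0 0 ++ rep (List.replicate P 0) t1 ++
      List.replicate s1 1 ++ rep (List.replicate Q 1) t2 ++ [] : List (Fin 2)) =
      List.replicate (r0 + P * t1) 0 ++ List.replicate (s1 + Q * t2) 1 := by
    intro t1 t2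
    rw [rep_replicate, rep_replicate, List.append_nil, List.append_assoc,
      List.replicate_append_replicate, List.replicate_append_replicate]
  have hiff : ∀ t1 t2 : ℕ, (List.replicate r0 0 ++ rep (List.replicate P 0) t1 ++
      List.replicate s1 1 ++ rep (List.replicate Q 1) t2 ++ [] : List (Fin 2)) ∈ L' ↔ t2 ≤ t1 := by
    intro t1 t2
    rw [hword, hmemL', ← hAmem, hPQ]
  ext w
  constructor
  · rintro ⟨i, n, hin, rfl⟩
    exact ⟨i, n, rfl, (hiff i n).2 hin⟩
  · rintro ⟨i, n, rfl, h1⟩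
    exact ⟨i, n, (hiff i n).1 h1, rfl⟩

end LNC
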