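import Pool.Agent.LNC.Defs2
import Pool.Agent.RC.Cone

/-!
# LNC, module PlPal: `S_=, S_≤ ∈ T(Pal)`

Proof. `Pl meq`: the transduction given by the regular language
`{(some 1, some 0)}* · {[(some 0, none), (some 0, none)]} · {(some 1, some 1)}*`
(`regular_mul`, `regular_kstar`, `regular_singleton`, or `regular_expand` with three blocks): its
first components are the words `1^m 0 0 1^n`, which are palindromes `v ++ v.reverse` iff `m = n`
(`v = 1^m 0`), the second components are `0^m 1^n`.
`Pl mle`: insert a block `{(none, some 0)}*` after the first block: second components `0^(m+k) 1^n`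
with `m = n`.
(With `regular_expand X Y 3` or `4` the words are `expand X Y t n`, see `RC/Pattern.lean` for this
style.) `v ++ v.reverse = 1^m 0 0 1^n` implies `m = n`: the length is even and the word equals its
reversal `1^n 0 0 1^m`; e.g. count the letters `1` before the first `0`.
-/

namespace LNC

open RCone

private theorem PlPal_tw (m : ℕ) (l : List (Fin 2)) :
    (List.replicate m (1 : Fin 2) ++ (0 :: l)).takeWhile (fun x => decide (x = 1)) =
      List.replicate m 1 := by
  induction m with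
  | zero => simp
  | succ m ih =>
    rw [List.replicate_succ, List.cons_append, List.takeWhile_cons]
    simp only [decide_true, if_true]
    rw [ih]

private theorem PlPal_iff (m n : ℕ) :
    (List.replicate m (1 : Fin 2) ++ [0, 0] ++ List.replicate n 1) ∈ Pal ↔ m = n := by
  constructor
  · rintro ⟨v, hv⟩
    have h1 : (List.replicate m (1 : Fin 2) ++ [0, 0] ++ List.replicate n 1).reverse =
        List.replicate m (1 : Fin 2) ++ [0, 0] ++ List.replicate n 1 := by
      rw [hv]
      simp
    have h2 : (List.replicate m (1 : Fin 2) ++ [0, 0] ++ List.replicate n 1).reverse =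
        List.replicate n (1 : Fin 2) ++ (0 :: (0 :: List.replicate m 1)) := by
      simp
    have h3 : List.replicate m (1 : Fin 2) ++ [0, 0] ++ List.replicate n 1 =
        List.replicate m (1 : Fin 2) ++ (0 :: (0 :: List.replicate n 1)) := by
      simp
    rw [h2, h3] at h1
    have h4 := congrArg (fun l => (l.takeWhile (fun x => decide (x = 1))).length) h1
    simp only [PlPal_tw, List.length_replicate] at h4
    exact h4.symm
  · rintro rfl
    refine ⟨List.replicate m 1 ++ [0], ?_⟩
    simp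

private def PlPal_A : ℕ → List (Option (Fin 2) × Option (Fin 2)) :=
  fun i => if i = 2 then [(some 0, none), (some 0, none)] else []

private def PlPal_B : ℕ → List (Option (Fin 2) × Option (Fin 2)) :=
  fun i => if i = 0 then [(some 1, some 0)] else if i = 1 then [(none, some 0)]
    else [(some 1, some 1)]

private theorem PlPal_e1 (t : ℕ → ℕ) :
    p1 (expand PlPal_A PlPal_B t 3) =
      List.replicate (t 0) 1 ++ [0, 0] ++ List.replicate (t 2) 1 := by
  rw [p1_expand]
  have a0 : p1 (PlPal_A 0) = [] := rfl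
  have a1 : p1 (PlPal_A 1) = [] := rfl
  have a2 : p1 (PlPal_A 2) = [0, 0] := rfl
  have a3 : p1 (PlPal_A 3) = [] := rfl
  have b0 : p1 (PlPal_B 0) = [1] := rfl
  have b1 : p1 (PlPal_B 1) = [] := rfl
  have b2 : p1 (PlPal_B 2) = [1] := rfl
  simp only [expand, Nat.reduceAdd, zero_add, a0, a1, a2, a3, b0, b1, b2, rep_singleton,
    rep_nil, List.append_nil, List.nil_append]

private theorem PlPal_e2 (t : ℕ → ℕ) :
    p2 (expand PlPal_A PlPal_B t 3) =
      List.replicate (t 0 + t 1) 0 ++ List.replicate (t 2) 1 := by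
  rw [p2_expand]
  have a0 : p2 (PlPal_A 0) = [] := rfl
  have a1 : p2 (PlPal_A 1) = [] := rfl
  have a2 : p2 (PlPal_A 2) = [] := rfl
  have a3 : p2 (PlPal_A 3) = [] := rfl
  have b0 : p2 (PlPal_B 0) = [0] := rfl
  have b1 : p2 (PlPal_B 1) = [0] := rfl
  have b2 : p2 (PlPal_B 2) = [1] := rfl
  simp only [expand, Nat.reduceAdd, zero_add, a0, a1, a2, a3, b0, b1, b2, rep_singleton,
    rep_nil, List.append_nil, List.nil_append, List.replicate_append_replicate]

private def PlPal_A' : ℕ → List (Option (Fin 2) × Option (Fin 2)) :=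
  fun i => if i = 1 then [(some 0, none), (some 0, none)] else []

private def PlPal_B' : ℕ → List (Option (Fin 2) × Option (Fin 2)) :=
  fun i => if i = 0 then [(some 1, some 0)] else [(some 1, some 1)]

private theorem PlPal_e1' (t : ℕ → ℕ) :
    p1 (expand PlPal_A' PlPal_B' t 2) =
      List.replicate (t 0) 1 ++ [0, 0] ++ List.replicate (t 1) 1 := by
  rw [p1_expand]
  have a0 : p1 (PlPal_A' 0) = [] := rfl
  have a1 : p1 (PlPal_A' 1) = [0, 0] := rfl
  have a2 : p1 (PlPal_A' 2) = [] := rfl
  have b0 : p1 (PlPal_B' 0) = [1] := rfl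
  have b1 : p1 (PlPal_B' 1) = [1] := rfl
  simp only [expand, Nat.reduceAdd, zero_add, a0, a1, a2, b0, b1, rep_singleton,
    rep_nil, List.append_nil, List.nil_append]

private theorem PlPal_e2' (t : ℕ → ℕ) :
    p2 (expand PlPal_A' PlPal_B' t 2) =
      List.replicate (t 0) 0 ++ List.replicate (t 1) 1 := by
  rw [p2_expand]
  have a0 : p2 (PlPal_A' 0) = [] := rfl
  have a1 : p2 (PlPal_A' 1) = [] := rfl
  have a2 : p2 (PlPal_A' 2) = [] := rfl
  have b0 : p2 (PlPal_B' 0) = [0] := rfl
  have b1 : p2 (PlPal_B' 1) = [1] := rfl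
  simp only [expand, Nat.reduceAdd, zero_add, a0, a1, a2, b0, b1, rep_singleton,
    rep_nil, List.append_nil, List.nil_append]

theorem meq_mem_Pal : mk (Pl meq) ∈ T Pal := by
  refine ⟨{q | ∃ z ∈ ({z | ∃ t : ℕ → ℕ, z = expand PlPal_A' PlPal_B' t 2} :
    Language (Option (Fin 2) × Option (Fin 2))), p1 z = q.1 ∧ p2 z = q.2},
    ⟨_, regular_expand PlPal_A' PlPal_B' 2, fun a b => Iff.rfl⟩, ?_⟩
  show Pl meq = _
  ext w
  constructor
  · rintro ⟨m, n, hmn, rfl⟩
    have hmn' : m = n := hmn
    refine ⟨List.replicate m 1 ++ [0, 0] ++ List.replicate n 1, (PlPal_iff m n).2 hmn',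
      _, ⟨fun i => if i = 0 then m else n, rfl⟩, ?_, ?_⟩
    · exact PlPal_e1' _
    · exact PlPal_e2' _
  · rintro ⟨x, hx, z, ⟨t, rfl⟩, h1, h2⟩
    have h1' : p1 (expand PlPal_A' PlPal_B' t 2) = x := h1
    rw [← h1', PlPal_e1', PlPal_iff] at hx
    have h2' : p2 (expand PlPal_A' PlPal_B' t 2) = w := h2
    rw [PlPal_e2'] at h2'
    exact ⟨t 0, t 1, hx, h2'.symm⟩

theorem mle_mem_Pal : mk (Pl mle) ∈ T Pal := by
  refine ⟨{q | ∃ z ∈ ({z | ∃ t : ℕ → ℕ, z = expand PlPal_A PlPal_B t 3} :
    Language (Option (Fin 2) × Option (Fin 2))), p1 z = q.1 ∧ p2 z = q.2},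
    ⟨_, regular_expand PlPal_A PlPal_B 3, fun a b => Iff.rfl⟩, ?_⟩
  show Pl mle = _
  ext w
  constructor
  · rintro ⟨m, n, hmn, rfl⟩
    have hmn' : n ≤ m := hmn
    refine ⟨List.replicate n 1 ++ [0, 0] ++ List.replicate n 1, (PlPal_iff n n).2 rfl,
      _, ⟨fun i => if i = 0 then n else if i = 1 then m - n else n, rfl⟩, ?_, ?_⟩
    · exact PlPal_e1 _
    · refine (PlPal_e2 _).trans ?_
      simp only [if_true, if_false, one_ne_zero, OfNat.ofNat_ne_zero, OfNat.ofNat_ne_one]
      congr 2
      omega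
  · rintro ⟨x, hx, z, ⟨t, rfl⟩, h1, h2⟩
    have h1' : p1 (expand PlPal_A PlPal_B t 3) = x := h1
    rw [← h1', PlPal_e1, PlPal_iff] at hx
    have h2' : p2 (expand PlPal_A PlPal_B t 3) = w := h2
    rw [PlPal_e2] at h2'
    refine ⟨t 0 + t 1, t 2, ?_, h2'.symm⟩
    show t 2 ≤ t 0 + t 1
    omega

end LNC
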