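import Pool.Agent.LNC.Core
import Pool.Agent.LNC.CtxB
import Pool.Agent.LNC.DPrime
import Pool.Agent.LNC.PlPal
import Pool.Agent.LNC.FlRat
import Pool.Agent.LNC.OffLeB
import Pool.Agent.LNC.Enc

/-!
# LNC, module OneStep (assembly): one step above a linear language
-/

namespace LNC

open RCone

theorem mem_T_iff {X : Type} {n : ℕ} (K : Language (Fin n)) (B : Language X) :
    mk K ∈ T B ↔ ∃ τ : Set (List X × List (Fin n)), IsRational τ ∧ im τ B = K :=
  ⟨fun ⟨τ, h1, h2⟩ => ⟨τ, h1, h2.symm⟩, fun ⟨τ, h1, h2⟩ => ⟨τ, h1, h2.symm⟩⟩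

theorem not_mem_F {main : ℕ → ℕ → Prop} (h : main = meq ∨ main = mle) {m : ℕ}
    (B : Language (Fin m)) (hlin : mk B ∈ T Pal) (hP : mk (Pl main) ∉ T B) :
    ∃ e, mk (FF e main) ∉ T B := by
  obtain ⟨R, ⟨Q, hQ, M, rfl⟩, hR⟩ := isLin_of_mem hlin
  refine ⟨2 * Fintype.card Q + 2, fun hF => ?_⟩
  obtain ⟨ρ, hρ, hρF⟩ := (ff_mem B).1 hF
  obtain ⟨S, hS, C, hC⟩ := ctx_of B M hR ρ hρ hρF
  have hCm : C.mem = fun ζ => p1 ζ ∈ B := by
    funext ζ
    exact propext (hC ζ)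
  refine core le_rfl C ?_
  rcases h with rfl | rfl
  · refine Or.inl ⟨rfl, ?_⟩
    rw [hCm]
    exact offEq_p1 (offEq_of B fun h => hP ((mem_T_iff _ _).2 h))
  · refine Or.inr ⟨rfl, ?_⟩
    rw [hCm]
    exact offLe_p1 (offLe_of B hlin hP)

theorem one_step {main : ℕ → ℕ → Prop} (h : main = meq ∨ main = mle) {m : ℕ}
    (B : Language (Fin m)) (hne : ∃ w, w ∈ B) (hlin : mk B ∈ T Pal) (hP : mk (Pl main) ∉ T B) :
    ∃ (n : ℕ) (C : Language (Fin n)), (∃ w, w ∈ C) ∧ mk C ∈ T Pal ∧ mk (Pl main) ∉ T C ∧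
      mk B ∈ T C ∧ mk C ∉ T B ∧
      ∀ (l : ℕ) (A : Language (Fin l)), mk B ∈ T A → mk (Pl main) ∈ T A → mk C ∈ T A := by
  have hM : MainOK main := by
    rcases h with rfl | rfl
    · exact meq_ok
    · exact mle_ok
  obtain ⟨e, he⟩ := not_mem_F h B hlin hP
  obtain ⟨τ, hτ, hτF⟩ := fl_rational e
  have hFP : mk (FF e main) ∈ T (Pl main) :=
    (ff_mem (Pl main)).2 ⟨τ, hτ, hτF main hM.refl hM.le⟩
  have hPPal : mk (Pl main) ∈ T Pal := by
    rcases h with rfl | rfl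
    · exact meq_mem_Pal
    · exact mle_mem_Pal
  refine ⟨m + (e + 2), join B (FF e main), ?_, ?_, ?_, left_mem_join B _, ?_, ?_⟩
  · obtain ⟨w, hw⟩ := hne
    exact ⟨w.map (Fin.castAdd (e + 2)), Or.inl ⟨w, hw, rfl⟩⟩
  · exact join_mem hlin (T_subset hPPal hFP)
  · intro hPC
    obtain ⟨σ, hσ, hσP⟩ := (mem_T_iff _ _).1 hPC
    obtain ⟨σ₁, σ₂, h1, h2, h12⟩ := im_join B (FF e main) hσ
    obtain ⟨σ', hσ', hσ'e⟩ := ff_im (main := main) σ₂ h2
    obtain ⟨K, hK⟩ := dPrime hM σ' hσ' (by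
      intro w hw
      rw [hσ'e] at hw
      rw [← hσP]
      exact (h12 w).2 (Or.inr hw))
    apply hP
    -- `Pl main` is the image of `im σ₁ B` under the shift by `K`
    obtain ⟨ρ, hρ, hρe⟩ := patIm (im σ₁ B) (List.replicate K (0 : Fin 2)) [0]
      (List.replicate K 1) [1] []
    refine (mem_T_iff _ _).2 ⟨_, IsRational.comp h1 hρ, ?_⟩
    have e1 : im {p : List (Fin m) × List (Fin 2) | ∃ v, (p.1, v) ∈ σ₁ ∧ (v, p.2) ∈ ρ} B =
        im ρ (im σ₁ B) := by
      ext w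
      constructor
      · rintro ⟨u, hu, v, hv1, hv2⟩
        exact ⟨v, ⟨u, hu, hv1⟩, hv2⟩
      · rintro ⟨v, ⟨u, hu, hv1⟩, hv2⟩
        exact ⟨u, hu, v, hv1, hv2⟩
    rw [e1, hρe]
    have shift : ∀ a b : ℕ, main (K + a) (K + b) ↔ main a b := by
      intro a b
      rcases h with rfl | rfl
      · unfold meq; omega
      · unfold mle; omega
    have e2 : ∀ t1 t2 : ℕ, (List.replicate K (0 : Fin 2) ++ rep [0] t1 ++ List.replicate K 1 ++
        rep [1] t2 ++ [] : List (Fin 2)) =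
        List.replicate (K + t1) 0 ++ List.replicate (K + t2) 1 := by
      intro t1 t2
      rw [rep_singleton, rep_singleton, List.replicate_add, List.replicate_add]
      simp
    ext w
    constructor
    · rintro ⟨t1, t2, rfl, hw⟩
      rw [e2] at hw
      have hw' : List.replicate (K + t1) 0 ++ List.replicate (K + t2) 1 ∈ Pl main := by
        rw [← hσP]
        exact (h12 _).2 (Or.inl hw)
      obtain ⟨m', n', hmn, heq⟩ := hw'
      obtain ⟨rfl, rfl⟩ := rep01_inj heq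
      exact ⟨t1, t2, (shift t1 t2).1 hmn, rfl⟩
    · rintro ⟨t1, t2, hmn, rfl⟩
      refine ⟨t1, t2, rfl, ?_⟩
      rw [e2]
      have hw' : List.replicate (K + t1) 0 ++ List.replicate (K + t2) 1 ∈ im σ (join B (FF e main)) := by
        rw [hσP]
        exact ⟨K + t1, K + t2, (shift t1 t2).2 hmn, rfl⟩
      rcases (h12 _).1 hw' with hw | hw
      · exact hw
      · exfalso
        rw [← hσ'e] at hw
        have := hK _ _ hw
        omega
  · intro hC
    exact he (T_subset hC (right_mem_join B _))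
  · intro l A hA hPA
    exact join_mem hA (T_subset hPA hFP)

end LNC
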