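import Pool.Agent.LNC.Ineq
import Pool.Agent.LNC.Loop

/-!
# LNC, module P2s: the left head does not reach the `D`-th copy of `W`

`D = card (Conf Q S)`; the accepted word is `ζ0 W^T n`, `D ≤ T`, `W` outputs no `g` and at least one `b`,
`n` outputs no `g`, and `main` fails for the counts of the word.

Proof. Suppose `|ζ0 W^D| ≤ |ξ|`. Since `ξ ++ η.reverse = ζ0 ++ rep W D ++ (rep W (T - D) ++ n)`
(`rep_add`), `ξ = ζ0 ++ rep W D ++ ξ'` and `ξ' ++ η.reverse = rep W (T - D) ++ n`
(`List.append_eq_append_iff`), so `gl η = []`. `splitL` at `ζ0`, then `StepRel.loopL_rep` for `C.CR` (with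
`V := W`, `m := D`, `R := ξ'`): `i < j ≤ D`, a loop `(rep W (j - i) | η₂)` at a configuration `c`, with
`η = η₀ ++ (η₁ ++ η₂ ++ η₃)`. `gl (rep W (j-i)) = []`, `gl η₂ = []`, `yb (rep W (j-i)) ≥ 1`. `pump_off`
(its hypothesis `hoff` about the total counts: `gl`, `pc` of `ξ` and `η` together are those of
`ξ ++ η.reverse`, because `|gl η.reverse| = |gl η|`, `pc η.reverse = pc η`; and `ξ₁ ++ ξ₂ ++ ξ₃ = ξ`).
-/

namespace LNC

open RCone

variable {e : ℕ} {main : ℕ → ℕ → Prop} {Q S Γ : Type} (C : Ctx e main Q S Γ)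

theorem p2s [Fintype Q] [Fintype S] (hM : MainOK main) {ζ0 W n ξ η : List Γ} {T : ℕ}
    {cf : Conf Q S} (hWg : gl C.out W = []) (hWy : 1 ≤ yb C.out W) (hn : gl C.out n = [])
    (h : C.CR.rel C.c0 ξ η cf) (hf : cf ∈ C.Acc) (he : ξ ++ η.reverse = ζ0 ++ rep W T ++ n)
    (hoff : ¬ main (gl C.out (ζ0 ++ rep W T ++ n)).length (pc C.out (ζ0 ++ rep W T ++ n)))
    (hT : Fintype.card (Conf Q S) ≤ T) :
    ξ.length < (ζ0 ++ rep W (Fintype.card (Conf Q S))).length := by
  set D := Fintype.card (Conf Q S) with hD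
  by_contra hlt
  rw [not_lt] at hlt
  have hTD : rep W T = rep W D ++ rep W (T - D) := by
    rw [← rep_add]
    congr 1
    omega
  have hpre : ζ0 ++ rep W D <+: ξ := by
    refine List.prefix_of_prefix_length_le (l₃ := ξ ++ η.reverse) ?_ (List.prefix_append _ _) hlt
    rw [he, hTD]
    exact ⟨rep W (T - D) ++ n, by simp only [List.append_assoc]⟩
  obtain ⟨ξ', hξ'⟩ := hpre
  have he2 : ξ' ++ η.reverse = rep W (T - D) ++ n := by
    rw [← hξ', hTD] at he
    simp only [List.append_assoc] at he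
    have h1 := List.append_cancel_left he
    exact List.append_cancel_left h1
  have hgη : gl C.out η = [] := by
    have h1 : gl C.out (ξ' ++ η.reverse) = [] := by
      rw [he2, gl_append, gl_rep, hWg, hn, rep_nil, List.append_nil]
    rw [gl_append, gl_reverse, List.append_eq_nil_iff, List.reverse_eq_nil_iff] at h1
    exact h1.2
  have h' : C.CR.rel C.c0 (ζ0 ++ (rep W D ++ ξ')) η cf := by
    rw [← List.append_assoc, hξ']
    exact h
  obtain ⟨η₀, η', q', hη, hr1, hr2⟩ := C.CR.splitL h'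
  obtain ⟨i, j, c, η₁, η₂, η₃, hij, hjD, hη', hr3, hr4, hr5⟩ :=
    C.CR.loopL_rep (le_of_eq hD.symm) hr2
  have hD3 : rep W D = rep W i ++ rep W (j - i) ++ rep W (D - j) := by
    rw [← rep_add, ← rep_add]
    congr 1
    omega
  have e1 : ζ0 ++ rep W i ++ rep W (j - i) ++ (rep W (D - j) ++ ξ') = ξ := by
    rw [← hξ', hD3]
    simp only [List.append_assoc]
  have e2 : η₀ ++ η₁ ++ η₂ ++ η₃ = η := by
    rw [hη, hη']
    simp only [List.append_assoc]
  have hg2 : gl C.out η₂ = [] := by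
    rw [← e2, gl_append, gl_append, gl_append, List.append_eq_nil_iff, List.append_eq_nil_iff]
      at hgη
    exact hgη.1.2
  refine pump_off C hM (C.CR.append hr1 hr3) hr4 hr5 hf ?_ hg2 ?_ ?_
  · rw [gl_rep, hWg, rep_nil]
  · rw [yb_rep]
    have h1 : 1 ≤ j - i := by omega
    have h2 : 1 * 1 ≤ (j - i) * yb C.out W := Nat.mul_le_mul h1 hWy
    omega
  · rw [e1, e2]
    rw [← he, gl_append, gl_reverse, List.length_append, List.length_reverse, pc_append,
      pc_reverse] at hoff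
    exact hoff

end LNC
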