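import Pool.Agent.LNC.Ineq
import Pool.Agent.LNC.Loop
import Pool.Agent.LNC.P2s

/-!
# LNC, module P2a: the loop in the `b`-zone

Let `D = card (Conf Q S)`, `π = W.reverse` and let the word `ζ = ℓ V^r m W^T n` be accepted (by the
linear automaton and by `M`), where `W` outputs no `g` and at least one `b`, `n` outputs no `g`, and
`main` fails for the counts of `ζ`. If `T ≥ D (|ℓ| + |V| + |gl m| + 2)`, there is a loop
`(xb | π^i2)` whose left part lies in the zone `V^r`, and whose two ends are congruent modulo `|V|`.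

Proof. `Ctx.of_mem`: `ζ = ξ ++ η.reverse`, `C.CR.rel C.c0 ξ η cf`, `cf ∈ C.Acc`.

Step A: `|ξ| < |ℓ V^r m W^D|` by `p2s` (module P2s, with `ζ0 = ℓ ++ rep V r ++ m`; `D ≤ T`).

Step B. So `ξ ++ Y.reverse = ℓ V^r m W^D` and `η = n.reverse ++ π^T2 ++ Y` with `T2 = T - D`,
`Y = (the rest).reverse` (`List.append_eq_append_iff`; `(rep W T2).reverse = rep π T2`).
`splitR` at `n.reverse`, then `chainR` for `rep π T2 = cat (fun _ => π) 0 T2` with the remainder `Y`:
configurations `c 0, …, c T2` (`c 0 = d`), left words `x0`, `X i`, `xr`: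
`C.CR.rel C.c0 x0 n.reverse (c 0)`, `C.CR.rel (c i) (X i) π (c (i+1))`, `C.CR.rel (c T2) xr Y cf`.
Put `P i = x0 ++ cat X 0 i` (a prefix of `ξ`, hence of `ℓ V^r m W^D`) and define the class of `i`:
* `|P i|` if `|P i| < |ℓ|`;
* `|ℓ| + (|P i| - |ℓ|) % |V|` if `|ℓ| ≤ |P i| ≤ |ℓ| + r |V|`;
* `|ℓ| + |V| + (|gl (P i)| - |gl (ℓ V^r)|)` otherwise.
The class is `< K := |ℓ| + |V| + |gl m| + 1`: in the third case `P i = ℓ V^r ++ (prefix of m W^D)` and
`gl` of this prefix is a prefix of `gl m`. `T2 + 1 > D K` (because `T ≥ D (K + 1)`), so there are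
`i < i' ≤ T2` with `c i = c i'` and equal class. Let `xb = cat X i i'`; then
`C.CR.rel (c i) xb (rep π (i' - i)) (c i)`. If `gl xb = []` then `pump_off` gives a contradiction
(`yb (rep π (i'-i)) ≥ 1`, `gl π = []`). In the first case `|P i| = |P i'|`, so `xb = []`;
in the third case `|gl (P i)| = |gl (P i')|`, so `gl xb = []`; in the second case, if
`|P i| = |P i'|` then `xb = []`. (The three ranges of the class are disjoint.) So we are in the second
case and `|P i| = |ℓ| + a |V| + t'`, `|P i'| = |ℓ| + (a + k) |V| + t'`, `k ≥ 1`, `t' < |V|`.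
Since `P i` is a prefix of `ℓ ++ rep V r ++ …` with `|ℓ| ≤ |P i| ≤ |ℓ| + r |V|`, we get
`P i = ℓ ++ (rep V r).take (a |V| + t') = ℓ ++ rep V a ++ V.take t'` and the same for `P i'`.
Put `i1 = i`, `i2 = i' - i`, `i3 = T2 - i'`, `t0 = D`, `xa = cat X 0 i`, `xc = cat X i' T2 ++ xr`.
`a + k ≤ r` since `(a + k) |V| ≤ r |V|`.
-/

namespace LNC

open RCone

variable {e : ℕ} {main : ℕ → ℕ → Prop} {Q S Γ : Type} (C : Ctx e main Q S Γ)

/-- a prefix of a power -/
theorem P2a_take_rep (V : List Γ) {r a t : ℕ} (ht : t < V.length)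
    (h : a * V.length + t ≤ r * V.length) :
    (rep V r).take (a * V.length + t) = rep V a ++ V.take t := by
  have har : a ≤ r := by
    by_contra hcon
    have : (r + 1) * V.length ≤ a * V.length := Nat.mul_le_mul_right _ (by omega)
    have h2 : (r + 1) * V.length = r * V.length + V.length := by ring
    omega
  obtain ⟨b, rfl⟩ := Nat.exists_eq_add_of_le har
  rw [rep_add, List.take_append, List.take_of_length_le (by rw [length_rep]; omega), length_rep,
    Nat.add_sub_cancel_left]
  congr 1
  cases b with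
  | zero =>
    have : t = 0 := by
      rw [Nat.add_zero] at h
      omega
    subst this
    simp
  | succ b => rw [rep_succ, List.take_append_of_le_length ht.le]

theorem P2a_cat_length {X : ℕ → List Γ} {i j : ℕ} (hij : i ≤ j) :
    (cat X 0 i).length ≤ (cat X 0 j).length := by
  rw [← cat_append X (Nat.zero_le i) hij, List.length_append]
  omega

theorem p2a [Fintype Q] [Fintype S] (hM : MainOK main) {ℓ V m W n : List Γ} {r T : ℕ}
    (hV : V ≠ []) (hWg : gl C.out W = []) (hWy : 1 ≤ yb C.out W) (hn : gl C.out n = [])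
    (hmem : C.mem (ℓ ++ rep V r ++ m ++ rep W T ++ n))
    (hacc : ℓ ++ rep V r ++ m ++ rep W T ++ n ∈ C.M.accepts)
    (hoff : ¬ main (gl C.out (ℓ ++ rep V r ++ m ++ rep W T ++ n)).length
      (pc C.out (ℓ ++ rep V r ++ m ++ rep W T ++ n)))
    (hT : Fintype.card (Conf Q S) * (ℓ.length + V.length + (gl C.out m).length + 2) ≤ T) :
    ∃ (d c cf : Conf Q S) (x0 xa xb xc Y : List Γ) (a k t' t0 i1 i2 i3 : ℕ),
      C.CR.rel C.c0 x0 n.reverse d ∧ C.CR.rel d xa (rep W.reverse i1) c ∧
      C.CR.rel c xb (rep W.reverse i2) c ∧ C.CR.rel c xc (rep W.reverse i3 ++ Y) cf ∧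
      cf ∈ C.Acc ∧ 1 ≤ i2 ∧ 1 ≤ k ∧ t' < V.length ∧ a + k ≤ r ∧
      x0 ++ xa = ℓ ++ rep V a ++ V.take t' ∧
      x0 ++ xa ++ xb = ℓ ++ rep V (a + k) ++ V.take t' ∧
      x0 ++ xa ++ xb ++ xc ++ Y.reverse = ℓ ++ rep V r ++ m ++ rep W t0 := by
  classical
  set D := Fintype.card (Conf Q S) with hD
  set π := W.reverse with hπ
  obtain ⟨ξ, η, cf, he, h, hf⟩ := C.of_mem hmem hacc
  have hDT : D ≤ T := by
    refine le_trans ?_ hT
    exact Nat.le_mul_of_pos_right _ (by omega)
  have hDT2 : D + D * (ℓ.length + V.length + (gl C.out m).length + 1) ≤ T := by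
    refine le_trans (le_of_eq ?_) hT
    ring
  have hoff' : ¬ main ((gl C.out ξ).length + (gl C.out η).length) (pc C.out ξ + pc C.out η) := by
    rw [he] at hoff
    simpa using hoff
  have hlt : ξ.length < (ℓ ++ rep V r ++ m ++ rep W D).length :=
    p2s C hM (ζ0 := ℓ ++ rep V r ++ m) hWg hWy hn h hf he.symm hoff hDT
  obtain ⟨T2, rfl⟩ := Nat.exists_eq_add_of_le hDT
  -- the words
  have he' : ξ ++ η.reverse = (ℓ ++ rep V r ++ m ++ rep W D) ++ (rep W T2 ++ n) := by
    rw [← he, rep_add]
    simp only [List.append_assoc]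
  rw [List.append_eq_append_iff] at he'
  rcases he' with ⟨as, hZ, hη⟩ | ⟨bs, hξ, -⟩
  swap
  · exfalso
    rw [hξ, List.length_append] at hlt
    omega
  have hη' : η = n.reverse ++ (rep π T2 ++ as.reverse) := by
    have := congrArg List.reverse hη
    rw [List.reverse_reverse] at this
    rw [this]
    simp only [List.reverse_append, rep_reverse, List.append_assoc, hπ]
  subst hη'
  obtain ⟨x0, ξ', d, rfl, h0, h1⟩ := C.CR.splitR h
  have hcc : rep π T2 = cat (fun _ => π) 0 T2 := by rw [cat_const, Nat.sub_zero]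
  have h1' := h1
  rw [hcc] at h1'
  obtain ⟨c, X, Xr, hc0, rfl, hX, hXr⟩ := C.CR.chainR h1'
  -- the prefixes
  have hP : ∀ i ≤ T2, C.CR.rel C.c0 (x0 ++ cat X 0 i) (n.reverse ++ rep π i) (c i) := by
    intro i hi
    have := C.CR.cat hX (Nat.zero_le i) hi
    rw [cat_const, Nat.sub_zero, hc0] at this
    exact C.CR.append h0 this
  have hmid : ∀ i j, i ≤ j → j ≤ T2 → C.CR.rel (c i) (cat X i j) (rep π (j - i)) (c j) := by
    intro i j hij hj
    have := C.CR.cat hX hij hj
    rwa [cat_const] at this
  have hend : ∀ i ≤ T2, C.CR.rel (c i) (cat X i T2 ++ Xr) (rep π (T2 - i) ++ as.reverse) cf := by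
    intro i hi
    exact C.CR.append (hmid i T2 hi le_rfl) hXr
  have hglπ : gl C.out π = [] := by rw [hπ, gl_reverse, hWg]; rfl
  have hybπ : 1 ≤ yb C.out π := by rw [hπ, yb_reverse]; exact hWy
  -- no loop without letters `g`
  have hno : ∀ i j, i < j → j ≤ T2 → c i = c j → gl C.out (cat X i j) = [] → False := by
    intro i j hij hj hcij hg
    have e1 : x0 ++ (cat X 0 T2 ++ Xr) = (x0 ++ cat X 0 i) ++ cat X i j ++ (cat X j T2 ++ Xr) := by
      rw [← cat_append X (Nat.zero_le i) (hij.le.trans hj), ← cat_append X hij.le hj]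
      simp only [List.append_assoc]
    have e2 : n.reverse ++ (rep π T2 ++ as.reverse) = (n.reverse ++ rep π i) ++ rep π (j - i) ++
        (rep π (T2 - j) ++ as.reverse) := by
      have : T2 = i + (j - i) + (T2 - j) := by omega
      conv_lhs => rw [this, rep_add, rep_add]
      simp only [List.append_assoc]
    have hm := hmid i j hij.le hj
    rw [← hcij] at hm
    have he3 := hend j hj
    rw [← hcij] at he3
    refine pump_off C hM (hP i (by omega)) hm he3 hf hg (by rw [gl_rep, hglπ, rep_nil]) ?_ ?_
    · rw [yb_rep]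
      have : 1 ≤ (j - i) * yb C.out π := Nat.mul_pos (by omega) hybπ
      omega
    · rw [← e1, ← e2]
      exact hoff'
  -- prefixes of `ℓ V^r m W^D`
  set Z := ℓ ++ rep V r ++ m ++ rep W D with hZd
  have hpre : ∀ i ≤ T2, x0 ++ cat X 0 i = Z.take (x0 ++ cat X 0 i).length := by
    intro i hi
    have : Z = (x0 ++ cat X 0 i) ++ (cat X i T2 ++ Xr ++ as) := by
      rw [hZ, ← cat_append X (Nat.zero_le i) hi]
      simp only [List.append_assoc]
    rw [this, List.take_left]
  have hVl : 0 < V.length := List.length_pos_of_ne_nil hV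
  -- the class
  let P : ℕ → List Γ := fun i => x0 ++ cat X 0 i
  let cl : ℕ → ℕ := fun i =>
    if (P i).length < ℓ.length then (P i).length
    else if (P i).length ≤ ℓ.length + r * V.length then ℓ.length + ((P i).length - ℓ.length) % V.length
    else ℓ.length + V.length + ((gl C.out (P i)).length - (gl C.out (ℓ ++ rep V r)).length)
  have hthird : ∀ i ≤ T2, ℓ.length + r * V.length < (P i).length →
      (gl C.out (ℓ ++ rep V r)).length ≤ (gl C.out (P i)).length ∧
      (gl C.out (P i)).length ≤ (gl C.out (ℓ ++ rep V r)).length + (gl C.out m).length := by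
    intro i hi hlt
    have h1 := hpre i hi
    have h2 : (ℓ ++ rep V r).length ≤ (x0 ++ cat X 0 i).length := by
      rw [List.length_append, length_rep]
      exact hlt.le
    have h3 : Z = (ℓ ++ rep V r) ++ (m ++ rep W D) := by rw [hZd]; simp only [List.append_assoc]
    rw [h3, List.take_append, List.take_of_length_le h2] at h1
    have h4 : (P i) = ℓ ++ rep V r ++
        List.take ((x0 ++ cat X 0 i).length - (ℓ ++ rep V r).length) (m ++ rep W D) := h1
    rw [h4, gl_append C.out (ℓ ++ rep V r), List.length_append]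
    refine ⟨by omega, ?_⟩
    have h5 : (gl C.out (List.take ((x0 ++ cat X 0 i).length - (ℓ ++ rep V r).length)
        (m ++ rep W D))).length ≤ (gl C.out (m ++ rep W D)).length := by
      unfold gl
      exact ((List.take_sublist _ _).filterMap _).length_le
    rw [gl_append C.out m, gl_rep, hWg, rep_nil, List.append_nil] at h5
    omega
  have hclb : ∀ i ≤ T2, cl i < ℓ.length + V.length + (gl C.out m).length + 1 := by
    intro i hi
    simp only [cl]
    split_ifs with c1 c2
    · omega
    · have := Nat.mod_lt ((P i).length - ℓ.length) hVl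
      omega
    · have := (hthird i hi (by omega)).2
      omega
  obtain ⟨i, j, hij, hfe⟩ : ∃ i j : Fin (T2 + 1), i ≠ j ∧
      ((c i, (⟨cl i, hclb i (by omega)⟩ : Fin (ℓ.length + V.length + (gl C.out m).length + 1))) =
      (c j, (⟨cl j, hclb j (by omega)⟩ : Fin (ℓ.length + V.length + (gl C.out m).length + 1)))) := by
    refine Fintype.exists_ne_map_eq_of_card_lt (f := fun i : Fin (T2 + 1) => (c i,
      (⟨cl i, hclb i (by omega)⟩ : Fin (ℓ.length + V.length + (gl C.out m).length + 1)))) ?_
    rw [Fintype.card_prod, Fintype.card_fin, Fintype.card_fin, ← hD]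
    omega
  wlog hlt2 : i < j generalizing i j
  · exact this j i hij.symm hfe.symm (lt_of_le_of_ne (not_lt.1 hlt2) hij.symm)
  have hij' : (i : ℕ) < j := hlt2
  have hj : (j : ℕ) ≤ T2 := by omega
  rw [Prod.mk.injEq, Fin.mk.injEq] at hfe
  obtain ⟨hcc', hcl⟩ := hfe
  have hPj : P j = P i ++ cat X i j := by
    simp only [P]
    rw [← cat_append X (Nat.zero_le (i : ℕ)) hij'.le, List.append_assoc]
  have hlen : (P j).length = (P i).length + (cat X i j).length := by
    rw [hPj, List.length_append]
  have hne : (cat X (i : ℕ) j).length ≠ 0 := by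
    intro h0
    exact hno i j hij' hj hcc' (by rw [List.length_eq_zero_iff.1 h0]; rfl)
  -- the class is of the second kind
  have key : ℓ.length ≤ (P i).length ∧ (P j).length ≤ ℓ.length + r * V.length ∧
      ((P i).length - ℓ.length) % V.length = ((P j).length - ℓ.length) % V.length := by
    have m1 := Nat.mod_lt ((P i).length - ℓ.length) hVl
    have m2 := Nat.mod_lt ((P j).length - ℓ.length) hVl
    simp only [cl] at hcl
    by_cases c1 : (P i).length < ℓ.length
    · rw [if_pos c1] at hcl
      exfalso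
      split_ifs at hcl with c2 c3 <;> omega
    · rw [if_neg c1] at hcl
      have c1' : ¬ (P j).length < ℓ.length := by omega
      rw [if_neg c1'] at hcl
      by_cases c2 : (P i).length ≤ ℓ.length + r * V.length
      · rw [if_pos c2] at hcl
        by_cases c3 : (P j).length ≤ ℓ.length + r * V.length
        · rw [if_pos c3] at hcl
          exact ⟨by omega, c3, by omega⟩
        · rw [if_neg c3] at hcl
          exfalso
          omega
      · exfalso
        have c3 : ¬ (P j).length ≤ ℓ.length + r * V.length := by omega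
        rw [if_neg c2, if_neg c3] at hcl
        have g1 := (hthird i (by omega) (by omega)).1
        have g2 := (hthird j hj (by omega)).1
        have g3 : (gl C.out (P j)).length = (gl C.out (P i)).length +
            (gl C.out (cat X i j)).length := by
          rw [hPj, gl_append, List.length_append]
        exact hno i j hij' hj hcc' (List.length_eq_zero_iff.1 (by omega))
  obtain ⟨k1, k2, k3⟩ := key
  set b1 := (P i).length - ℓ.length with hb1
  set b2 := (P j).length - ℓ.length with hb2
  have hb12 : b1 < b2 := by omega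
  set t' := b1 % V.length with ht'
  have ht'lt : t' < V.length := Nat.mod_lt _ hVl
  have hb1e : b1 = (b1 / V.length) * V.length + t' := by
    rw [ht', Nat.mul_comm]; exact (Nat.div_add_mod _ _).symm
  have hb2e : b2 = (b2 / V.length) * V.length + t' := by
    rw [k3, Nat.mul_comm]; exact (Nat.div_add_mod _ _).symm
  set a := b1 / V.length with ha
  set a' := b2 / V.length with ha'
  have haa : a < a' := by
    by_contra hcon
    have : a' * V.length ≤ a * V.length := Nat.mul_le_mul_right _ (by omega)
    omega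
  have hbr : b2 ≤ r * V.length := by omega
  have har : a' ≤ r := by
    by_contra hcon
    have h1 : (r + 1) * V.length ≤ a' * V.length := Nat.mul_le_mul_right _ (by omega)
    have h2 : (r + 1) * V.length = r * V.length + V.length := by ring
    omega
  have hform : ∀ (l a1 : ℕ), l ≤ T2 → (P l).length = ℓ.length + (a1 * V.length + t') →
      a1 * V.length + t' ≤ r * V.length → P l = ℓ ++ rep V a1 ++ V.take t' := by
    intro l a1 hl h1 h2
    have h3 : P l = Z.take (P l).length := hpre l hl
    have h4 : Z = ℓ ++ (rep V r ++ (m ++ rep W D)) := by rw [hZd]; simp only [List.append_assoc]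
    rw [h3, h1, h4, List.take_append, List.take_of_length_le (by omega), Nat.add_sub_cancel_left,
      List.take_append_of_le_length (by rw [length_rep]; omega), P2a_take_rep V ht'lt h2,
      List.append_assoc]
  have hPi := hform i a (by omega) (by omega) (by omega)
  have hPj' := hform j a' hj (by omega) (by omega)
  refine ⟨d, c i, cf, x0, cat X 0 i, cat X i j, cat X j T2 ++ Xr, as.reverse, a, a' - a, t', D,
    i, j - i, T2 - j, h0, ?_, ?_, ?_, hf, by omega, by omega, ht'lt, by omega, hPi, ?_, ?_⟩
  · have := hmid 0 i (Nat.zero_le _) (by omega)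
    rwa [hc0, Nat.sub_zero] at this
  · have := hmid i j hij'.le hj
    rwa [← hcc'] at this
  · have := hend j hj
    rwa [← hcc'] at this
  · have e1 : a + (a' - a) = a' := by omega
    rw [e1, ← hPj', hPj]
  · rw [List.reverse_reverse]
    refine Eq.trans ?_ hZ.symm
    have e1 : cat X 0 T2 = cat X 0 i ++ cat X i j ++ cat X j T2 := by
      rw [cat_append X (Nat.zero_le _) hij'.le, cat_append X (Nat.zero_le _) hj]
    rw [e1]
    simp only [List.append_assoc]

end LNC
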