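import Pool.Agent.LNC.ConfL
import Pool.Agent.LNC.SR
import Pool.Agent.LNC.NestD

/-!
# LNC, module Pat: the pattern words `pat`

`c = (q, σ, τ)` is a configuration, `C.CR.rel c ξ η c'` means `C.SR.rel c.1 ξ η c'.1`,
`C.M.evalFrom c.2.1 ξ = c'.2.1` and `{x | C.M.evalFrom x η.reverse ∈ c.2.2} = c'.2.2`.

* `pat_accepts`: let `σf = cf.2.1 ∈ τf = cf.2.2`. The state of `M` after the left part
  `ℓ v mm βl^t1 nl` is `σf` (`hv`, `evalFrom_append'`, loops stay). The set `τ` after the right part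
  `h G^s mr βr^t2 nr` is `τf`: e.g. apply the third component of the `StepRel.append` of the relations
  with the *other* exponents: `C.CR.append L.h1 (C.CR.append (rep of the loop V|G s times) …)` has the
  right word `h ++ rep G s ++ …`; its third component says
  `{x | C.M.evalFrom x (h ++ rep G s ++ mr ++ …).reverse ∈ C.M.accept} = cf.2.2` — for the exponent
  `t2` of `βr` use the loop `βl | βr` `t2` times. So `σf ∈ cf.2.2` says that the pattern word is
  accepted.
* `pat_mem`: `C.SR` accepts `ℓ V^r mm βl^t nl | h G^r mr βr^t nr` (`StepRel.rep`, `StepRel.append`).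
* `pat_cnt`: additivity (`gl_rep`, `pc_rep`, `length_rep`); `a0` is the common value of the two sides
  of `L.bal`; `pc V = 0`, `gl G = []`, `pc G = |gl V|` from `Nest.nw`.
-/

namespace LNC

open RCone

variable {e : ℕ} {main : ℕ → ℕ → Prop} {Q S Γ : Type} (C : Ctx e main Q S Γ)

private theorem pat_rel {m j : ℕ} {cb cβ cf c : Conf Q S}
    {βl βr nl nr ℓ h V G mm mr : List Γ}
    (B : BetaData C cβ cf βl βr nl nr) (L : Lev C m j cb cβ βl nl nr c ℓ h V G mm mr)
    (s t : ℕ) : C.CR.rel C.c0 (ℓ ++ rep V s ++ mm ++ rep βl t ++ nl)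
      (h ++ rep G s ++ mr ++ rep βr t ++ nr) cf :=
  C.CR.append (C.CR.append (C.CR.append (C.CR.append L.h1
    (C.CR.rep (Nest.nw C L.nest).1 s)) L.h2) (C.CR.rep B.hβ t)) B.hn

private theorem pat_loop (M : DFA Γ S) {σ : S} {u : List Γ} (h : M.evalFrom σ u = σ) (n : ℕ) :
    M.evalFrom σ (rep u n) = σ := by
  induction n with
  | zero => rw [rep_zero]; rfl
  | succ n ih => rw [rep_succ, evalFrom_append', h, ih]

theorem pat_accepts {m j : ℕ} {cb cβ cf c : Conf Q S} {βl βr nl nr ℓ h V G mm mr : List Γ}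
    (B : BetaData C cβ cf βl βr nl nr) (L : Lev C m j cb cβ βl nl nr c ℓ h V G mm mr)
    {v : List Γ} (hv : C.M.evalFrom c.2.1 v = c.2.1) (t1 t2 s : ℕ) :
    pat βl βr nl nr ℓ h G mm mr v t1 t2 s ∈ C.M.accepts := by
  have hR := (pat_rel C B L s t2).2.2
  have e0 : C.M.evalFrom C.M.start ℓ = c.2.1 := L.h1.2.1
  have e1 : C.M.evalFrom c.2.1 mm = cβ.2.1 := L.h2.2.1
  have e2 : C.M.evalFrom cβ.2.1 (rep βl t1) = cβ.2.1 := pat_loop C.M B.hβ.2.1 t1
  have e3 : C.M.evalFrom cβ.2.1 nl = cf.2.1 := B.hn.2.1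
  have hL : C.M.evalFrom C.M.start (ℓ ++ v ++ mm ++ rep βl t1 ++ nl) = cf.2.1 := by
    rw [evalFrom_append', evalFrom_append', evalFrom_append', evalFrom_append', e0, hv, e1, e2, e3]
  have hacc : cf.2.1 ∈ cf.2.2 := B.acc.2
  rw [← hR] at hacc
  rw [pat, DFA.mem_accepts, DFA.eval, evalFrom_append', hL]
  exact hacc

theorem pat_mem {m j : ℕ} {cb cβ cf c : Conf Q S} {βl βr nl nr ℓ h V G mm mr : List Γ}
    (B : BetaData C cβ cf βl βr nl nr) (L : Lev C m j cb cβ βl nl nr c ℓ h V G mm mr)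
    (t r : ℕ) : C.mem (pat βl βr nl nr ℓ h G mm mr (rep V r) t t r) :=
  ⟨_, _, _, rfl, (pat_rel C B L r t).1, B.acc.1⟩

theorem pat_cnt {m j : ℕ} {cb cβ cf c : Conf Q S} {βl βr nl nr ℓ h V G mm mr : List Γ}
    (B : BetaData C cβ cf βl βr nl nr) (L : Lev C m j cb cβ βl nl nr c ℓ h V G mm mr) :
    ∃ a0, ∀ r t1 t2 s : ℕ,
      (gl C.out (pat βl βr nl nr ℓ h G mm mr (rep V r) t1 t2 s)).length =
        a0 + r * (gl C.out V).length ∧
      pc C.out (pat βl βr nl nr ℓ h G mm mr (rep V r) t1 t2 s) = a0 + s * (gl C.out V).length := by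
  obtain ⟨-, -, -, -, hpV, hgG, -, hpG⟩ := Nest.nw C L.nest
  refine ⟨(gl C.out ℓ).length + (gl C.out mm).length + (gl C.out nl).length +
    (gl C.out nr).length, fun r t1 t2 s => ⟨?_, ?_⟩⟩
  · simp only [pat, gl_append, gl_reverse, gl_rep, List.length_append, List.length_reverse,
      length_rep, hgG, L.glh, L.glmr, B.glβl, B.glβr, List.length_nil]
    ring
  · rw [L.bal]
    simp only [pat, pc_append, pc_reverse, pc_rep, hpV, hpG, B.pcβl, B.pcβr]
    ring

end LNC
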