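import Pool.Agent.LNC.Cut
import Pool.Agent.LNC.BLoop
import Pool.Agent.LNC.NestEx
import Pool.Agent.LNC.NestD
import Pool.Agent.LNC.Fmt

/-!
# LNC, module Step1: the nested loops and the `b`-loop (assembly)
-/

namespace LNC

open RCone

variable {e : ℕ} {main : ℕ → ℕ → Prop} {Q S Γ : Type} (C : Ctx e main Q S Γ)

theorem step1 [Fintype Q] [Fintype S] [NeZero e] (hM : MainOK main) :
    ∃ (cb cβ cf : Conf Q S) (βl βr nl nr : List Γ), BetaData C cβ cf βl βr nl nr ∧
      ∀ j < e, ∃ (c : Conf Q S) (ℓ h V G mm mr : List Γ),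
        Lev C 1 j cb cβ βl nl nr c ℓ h V G mm mr := by
  classical
  set D := Fintype.card (Conf Q S) with hD
  set n := 2 * D * (D + 1) + 1 with hn
  have he : 0 < e := Nat.pos_of_ne_zero (NeZero.ne e)
  set U := Uw e n (e - 1) with hU
  have hUne : U ≠ [] := Uw_ne n (e - 1)
  set p := n * U.length with hp
  set y := 2 * D * (2 * p + 1) + 2 * p + 1 with hy
  have hlen : (rep U n).length = p := by rw [length_rep]
  have hw : word (rep U n) y p ∈ Fl e main := by
    refine ⟨rep U n, y, p, rfl, Or.inr ?_⟩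
    rw [hlen]
    exact hM.refl p
  obtain ⟨ξ, η, cf, h, hf, ho⟩ := C.complete' hw
  have hDn : D ≤ n := by
    rw [hn]
    nlinarith [Nat.zero_le D]
  obtain ⟨c, ξa, ξb, ηa, ηb, rfl, rfl, ha, hb, hoa, hga, hya⟩ := cut C hM U hUne n y
    (by rw [← hD]; omega) (by omega) h hf ho
  obtain ⟨t1, t2, t3⟩ := cnt_of_word C.out ho
  -- counts of the left part `ξa`
  have hpa : pc C.out ξa = 0 := by
    rw [pc_eq_count, hoa, countP_inr_map]
  have hyal : yb C.out ξa = 0 := by
    rw [yb_eq_count, hoa, countP_inr_map]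
  have t1' : (gl C.out ξa).length + (gl C.out ξb).length +
      ((gl C.out ηa).length + (gl C.out ηb).length) = p := by
    have := congrArg List.length t1
    rw [hlen] at this
    simp only [gl_append, gl_reverse, List.length_append, List.length_reverse,
      List.reverse_append] at this
    omega
  have t2' : yb C.out ξa + yb C.out ξb + (yb C.out ηa + yb C.out ηb) = y := by
    simp only [yb_append, yb_reverse] at t2
    omega
  have t3' : pc C.out ξa + pc C.out ξb + (pc C.out ηa + pc C.out ηb) = p := by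
    simp only [pc_append, pc_reverse] at t3
    omega
  -- the loops inside `(ξa | ηa)` are balanced
  have hbal : Bal C C.c0 ξa ηa c := by
    intro c₁ ξ₁ ξ₂ ξ₃ η₁ η₂ η₃ e1 e2 r1 r2 r3
    subst e1 e2
    have key := loop_ineq C hM (ξ₁ := ξ₁) (ξ₂ := ξ₂) (ξ₃ := ξ₃ ++ ξb) (η₁ := η₁) (η₂ := η₂)
      (η₃ := η₃ ++ ηb) r1 r2 (C.CR.append r3 hb) hf
      (by
        simp only [gl_append, pc_append, List.length_append] at t1' t3' ⊢
        omega)
      (by
        simp only [gl_append, yb_append, List.length_append] at t1' t2' ⊢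
        omega)
    simp only [gl_append, pc_append, yb_append, List.append_eq_nil_iff] at hga hpa hya hyal
    have h0 : (gl C.out η₂).length = 0 := by rw [hga.1.2]; rfl
    have := key.2 (by omega)
    omega
  obtain ⟨cb, c₁, ξ₁, V, ξ₃, η₁, G, η₃, e1, e2, r1, r2, r3⟩ := nest_exists C n hDn (e - 1)
    (by omega) C.c0 c ξa ηa ha hoa hga hya hbal
  subst e1 e2
  obtain ⟨cβ, ζ₁, βl, ζ₃, θ₁, βr, θ₃, e3, e4, r4, r5, r6, b1, b2, b3, b4, b5⟩ := bloop C hb
    (by
      have : 2 * D * ((gl C.out ξb).length + (gl C.out ηb).length + pc C.out ξb +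
          pc C.out ηb + 1) ≤ 2 * D * (2 * p + 1) := Nat.mul_le_mul le_rfl (by omega)
      rw [← hD]
      omega)
  subst e3 e4
  refine ⟨cb, cβ, cf, βl, βr, ζ₃, θ₃, ⟨r5, r6, hf, b1, b2, b3, b4, b5⟩, fun j hj => ?_⟩
  obtain ⟨c', X, Xr, V', G', Z, Zr, e5, e6, r7, r8, r9⟩ := Nest.down C (e - 1) c₁ V G r2 j (by omega)
  subst e5 e6
  have hnw := Nest.nw C r9
  simp only [gl_append, List.append_eq_nil_iff] at hga
  -- the order of the letters
  have hmr : gl C.out θ₁ = [] := by
    rcases Nat.eq_zero_or_pos (yb C.out βl) with hz | hz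
    · have : gl C.out (θ₁.reverse ++ (η₁ ++ (Xr ++ G' ++ Zr) ++ η₃).reverse) = [] := by
        refine gl_right C.out (A := ξ₁ ++ (X ++ V' ++ Z) ++ ξ₃ ++ (ζ₁ ++ βl ++ ζ₃) ++ θ₃.reverse)
          (B := βr.reverse) (u := rep U n) (y := y) (p := p) ?_ ?_
        · rw [← ho]
          congr 1
          simp [List.append_assoc]
        · rw [yb_reverse]; omega
      rw [gl_append, List.append_eq_nil_iff] at this
      simpa using this.1
    · have : gl C.out (ζ₃ ++ θ₃.reverse ++ βr.reverse ++ θ₁.reverse ++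
          (η₁ ++ (Xr ++ G' ++ Zr) ++ η₃).reverse) = [] := by
        refine gl_right C.out (A := ξ₁ ++ (X ++ V' ++ Z) ++ ξ₃ ++ ζ₁)
          (B := βl) (u := rep U n) (y := y) (p := p) ?_ hz
        rw [← ho]
        congr 1
        simp [List.append_assoc]
      simp only [gl_append, List.append_eq_nil_iff] at this
      simpa using this.1.2
  refine ⟨c', ξ₁ ++ X, η₁ ++ Xr, V', G', Z ++ ξ₃ ++ ζ₁, Zr ++ η₃ ++ θ₁,
    ⟨C.CR.append r1 r7, r9, C.CR.append (C.CR.append r8 r3) r4, ?_, ?_, ?_, ?_⟩⟩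
  · simp [hga.1.1, hga.1.2.1.1]
  · simp [hga.2, hga.1.2.2, hmr]
  · intro hz
    have : gl C.out (ζ₃ ++ θ₃.reverse ++ βr.reverse ++ θ₁.reverse ++
        (η₁ ++ (Xr ++ G' ++ Zr) ++ η₃).reverse) = [] := by
      refine gl_right C.out (A := ξ₁ ++ (X ++ V' ++ Z) ++ ξ₃ ++ ζ₁)
        (B := βl) (u := rep U n) (y := y) (p := p) ?_ hz
      rw [← ho]
      congr 1
      simp [List.append_assoc]
    simp only [gl_append, List.append_eq_nil_iff] at this
    refine ⟨this.1.1.1.1, ?_⟩
    simpa using this.1.1.1.2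
  · obtain ⟨-, -, -, -, w5, w6, -, w8⟩ := hnw
    simp only [gl_append, pc_append, List.length_append, hmr, b1, b2, b3, b4, w5, w6, w8,
      List.length_nil] at t1' t3' ⊢
    have hg1 : (gl C.out η₁).length = 0 := by rw [hga.1.1]; rfl
    have hg2 : (gl C.out Xr).length = 0 := by rw [hga.1.2.1.1]; rfl
    have hg3 : (gl C.out Zr).length = 0 := by rw [hga.1.2.2]; rfl
    have hg4 : (gl C.out η₃).length = 0 := by rw [hga.2]; rfl
    omega

end LNC
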